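import Pool.Agent.Y763.GC.K2

/-! The Abelian theorem, conclusion, and the constant. -/

set_option autoImplicit false

open MeasureTheory Filter Topology Set

namespace Pool.Agent.Y763.GC

variable {ι : Type*} {ω g : ι → ℝ}

lemma inv_sq_int {R : ℝ} (hR : 0 < R) (K : ℝ) :
    IntegrableOn (fun x : ℝ => K / x ^ 2) (Ioi R) ∧ ∫ x in Ioi R, K / x ^ 2 = K / R := by
  have h1 : ∀ x ∈ Ioi R, K / x ^ 2 = K * x ^ (-2 : ℝ) := by
    intro x hx
    have hx0 : 0 < x := lt_trans hR hx
    rw [Real.rpow_neg hx0.le, div_eq_mul_inv]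
    norm_num
  constructor
  · have h2 : IntegrableOn (fun x : ℝ => K * x ^ (-2 : ℝ)) (Ioi R) :=
      (integrableOn_Ioi_rpow_of_lt (by norm_num : (-2:ℝ) < -1) hR).const_mul K
    exact h2.congr_fun (fun x hx => (h1 x hx).symm) measurableSet_Ioi
  · rw [setIntegral_congr_fun measurableSet_Ioi h1, integral_const_mul,
      integral_Ioi_rpow_of_lt (by norm_num : (-2:ℝ) < -1) hR]
    have : (-2 + 1 : ℝ) = -1 := by norm_num
    rw [this, Real.rpow_neg_one]
    field_simp

lemma phi_int {φ : ℝ → ℝ} (hm : Measurable φ) {K : ℝ} (hb : ∀ x : ℝ, 0 ≤ x → |φ x| ≤ K)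
    (hb2 : ∀ x : ℝ, 0 < x → |φ x| ≤ K / x ^ 2) : IntegrableOn φ (Ioi 0) := by
  rw [← Ioc_union_Ioi_eq_Ioi zero_le_one]
  refine IntegrableOn.union ?_ ?_
  · refine Integrable.mono' (g := fun _ => K) (integrableOn_const (by simp)) hm.aestronglyMeasurable ?_
    exact (ae_restrict_mem measurableSet_Ioc).mono fun v hv => hb v hv.1.le
  · refine Integrable.mono' (inv_sq_int one_pos K).1 hm.aestronglyMeasurable ?_
    exact (ae_restrict_mem measurableSet_Ioi).mono fun v hv => hb2 v (lt_trans one_pos hv)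

/-- **the Abelian theorem** -/
theorem abel (hω : ∀ i, 0 ≤ ω i) (hg : ∀ i, 0 ≤ g i) (hfin : ∀ T : ℝ, {i | g i ≤ T}.Finite) {A : ℝ}
    (hN : Tendsto (fun T : ℝ => NN ω g T / T) atTop (𝓝 A)) {φ φ' : ℝ → ℝ}
    (hd : ∀ x : ℝ, 0 < x → HasDerivAt φ (φ' x) x) (hc : ContinuousOn φ' (Ioi 0)) (hm : Measurable φ)
    {K : ℝ} (hb : ∀ x : ℝ, 0 ≤ x → |φ x| ≤ K) (hb2 : ∀ x : ℝ, 0 < x → |φ x| ≤ K / x ^ 2) :
    (∀ T : ℝ, 0 < T → Summable fun i => ω i * φ (g i / T)) ∧
    Tendsto (fun T : ℝ => (∑' i, ω i * φ (g i / T)) / T) atTop (𝓝 (A * ∫ t in Ioi (0:ℝ), φ t)) := by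
  classical
  have hK : 0 ≤ K := (abs_nonneg _).trans (hb 0 le_rfl)
  obtain ⟨C, hC0, hC⟩ := NN_lin hω hfin hN
  have hA : 0 ≤ A := by
    refine ge_of_tendsto hN ?_
    filter_upwards [eventually_gt_atTop (0:ℝ)] with T hT
    exact div_nonneg (NN_nonneg hω T) hT.le
  have hφ := phi_int hm hb hb2
  have hsT : ∀ T : ℝ, 0 < T → ∀ y : ℝ, 1 ≤ y → Summable (fun i => if y < g i then ω i * φ (g i / T) else 0) ∧
      |∑' i, if y < g i then ω i * φ (g i / T) else 0| ≤ K * T ^ 2 * (8 * C / y) := by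
    intro T hT y hy
    obtain ⟨h1, h2⟩ := tail hω hfin hC0 hC hy
    have h3 : ∀ i, ‖(if y < g i then ω i * φ (g i / T) else 0)‖ ≤
        K * T ^ 2 * (if y < g i then ω i / g i ^ 2 else 0) := by
      intro i
      by_cases h : y < g i
      · rw [if_pos h, if_pos h, Real.norm_eq_abs, abs_mul, abs_of_nonneg (hω i)]
        have hgi : 0 < g i := by linarith
        have h4 := hb2 (g i / T) (by positivity)
        calc ω i * |φ (g i / T)| ≤ ω i * (K / (g i / T) ^ 2) := mul_le_mul_of_nonneg_left h4 (hω i)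
          _ = K * T ^ 2 * (ω i / g i ^ 2) := by field_simp
      · rw [if_neg h, if_neg h]
        simp
    have h5 := h1.mul_left (K * T ^ 2)
    have h6 := Summable.of_norm_bounded h5 h3
    refine ⟨h6, ?_⟩
    rw [← Real.norm_eq_abs]
    refine (norm_tsum_le_tsum_norm h6.norm).trans ?_
    refine (h6.norm.tsum_le_tsum h3 h5).trans ?_
    rw [tsum_mul_left]
    exact mul_le_mul_of_nonneg_left h2 (by positivity)
  have hsplit : ∀ T y : ℝ, 0 < T → 1 ≤ y → HasSum (fun i => ω i * φ (g i / T))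
      (∑ i ∈ (hfin y).toFinset, ω i * φ (g i / T) + ∑' i, if y < g i then ω i * φ (g i / T) else 0) := by
    intro T y hT hy
    have h1 := (hsT T hT y hy).1.hasSum
    have h2 : HasSum (fun i => if g i ≤ y then ω i * φ (g i / T) else 0)
        (∑ i ∈ (hfin y).toFinset, ω i * φ (g i / T)) := by
      have h3 : ∑ i ∈ (hfin y).toFinset, ω i * φ (g i / T) =
          ∑ i ∈ (hfin y).toFinset, (if g i ≤ y then ω i * φ (g i / T) else 0) := by
        refine Finset.sum_congr rfl fun i hi => ?_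
        have h : g i ≤ y := (hfin y).mem_toFinset.1 hi
        rw [if_pos h]
      rw [h3]
      refine hasSum_sum_of_ne_finset_zero fun i hi => ?_
      exact if_neg fun h => hi ((hfin y).mem_toFinset.2 h)
    have h4 : (fun i => ω i * φ (g i / T)) = fun i => (if g i ≤ y then ω i * φ (g i / T) else 0) +
        (if y < g i then ω i * φ (g i / T) else 0) := by
      funext i
      by_cases h : g i ≤ y
      · rw [if_pos h, if_neg (not_lt.2 h), add_zero]
      · rw [if_neg h, if_pos (not_le.1 h), zero_add]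
    have h5 := h2.add h1
    rw [← h4] at h5
    exact h5
  refine ⟨fun T hT => (hsplit T 1 hT le_rfl).summable, ?_⟩
  have hlim : ∀ ε R : ℝ, 0 < ε → ε < R → Tendsto (fun T : ℝ =>
      (∑ i ∈ (hfin (R * T)).toFinset, ω i * φ (max (g i / T) ε)) / T) atTop
        (𝓝 (A * (ε * φ ε + ∫ v in ε..R, φ v))) := by
    intro ε R hε hR
    have hR0 : 0 < R := hε.trans hR
    have hsub : uIcc ε R ⊆ Ioi 0 := by
      rw [uIcc_of_le hR.le]
      intro x hx
      exact lt_of_lt_of_le hε hx.1
    have hNv : ∀ v : ℝ, 0 < v → Tendsto (fun T : ℝ => NN ω g (v * T) / T) atTop (𝓝 (A * v)) := by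
      intro v hv
      have h1 := (hN.comp (tendsto_id.const_mul_atTop hv)).mul_const v
      refine h1.congr' ?_
      filter_upwards [eventually_gt_atTop (0:ℝ)] with T hT
      simp only [Function.comp, id]
      field_simp
    have h2 : Tendsto (fun T : ℝ => ∫ v in ε..R, NN ω g (v * T) / T * φ' v) atTop
        (𝓝 (∫ v in ε..R, A * v * φ' v)) := by
      refine intervalIntegral.tendsto_integral_filter_of_dominated_convergence
        (fun v => C * (1 + R) * |φ' v|) ?_ ?_ ?_ ?_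
      · refine Eventually.of_forall fun T => ?_
        refine AEStronglyMeasurable.mul ?_ ?_
        · refine Measurable.aestronglyMeasurable ?_
          rcases le_total 0 T with h | h
          · exact ((NN_mono hω hfin).comp (fun a b hab =>
              mul_le_mul_of_nonneg_right hab h)).measurable.div_const _
          · exact ((NN_mono hω hfin).comp_antitone (fun a b hab =>
              mul_le_mul_of_nonpos_right hab h)).measurable.div_const _
        · rw [uIoc_of_le hR.le]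
          refine (hc.mono ?_).aestronglyMeasurable measurableSet_Ioc
          intro x hx
          exact hε.trans hx.1
      · filter_upwards [eventually_ge_atTop (1:ℝ)] with T hT
        refine Eventually.of_forall fun v hv => ?_
        rw [uIoc_of_le hR.le] at hv
        have hT0 : 0 < T := by linarith
        have hv0 : 0 < v := hε.trans hv.1
        rw [Real.norm_eq_abs, abs_mul, abs_of_nonneg (div_nonneg (NN_nonneg hω _) hT0.le)]
        refine mul_le_mul_of_nonneg_right ?_ (abs_nonneg _)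
        rw [div_le_iff₀ hT0]
        refine (hC _ (by positivity)).trans ?_
        have h3 : v * T ≤ R * T := mul_le_mul_of_nonneg_right hv.2 hT0.le
        have h4 : 1 + v * T ≤ (1 + R) * T := by nlinarith
        calc C * (1 + v * T) ≤ C * ((1 + R) * T) := mul_le_mul_of_nonneg_left h4 hC0.le
          _ = C * (1 + R) * T := by ring
      · exact ((hc.mono hsub).intervalIntegrable.abs).const_mul _
      · refine Eventually.of_forall fun v hv => ?_
        rw [uIoc_of_le hR.le] at hv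
        exact (hNv v (hε.trans hv.1)).mul_const _
    have h5 : ∫ v in ε..R, A * v * φ' v = A * (R * φ R - ε * φ ε - ∫ v in ε..R, φ v) := by
      have h6 := intervalIntegral.integral_mul_deriv_eq_deriv_mul (a := ε) (b := R) (u := fun v => v)
        (u' := fun _ => (1:ℝ)) (v := φ) (v' := φ') (fun x _ => hasDerivAt_id x)
        (fun x hx => hd x (hsub hx)) intervalIntegrable_const (hc.mono hsub).intervalIntegrable
      simp only [one_mul] at h6
      rw [← h6, ← intervalIntegral.integral_const_mul]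
      refine intervalIntegral.integral_congr fun v _ => ?_
      ring
    rw [h5] at h2
    have h7 := ((hNv R hR0).mul_const (φ R)).sub h2
    have e : A * R * φ R - A * (R * φ R - ε * φ ε - ∫ v in ε..R, φ v) =
        A * (ε * φ ε + ∫ v in ε..R, φ v) := by ring
    rw [e] at h7
    refine h7.congr' ?_
    filter_upwards [eventually_gt_atTop (0:ℝ)] with T hT
    rw [mid hfin hd hc hε hR hT, sub_div]
    congr 1
    · ring
    · rw [← intervalIntegral.integral_div]
      refine intervalIntegral.integral_congr fun v _ => ?_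
      ring
  have hcmp : ∀ ε R T : ℝ, 0 < ε → ε < R → 1 ≤ R → 1 ≤ T →
      |(∑' i, ω i * φ (g i / T)) / T - (∑ i ∈ (hfin (R * T)).toFinset, ω i * φ (max (g i / T) ε)) / T| ≤
        2 * K * C * (1 / T + ε) + 8 * K * C / R := by
    intro ε R T hε hR hR1 hT
    have hT0 : 0 < T := by linarith
    have hR0 : 0 < R := by linarith
    have hRT : 1 ≤ R * T := by nlinarith
    rw [(hsplit T (R * T) hT0 hRT).tsum_eq, ← sub_div, abs_div, abs_of_pos hT0, div_le_iff₀ hT0]
    have h1 := (hsT T hT0 (R * T) hRT).2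
    have h2 : |∑ i ∈ (hfin (R * T)).toFinset, ω i * φ (g i / T) -
        ∑ i ∈ (hfin (R * T)).toFinset, ω i * φ (max (g i / T) ε)| ≤ 2 * K * NN ω g (ε * T) := by
      rw [← Finset.sum_sub_distrib]
      refine (Finset.abs_sum_le_sum_abs _ _).trans ?_
      have h3 : ∀ i ∈ (hfin (R * T)).toFinset, |ω i * φ (g i / T) - ω i * φ (max (g i / T) ε)| ≤
          2 * K * (if g i ≤ ε * T then ω i else 0) := by
        intro i _
        by_cases h : g i ≤ ε * T
        · rw [if_pos h, ← mul_sub, abs_mul, abs_of_nonneg (hω i)]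
          have h4 := hb (g i / T) (div_nonneg (hg i) hT0.le)
          have h5 := hb (max (g i / T) ε) (hε.le.trans (le_max_right _ _))
          have h6 : |φ (g i / T) - φ (max (g i / T) ε)| ≤ 2 * K :=
            (abs_sub _ _).trans (by linarith)
          calc ω i * |φ (g i / T) - φ (max (g i / T) ε)| ≤ ω i * (2 * K) :=
                mul_le_mul_of_nonneg_left h6 (hω i)
            _ = 2 * K * ω i := by ring
        · rw [if_neg h, max_eq_left, sub_self, abs_zero, mul_zero]
          rw [le_div_iff₀ hT0]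
          exact (not_le.1 h).le
      refine (Finset.sum_le_sum h3).trans ?_
      rw [← Finset.mul_sum]
      refine mul_le_mul_of_nonneg_left ?_ (by positivity)
      unfold NN
      refine (NN_summ hfin _).sum_le_tsum _ fun i _ => ?_
      split_ifs
      · exact hω i
      · exact le_rfl
    have h7 := hC (ε * T) (by positivity)
    have h8 : 2 * K * NN ω g (ε * T) ≤ 2 * K * (C * (1 + ε * T)) := mul_le_mul_of_nonneg_left h7 (by positivity)
    have h9 : |∑ i ∈ (hfin (R * T)).toFinset, ω i * φ (g i / T) +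
        (∑' i, if R * T < g i then ω i * φ (g i / T) else 0) -
        ∑ i ∈ (hfin (R * T)).toFinset, ω i * φ (max (g i / T) ε)| ≤
        2 * K * (C * (1 + ε * T)) + K * T ^ 2 * (8 * C / (R * T)) := by
      have e : ∑ i ∈ (hfin (R * T)).toFinset, ω i * φ (g i / T) +
        (∑' i, if R * T < g i then ω i * φ (g i / T) else 0) -
        ∑ i ∈ (hfin (R * T)).toFinset, ω i * φ (max (g i / T) ε) =
        (∑ i ∈ (hfin (R * T)).toFinset, ω i * φ (g i / T) -
        ∑ i ∈ (hfin (R * T)).toFinset, ω i * φ (max (g i / T) ε)) +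
        (∑' i, if R * T < g i then ω i * φ (g i / T) else 0) := by ring
      rw [e]
      exact (abs_add_le _ _).trans (add_le_add (h2.trans h8) h1)
    refine h9.trans (le_of_eq ?_)
    field_simp
  -- conclusion
  rw [Metric.tendsto_nhds]
  intro δ hδ
  obtain ⟨Q, hQ⟩ : ∃ Q : ℝ, Q = 2 * K * C + 8 * K * C + 2 * K * A + K * A + 1 := ⟨_, rfl⟩
  have hQ0 : 0 < Q := by rw [hQ]; positivity
  obtain ⟨ε, hε⟩ : ∃ ε : ℝ, ε = min (1 / 2) (δ / (4 * Q)) := ⟨_, rfl⟩
  have hε0 : 0 < ε := by rw [hε]; positivity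
  have hε1 : ε ≤ 1 / 2 := hε ▸ min_le_left _ _
  have hε2 : Q * ε ≤ δ / 4 := by
    have h1 : ε ≤ δ / (4 * Q) := hε ▸ min_le_right _ _
    calc Q * ε ≤ Q * (δ / (4 * Q)) := by gcongr
      _ = δ / 4 := by field_simp
  obtain ⟨R, hR⟩ : ∃ R : ℝ, R = 1 / ε := ⟨_, rfl⟩
  have hR2 : 2 ≤ R := by
    rw [hR, le_div_iff₀ hε0]
    linarith
  have hR0 : 0 < R := by linarith
  have hεR : ε < R := by linarith
  have hRi : 1 / R = ε := by rw [hR]; field_simp
  have h1 := Metric.tendsto_nhds.1 (hlim ε R hε0 hεR) (δ / 4) (by positivity)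
  have h2 : Tendsto (fun T : ℝ => 1 / T) atTop (𝓝 0) := by
    simpa using tendsto_inv_atTop_zero (𝕜 := ℝ)
  have h3 := h2.eventually (gt_mem_nhds (by positivity : (0:ℝ) < ε))
  filter_upwards [h1, h3, eventually_ge_atTop (1:ℝ)] with T h4 h5 h6
  have h7 := hcmp ε R T hε0 hεR (by linarith) h6
  rw [Real.dist_eq] at h4 ⊢
  -- the tails of the integral
  have hI : ∫ t in Ioi (0:ℝ), φ t = (∫ t in Ioc 0 ε, φ t) + (∫ v in ε..R, φ v) + ∫ t in Ioi R, φ t := by
    rw [intervalIntegral.integral_of_le hεR.le, ← setIntegral_union (by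
      rw [Set.disjoint_left]
      intro x hx hx'
      exact absurd hx.2 (not_le.2 hx'.1)) measurableSet_Ioc (hφ.mono_set fun x hx => hx.1)
      (hφ.mono_set fun x hx => hε0.trans hx.1), Ioc_union_Ioc_eq_Ioc hε0.le hεR.le,
      ← setIntegral_union (by
      rw [Set.disjoint_left]
      intro x hx hx'
      exact absurd hx.2 (not_le.2 hx')) measurableSet_Ioi (hφ.mono_set fun x hx => hx.1)
      (hφ.mono_set fun x hx => hR0.trans hx), Ioc_union_Ioi_eq_Ioi hR0.le]
  have hI1 : |∫ t in Ioc 0 ε, φ t| ≤ K * ε := by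
    have h8 := norm_setIntegral_le_of_norm_le_const (μ := volume) (s := Ioc 0 ε) (f := φ) (C := K)
      (by simp) (fun x hx => hb x hx.1.le)
    rw [Real.norm_eq_abs] at h8
    refine h8.trans (le_of_eq ?_)
    simp [hε0.le]
  have hI2 : |∫ t in Ioi R, φ t| ≤ K * ε := by
    rw [← Real.norm_eq_abs]
    refine (norm_integral_le_integral_norm _).trans ?_
    have h8 : ∫ t in Ioi R, ‖φ t‖ ≤ ∫ t in Ioi R, K / t ^ 2 := by
      refine setIntegral_mono_on (hφ.mono_set fun x hx => hR0.trans hx).norm (inv_sq_int hR0 K).1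
        measurableSet_Ioi (fun x hx => hb2 x (hR0.trans hx))
    refine h8.trans (le_of_eq ?_)
    rw [(inv_sq_int hR0 K).2, ← hRi]
    ring
  have hI3 : |ε * φ ε| ≤ K * ε := by
    rw [abs_mul, abs_of_pos hε0, mul_comm]
    exact mul_le_mul_of_nonneg_right (hb ε hε0.le) hε0.le
  have h9 : |A * (ε * φ ε + ∫ v in ε..R, φ v) - A * ∫ t in Ioi (0:ℝ), φ t| ≤ 3 * K * A * ε := by
    rw [hI]
    have e : A * (ε * φ ε + ∫ v in ε..R, φ v) - A * ((∫ t in Ioc 0 ε, φ t) + (∫ v in ε..R, φ v) +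
        ∫ t in Ioi R, φ t) = A * (ε * φ ε - (∫ t in Ioc 0 ε, φ t) - ∫ t in Ioi R, φ t) := by ring
    rw [e, abs_mul, abs_of_nonneg hA]
    have h10 : |ε * φ ε - (∫ t in Ioc 0 ε, φ t) - ∫ t in Ioi R, φ t| ≤ 3 * K * ε := by
      rw [abs_le] at hI1 hI2 hI3 ⊢
      constructor <;> linarith [hI1.1, hI1.2, hI2.1, hI2.2, hI3.1, hI3.2]
    calc A * |ε * φ ε - (∫ t in Ioc 0 ε, φ t) - ∫ t in Ioi R, φ t| ≤ A * (3 * K * ε) :=
          mul_le_mul_of_nonneg_left h10 hA
      _ = 3 * K * A * ε := by ring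
  have h11 : 2 * K * C * (1 / T + ε) + 8 * K * C / R + 3 * K * A * ε ≤ 2 * (Q * ε) := by
    have h12 : 8 * K * C / R = 8 * K * C * ε := by rw [← hRi]; ring
    have h13 : 2 * K * C * (1 / T + ε) ≤ 2 * K * C * (ε + ε) := by gcongr
    rw [h12, hQ]
    have p1 : 0 ≤ K * C * ε := by positivity
    have p2 : 0 ≤ K * A * ε := by positivity
    nlinarith
  have h14 := abs_sub_le ((∑' i, ω i * φ (g i / T)) / T)
    ((∑ i ∈ (hfin (R * T)).toFinset, ω i * φ (max (g i / T) ε)) / T) (A * ∫ t in Ioi (0:ℝ), φ t)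
  have h15 := abs_sub_le ((∑ i ∈ (hfin (R * T)).toFinset, ω i * φ (max (g i / T) ε)) / T)
    (A * (ε * φ ε + ∫ v in ε..R, φ v)) (A * ∫ t in Ioi (0:ℝ), φ t)
  linarith

/-! The constant `∫ (2 - 2 cos t) / t² dt = π` -/

/-- the kernel -/
noncomputable def fk (t : ℝ) : ℝ := (2 - 2 * Real.cos t) / t ^ 2

/-- its derivative -/
noncomputable def fk' (t : ℝ) : ℝ := (2 * Real.sin t * t ^ 2 - (2 - 2 * Real.cos t) * (2 * t)) / (t ^ 2) ^ 2

lemma fk_nonneg (t : ℝ) : 0 ≤ fk t := by
  unfold fk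
  have := Real.cos_le_one t
  exact div_nonneg (by linarith) (sq_nonneg t)

lemma fk_le_one (t : ℝ) : fk t ≤ 1 := by
  unfold fk
  rcases eq_or_ne t 0 with rfl | h
  · simp
  · rw [div_le_one (by positivity)]
    have := Real.one_sub_sq_div_two_le_cos (x := t)
    linarith

lemma fk_le (t : ℝ) : fk t ≤ 4 / t ^ 2 := by
  unfold fk
  have := Real.neg_one_le_cos t
  exact div_le_div_of_nonneg_right (by linarith) (sq_nonneg t)

lemma fk_deriv (x : ℝ) (hx : 0 < x) : HasDerivAt fk (fk' x) x := by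
  unfold fk fk'
  have h1 : HasDerivAt (fun t : ℝ => 2 - 2 * Real.cos t) (2 * Real.sin x) x := by
    have := ((Real.hasDerivAt_cos x).const_mul 2).const_sub 2
    simpa using this
  have h2 : HasDerivAt (fun t : ℝ => t ^ 2) (2 * x) x := by
    simpa using hasDerivAt_pow 2 x
  exact h1.div h2 (by positivity)

lemma fk'_cont : ContinuousOn fk' (Ioi 0) := by
  unfold fk'
  refine ContinuousOn.div (by fun_prop) (by fun_prop) (fun x hx => ?_)
  have : (0:ℝ) < x := hx
  positivity

lemma fk_meas : Measurable fk := by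
  unfold fk
  fun_prop

lemma fk_abs (x : ℝ) (_ : 0 ≤ x) : |fk x| ≤ 4 := by
  rw [abs_of_nonneg (fk_nonneg x)]
  linarith [fk_le_one x]

lemma fk_abs2 (x : ℝ) (_ : 0 < x) : |fk x| ≤ 4 / x ^ 2 := by
  rw [abs_of_nonneg (fk_nonneg x)]
  exact fk_le x

theorem fk_integral : ∫ t in Ioi (0:ℝ), fk t = Real.pi := by
  have hfin : ∀ T : ℝ, {n : ℕ | (n : ℝ) ≤ T}.Finite := by
    intro T
    refine (Set.finite_Iic ⌊T⌋₊).subset fun n hn => ?_
    exact Nat.le_floor hn
  have hNN : ∀ T : ℝ, 0 ≤ T → NN (fun _ : ℕ => (1:ℝ)) (fun n : ℕ => (n:ℝ)) T = ⌊T⌋₊ + 1 := by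
    intro T hT
    rw [NN_eq hfin]
    have h1 : (hfin T).toFinset = Finset.range (⌊T⌋₊ + 1) := by
      ext n
      rw [Set.Finite.mem_toFinset, Finset.mem_range, Nat.lt_succ_iff]
      exact (Nat.le_floor_iff hT).symm
    rw [h1]
    simp
  have hN : Tendsto (fun T : ℝ => NN (fun _ : ℕ => (1:ℝ)) (fun n : ℕ => (n:ℝ)) T / T) atTop (𝓝 1) := by
    have h1 := tendsto_nat_floor_div_atTop (R := ℝ)
    have h2 : Tendsto (fun T : ℝ => 1 / T) atTop (𝓝 0) := by
      simpa using tendsto_inv_atTop_zero (𝕜 := ℝ)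
    have h3 := h1.add h2
    rw [add_zero] at h3
    refine h3.congr' ?_
    filter_upwards [eventually_ge_atTop (0:ℝ)] with T hT
    rw [hNN T hT, add_div]
  have h1 := (abel (ω := fun _ : ℕ => (1:ℝ)) (g := fun n : ℕ => (n:ℝ)) (fun _ => zero_le_one)
    (fun n => Nat.cast_nonneg n) hfin hN fk_deriv fk'_cont fk_meas fk_abs fk_abs2).2
  rw [one_mul] at h1
  have h2 : Tendsto (fun T : ℝ => Real.pi - 1 / (2 * T)) atTop (𝓝 Real.pi) := by
    have h3 : Tendsto (fun T : ℝ => 1 / (2 * T)) atTop (𝓝 0) := by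
      have := (tendsto_inv_atTop_zero (𝕜 := ℝ)).const_mul (1 / 2)
      rw [mul_zero] at this
      refine this.congr fun T => ?_
      ring
    simpa using h3.const_sub Real.pi
  refine tendsto_nhds_unique h1 (h2.congr' ?_)
  filter_upwards [eventually_ge_atTop (1:ℝ)] with T hT
  have hT0 : 0 < T := by linarith
  have hπ := Real.pi_pos
  obtain ⟨x, hx⟩ : ∃ x : ℝ, x = 1 / (2 * Real.pi * T) := ⟨_, rfl⟩
  have hx0 : 0 ≤ x := by rw [hx]; positivity
  have hx1 : x ≤ 1 := by
    rw [hx, div_le_one (by positivity)]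
    have := Real.pi_gt_three
    nlinarith
  have h3 := hasSum_one_div_nat_pow_mul_cos (k := 1) one_ne_zero (x := x) ⟨hx0, hx1⟩
  have h4 := hasSum_one_div_nat_pow_mul_cos (k := 1) one_ne_zero (x := 0) ⟨le_rfl, zero_le_one⟩
  have h5 := ((h4.sub h3).mul_left (2 * T ^ 2))
  have e2 : ∀ y : ℝ, (Polynomial.map (algebraMap ℚ ℝ) (Polynomial.bernoulli (2 * 1))).eval y =
      y ^ 2 - y + 1 / 6 := by
    intro y
    rw [mul_one, Polynomial.bernoulli]
    simp [Finset.sum_range_succ, Polynomial.map_monomial,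
      Polynomial.eval_monomial, bernoulli_two, bernoulli_one, bernoulli_zero]
    ring
  rw [e2, e2] at h5
  have h6 : HasSum (fun n : ℕ => (1:ℝ) * fk ((n:ℝ) / T)) (2 * T ^ 2 * (Real.pi ^ 2 * (x - x ^ 2))) := by
    have e3 : (fun n : ℕ => (1:ℝ) * fk ((n:ℝ) / T)) = fun i : ℕ => 2 * T ^ 2 *
        (1 / (i:ℝ) ^ (2 * 1) * Real.cos (2 * Real.pi * i * 0) - 1 / (i:ℝ) ^ (2 * 1) *
          Real.cos (2 * Real.pi * i * x)) := by
      funext n
      unfold fk
      rw [mul_zero, Real.cos_zero]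
      have h7 : 2 * Real.pi * n * x = n / T := by
        rw [hx]
        field_simp
      rw [h7, mul_one, one_mul]
      rcases Nat.eq_zero_or_pos n with h0 | h0
      · rw [h0]
        simp
      · have : (0:ℝ) < n := by exact_mod_cast h0
        field_simp
        ring
    have e4 : 2 * T ^ 2 * (Real.pi ^ 2 * (x - x ^ 2)) = 2 * T ^ 2 *
        ((-1) ^ (1 + 1) * (2 * Real.pi) ^ (2 * 1) / 2 / ((2 * 1).factorial : ℕ) * (0 ^ 2 - 0 + 1 / 6) -
        (-1) ^ (1 + 1) * (2 * Real.pi) ^ (2 * 1) / 2 / ((2 * 1).factorial : ℕ) * (x ^ 2 - x + 1 / 6)) := by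
      simp only [Nat.mul_one, Nat.factorial_two]
      push_cast
      ring
    rw [e3, e4]
    exact h5
  rw [h6.tsum_eq, hx]
  field_simp

end Pool.Agent.Y763.GC
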