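import Pool.Agent.TH223.AP.A5
import Pool.Agent.Y763.GC.K3

/-! Differences of the Mertens function over proportional windows: the mean square. -/

set_option autoImplicit false

open MeasureTheory Filter Topology Set

namespace Pool.Agent.Y763.GC

open Pool.Agent.H295R2 (Mx Mx_meas ww ee GR)
open Pool.Agent.TH223.AP (mn LB ft mn_mono mn_add mn_sub mn_const_mul ft_LB)
open Pool.Agent.W120.WM (ZC NT)

/-- measurable and bounded on bounded sets -/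
structure LL (g : ℝ → ℝ) : Prop where
  meas : Measurable g
  bdd : ∀ W : ℝ, ∃ B : ℝ, ∀ v : ℝ, |v| ≤ W → |g v| ≤ B

namespace LL

variable {f g : ℝ → ℝ}

lemma lb (h : LL g) : LB g := by
  refine ⟨h.meas, fun V => ?_⟩
  obtain ⟨B, hB⟩ := h.bdd V
  exact ⟨B, fun v hv => hB v (by rw [abs_of_pos hv.1]; exact hv.2)⟩

lemma ii (h : LL g) (a b : ℝ) : IntervalIntegrable g volume a b := by
  obtain ⟨B, hB⟩ := h.bdd (max |a| |b|)
  rw [intervalIntegrable_iff]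
  refine Integrable.mono' (g := fun _ => B) (integrableOn_const (by simp [uIoc])) h.meas.aestronglyMeasurable ?_
  refine (ae_restrict_mem measurableSet_uIoc).mono fun v hv => hB v ?_
  have h1 : v ∈ uIcc a b := uIoc_subset_uIcc hv
  rw [uIcc, mem_Icc] at h1
  rw [abs_le]
  constructor
  · rcases min_choice a b with h2 | h2
    · rw [h2] at h1
      have := neg_abs_le a
      have := le_max_left |a| |b|
      linarith [h1.1]
    · rw [h2] at h1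
      have := neg_abs_le b
      have := le_max_right |a| |b|
      linarith [h1.1]
  · rcases max_choice a b with h2 | h2
    · rw [h2] at h1
      have := le_abs_self a
      have := le_max_left |a| |b|
      linarith [h1.2]
    · rw [h2] at h1
      have := le_abs_self b
      have := le_max_right |a| |b|
      linarith [h1.2]

lemma comp (h : LL g) {φ : ℝ → ℝ} (hφ : Continuous φ) : LL (fun v => φ (g v)) := by
  refine ⟨hφ.measurable.comp h.meas, fun W => ?_⟩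
  obtain ⟨B, hB⟩ := h.bdd W
  obtain ⟨C, hC⟩ := isCompact_Icc.exists_bound_of_continuousOn (hφ.continuousOn (s := Icc (-B) B))
  exact ⟨C, fun v hv => hC _ (abs_le.1 (hB v hv))⟩

lemma of_cont (hg : Continuous g) : LL g := by
  refine ⟨hg.measurable, fun W => ?_⟩
  obtain ⟨C, hC⟩ := isCompact_Icc.exists_bound_of_continuousOn (hg.continuousOn (s := Icc (-W) W))
  exact ⟨C, fun v hv => hC v (abs_le.1 hv)⟩

lemma add (hf : LL f) (hg : LL g) : LL (fun v => f v + g v) := by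
  refine ⟨hf.meas.add hg.meas, fun V => ?_⟩
  obtain ⟨B, hB⟩ := hf.bdd V
  obtain ⟨C, hC⟩ := hg.bdd V
  exact ⟨B + C, fun v hv => (abs_add_le _ _).trans (add_le_add (hB v hv) (hC v hv))⟩

lemma sub (hf : LL f) (hg : LL g) : LL (fun v => f v - g v) := by
  refine ⟨hf.meas.sub hg.meas, fun V => ?_⟩
  obtain ⟨B, hB⟩ := hf.bdd V
  obtain ⟨C, hC⟩ := hg.bdd V
  exact ⟨B + C, fun v hv => (abs_sub _ _).trans (add_le_add (hB v hv) (hC v hv))⟩

lemma sq (hf : LL f) : LL (fun v => f v ^ 2) := hf.comp (φ := fun t => t ^ 2) (by fun_prop)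

lemma const_mul (c : ℝ) (hf : LL f) : LL (fun v => c * f v) :=
  hf.comp (φ := fun t => c * t) (by fun_prop)

lemma shift (hf : LL f) (a : ℝ) : LL (fun v => f (v + a)) := by
  refine ⟨hf.meas.comp (by fun_prop), fun V => ?_⟩
  obtain ⟨B, hB⟩ := hf.bdd (V + |a|)
  exact ⟨B, fun v hv => hB _ ((abs_add_le _ _).trans (by linarith))⟩

lemma normsq (hf : LL f) {P : ℝ → ℂ} (hP : Continuous P) :
    LL (fun v => ‖((f v : ℝ) : ℂ) - P v‖ ^ 2) := by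
  simp only [Pool.Agent.TH223.AP.norm_sub_sq]
  exact ((hf.sub (LL.of_cont (Complex.continuous_re.comp hP))).sq).add
    ((LL.of_cont (Complex.continuous_im.comp hP)).sq)

end LL

lemma ft_LL : LL ft := by
  refine ⟨ft_LB.meas, fun W => ⟨Real.exp W, fun v hv => ?_⟩⟩
  have h1 := Pool.Agent.H295R2.norm_mf_le' (ρ := (1 / 2 : ℂ)) (by norm_num) (abs_le.1 hv).2
  rw [Pool.Agent.H295R2.norm_mf] at h1
  have h2 : ft v = Mx (Real.exp v) * Real.exp (-(v / 2)) := rfl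
  rw [h2, abs_mul, abs_of_pos (Real.exp_pos _)]
  have h3 : ((1 / 2 : ℂ)).re * v = v / 2 := by norm_num; ring
  rwa [h3] at h1

lemma ft_neg {v : ℝ} (hv : v < 0) : ft v = 0 := by
  have h1 := Pool.Agent.H295R2.mf_zero (ρ := (1 / 2 : ℂ)) hv
  have h2 := Pool.Agent.H295R2.norm_mf (1 / 2 : ℂ) v
  rw [h1, norm_zero] at h2
  have h3 : |Mx (Real.exp v)| = 0 := by
    rcases mul_eq_zero.1 h2.symm with h | h
    · exact h
    · exact absurd h (Real.exp_pos _).ne'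
  have h4 : ft v = Mx (Real.exp v) * Real.exp (-(v / 2)) := rfl
  rw [h4, abs_eq_zero.1 h3, zero_mul]

/-- means are invariant under shifts -/
lemma mn_shift {g : ℝ → ℝ} (hg : LL g) {l : ℝ} (h : Tendsto (mn g) atTop (𝓝 l)) (a : ℝ) :
    Tendsto (mn fun v => g (v + a)) atTop (𝓝 l) := by
  have h1 : Tendsto (fun V : ℝ => V + a) atTop atTop := tendsto_atTop_add_const_right _ _ tendsto_id
  have h2 : Tendsto (fun V : ℝ => (V + a) / V) atTop (𝓝 1) := by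
    have h3 : Tendsto (fun V : ℝ => 1 + a * V⁻¹) atTop (𝓝 (1 + a * 0)) :=
      ((tendsto_inv_atTop_zero (𝕜 := ℝ)).const_mul a).const_add 1
    rw [mul_zero, add_zero] at h3
    refine h3.congr' ?_
    filter_upwards [eventually_gt_atTop (0:ℝ)] with V hV
    field_simp
  have h3 : Tendsto (fun V : ℝ => (∫ v in (0:ℝ)..a, g v) / V) atTop (𝓝 0) := by
    have := (tendsto_inv_atTop_zero (𝕜 := ℝ)).const_mul (∫ v in (0:ℝ)..a, g v)
    rw [mul_zero] at this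
    exact this
  have h4 := ((h.comp h1).mul h2).sub h3
  rw [mul_one, sub_zero] at h4
  refine h4.congr' ?_
  filter_upwards [eventually_gt_atTop (0:ℝ), h1.eventually_gt_atTop 0] with V hV hVa
  simp only [Function.comp]
  unfold mn
  rw [intervalIntegral.integral_comp_add_right (fun v => g v) a, zero_add,
    ← intervalIntegral.integral_interval_sub_left (hg.ii 0 (V + a)) (hg.ii 0 a)]
  field_simp

/-- limits of quadratic means from approximations -/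
lemma lim_sandwich {F : ℝ → ℝ} {b : ℝ} (hb : 0 ≤ b) (h : ∀ η : ℝ, 0 < η → ∃ G R : ℝ → ℝ, ∃ x : ℝ,
    Tendsto G atTop (𝓝 x) ∧ |x - b| ≤ η ∧ (∀ᶠ V in atTop, R V ≤ η) ∧
    ∀ ε : ℝ, 0 < ε → ∀ᶠ V in atTop, F V ≤ (1 + ε) * G V + (1 + 1 / ε) * R V ∧
      G V ≤ (1 + ε) * F V + (1 + 1 / ε) * R V) : Tendsto F atTop (𝓝 b) := by
  rw [Metric.tendsto_nhds]
  intro δ hδ
  obtain ⟨ε, hε⟩ : ∃ ε : ℝ, ε = min 1 (δ / (4 * b + 20)) := ⟨_, rfl⟩
  have hε0 : 0 < ε := by rw [hε]; positivity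
  have hε1 : ε ≤ 1 := hε ▸ min_le_left _ _
  have hε2 : ε * (4 * b + 20) ≤ δ := by
    have h1 : ε ≤ δ / (4 * b + 20) := hε ▸ min_le_right _ _
    rwa [le_div_iff₀ (by linarith)] at h1
  obtain ⟨G, R, x, hG, hx, hR, hFG⟩ := h (ε ^ 2) (by positivity)
  have h1 := Metric.tendsto_nhds.1 hG (ε ^ 2) (by positivity)
  filter_upwards [h1, hR, hFG ε hε0] with V h2 h3 h4
  rw [Real.dist_eq, abs_lt] at h2 ⊢
  rw [abs_le] at hx
  obtain ⟨h5, h6⟩ := h4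
  have e1 : ε ^ 2 ≤ ε := by nlinarith
  have e2 : (1 + 1 / ε) * R V ≤ 2 * ε := by
    have h7 : (1 + 1 / ε) * R V ≤ (1 + 1 / ε) * ε ^ 2 := mul_le_mul_of_nonneg_left h3 (by positivity)
    have h8 : (1 + 1 / ε) * ε ^ 2 = ε ^ 2 + ε := by field_simp
    linarith
  have e3 : G V ≤ b + 2 * ε := by linarith [h2.2, hx.2]
  have e4 : b - 2 * ε ≤ G V := by linarith [h2.1, hx.1]
  have e5 : F V ≤ b + ε * (b + 8) := by
    have : (1 + ε) * G V ≤ (1 + ε) * (b + 2 * ε) := mul_le_mul_of_nonneg_left e3 (by linarith)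
    nlinarith
  have hF : F V ≤ 2 * b + 8 := by nlinarith
  constructor
  · have : b - 4 * ε ≤ (1 + ε) * F V := by linarith
    have h9 : ε * F V ≤ ε * (2 * b + 8) := mul_le_mul_of_nonneg_left hF hε0.le
    nlinarith
  · nlinarith

/-- mean square of an exponential polynomial -/
lemma mean_Q (Z : Finset ℂ) (hZ : ∀ ρ ∈ Z, ρ.re = 1 / 2) (c : ℂ → ℂ) :
    Tendsto (mn fun v => ‖∑ ρ ∈ Z, c ρ * ee ρ v‖ ^ 2) atTop (𝓝 (∑ ρ ∈ Z, ‖c ρ‖ ^ 2)) := by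
  classical
  have h2 : Tendsto (fun V : ℝ => ∑ ρ ∈ Z, ∑ ρ' ∈ Z, c ρ * (starRingEnd ℂ) (c ρ') * (GR (ρ - ρ') V / V))
      atTop (𝓝 (∑ ρ ∈ Z, ∑ ρ' ∈ Z, c ρ * (starRingEnd ℂ) (c ρ') * (if ρ - ρ' = 0 then 1 else 0))) := by
    refine tendsto_finsetSum _ fun ρ hρ => tendsto_finsetSum _ fun ρ' hρ' => ?_
    refine (Pool.Agent.TH223.AP.GR_lim ?_).const_mul _
    rw [Complex.sub_re, hZ ρ hρ, hZ ρ' hρ', sub_self]
  have e1 : (∑ ρ ∈ Z, ∑ ρ' ∈ Z, c ρ * (starRingEnd ℂ) (c ρ') * (if ρ - ρ' = 0 then 1 else 0)).re =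
      ∑ ρ ∈ Z, ‖c ρ‖ ^ 2 := by
    rw [Complex.re_sum]
    refine Finset.sum_congr rfl fun ρ hρ => ?_
    have e3 : ∑ ρ' ∈ Z, c ρ * (starRingEnd ℂ) (c ρ') * (if ρ - ρ' = 0 then 1 else 0) =
        c ρ * (starRingEnd ℂ) (c ρ) := by
      rw [Finset.sum_eq_single ρ]
      · simp
      · intro ρ' _ hne
        rw [if_neg (sub_ne_zero.2 (Ne.symm hne)), mul_zero]
      · exact fun h => absurd hρ h
    rw [e3, Complex.mul_conj, Complex.ofReal_re, Complex.normSq_eq_norm_sq]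
  have h3 := (Complex.continuous_re.tendsto _).comp h2
  rw [e1] at h3
  refine h3.congr' ?_
  filter_upwards [eventually_gt_atTop (0:ℝ)] with V hV
  have hV' : (V : ℂ) ≠ 0 := by exact_mod_cast hV.ne'
  simp only [Function.comp]
  have i2 : IntegrableOn (fun s : ℝ => ∑ ρ ∈ Z, ∑ ρ' ∈ Z, c ρ * (starRingEnd ℂ) (c ρ') * Complex.exp ((ρ - ρ') * s)) (Ioc 0 V) :=
    Pool.Agent.H295R2.cont_iOn (by fun_prop) V
  have h4 : (∑ ρ ∈ Z, ∑ ρ' ∈ Z, c ρ * (starRingEnd ℂ) (c ρ') * (GR (ρ - ρ') V / V)) =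
      (∑ ρ ∈ Z, ∑ ρ' ∈ Z, c ρ * (starRingEnd ℂ) (c ρ') * GR (ρ - ρ') V) / ((V : ℝ) : ℂ) := by
    rw [Finset.sum_div]
    refine Finset.sum_congr rfl fun ρ _ => ?_
    rw [Finset.sum_div]
    exact Finset.sum_congr rfl fun ρ' _ => by ring
  rw [h4, Complex.div_ofReal_re]
  unfold mn
  rw [intervalIntegral.integral_of_le hV.le]
  congr 1
  have h5 : ∑ ρ ∈ Z, ∑ ρ' ∈ Z, c ρ * (starRingEnd ℂ) (c ρ') * GR (ρ - ρ') V =
      ∫ s in Ioc 0 V, ∑ ρ ∈ Z, ∑ ρ' ∈ Z, c ρ * (starRingEnd ℂ) (c ρ') * Complex.exp ((ρ - ρ') * s) := by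
    rw [integral_finsetSum]
    · refine Finset.sum_congr rfl fun ρ _ => ?_
      rw [integral_finsetSum]
      · refine Finset.sum_congr rfl fun ρ' _ => ?_
        rw [integral_const_mul]; rfl
      · exact fun ρ' _ => Pool.Agent.H295R2.cont_iOn (by fun_prop) V
    · exact fun ρ _ => Pool.Agent.H295R2.cont_iOn (by fun_prop) V
  rw [h5]
  have h6 := integral_re i2
  simp only [RCLike.re_eq_complex_re] at h6
  rw [← h6]
  refine integral_congr_ae (Eventually.of_forall fun s => ?_)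
  simp only
  have h7 : ((‖∑ ρ ∈ Z, c ρ * ee ρ s‖ ^ 2 : ℝ) : ℂ) =
      ∑ ρ ∈ Z, ∑ ρ' ∈ Z, c ρ * (starRingEnd ℂ) (c ρ') * Complex.exp ((ρ - ρ') * s) := by
    rw [← Complex.normSq_eq_norm_sq, Complex.normSq_eq_conj_mul_self, mul_comm, map_sum,
      Finset.sum_mul_sum]
    refine Finset.sum_congr rfl fun ρ _ => Finset.sum_congr rfl fun ρ' hρ' => ?_
    rw [map_mul, ← Pool.Agent.H295R2.ee_mul (ρ := ρ) (hZ ρ' hρ') s]; ring
  rw [← h7, Complex.ofReal_re]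

/-- the normalised difference -/
noncomputable def DD (α β v : ℝ) : ℝ :=
  √β * ft (v + Real.log β) - √α * ft (v + Real.log α)

lemma DD_LL (α β : ℝ) : LL (DD α β) :=
  ((ft_LL.shift (Real.log β)).const_mul (√β)).sub ((ft_LL.shift (Real.log α)).const_mul (√α))

lemma sqrt_ft {β : ℝ} (hβ : 0 < β) (v : ℝ) :
    √β * ft (v + Real.log β) = Mx (β * Real.exp v) * Real.exp (-(v / 2)) := by
  have h4 : ft (v + Real.log β) = Mx (Real.exp (v + Real.log β)) * Real.exp (-((v + Real.log β) / 2)) := rfl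
  rw [h4, Real.exp_add, Real.exp_log hβ, mul_comm (Real.exp v) β]
  have h5 : √β = Real.exp (Real.log β / 2) := by
    rw [Real.sqrt_eq_rpow, Real.rpow_def_of_pos hβ]
    congr 1
    ring
  rw [h5]
  have h6 : Real.exp (-(v / 2)) = Real.exp (Real.log β / 2) * Real.exp (-((v + Real.log β) / 2)) := by
    rw [← Real.exp_add]
    congr 1
    ring
  rw [h6]
  ring

lemma DD_eq {α β : ℝ} (hα : 0 < α) (hβ : 0 < β) (v : ℝ) :
    DD α β v = (Mx (β * Real.exp v) - Mx (α * Real.exp v)) * Real.exp (-(v / 2)) := by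
  unfold DD
  rw [sqrt_ft hα, sqrt_ft hβ]
  ring

/-- the weights -/
noncomputable def wt (α β : ℝ) (ρ : ℂ) : ℝ := ‖(β : ℂ) ^ ρ - (α : ℂ) ^ ρ‖ ^ 2

/-- the limit -/
noncomputable def bb (α β : ℝ) : ℝ :=
  ∑' ρ : NT, wt α β ρ * (1 / ‖(ρ : ℂ) * deriv riemannZeta ρ‖ ^ 2)

lemma norm_cpow_half {β : ℝ} (hβ : 0 < β) {ρ : ℂ} (h : ρ.re = 1 / 2) : ‖(β : ℂ) ^ ρ‖ = √β := by
  rw [Complex.norm_cpow_eq_rpow_re_of_pos hβ, h, Real.sqrt_eq_rpow]

lemma wt_le {α β : ℝ} (hα : 0 < α) (hβ : 0 < β) {ρ : ℂ} (h : ρ.re = 1 / 2) :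
    wt α β ρ ≤ 2 * (α + β) := by
  unfold wt
  have h1 := norm_sub_le ((β : ℂ) ^ ρ) ((α : ℂ) ^ ρ)
  rw [norm_cpow_half hα h, norm_cpow_half hβ h] at h1
  have h2 := Real.sq_sqrt hα.le
  have h3 := Real.sq_sqrt hβ.le
  have h4 := norm_nonneg ((β : ℂ) ^ ρ - (α : ℂ) ^ ρ)
  nlinarith [sq_nonneg (√β - √α), Real.sqrt_nonneg α, Real.sqrt_nonneg β]

lemma wt_nonneg (α β : ℝ) (ρ : ℂ) : 0 ≤ wt α β ρ := sq_nonneg _

lemma bb_summ (hZ : ZC) {α β : ℝ} (hα : 0 < α) (hβ : 0 < β) :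
    Summable fun ρ : NT => wt α β ρ * (1 / ‖(ρ : ℂ) * deriv riemannZeta ρ‖ ^ 2) := by
  refine Summable.of_nonneg_of_le (fun ρ => mul_nonneg (wt_nonneg _ _ _) (by positivity)) (fun ρ => ?_)
    (hZ.2.mul_left (2 * (α + β)))
  exact mul_le_mul_of_nonneg_right (wt_le hα hβ (hZ.1 ρ ρ.2).1) (by positivity)

lemma ee_shift {β : ℝ} (hβ : 0 < β) (ρ : ℂ) (v : ℝ) :
    ((√β : ℝ) : ℂ) * ee ρ (v + Real.log β) = (β : ℂ) ^ ρ * ee ρ v := by
  unfold ee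
  have h5 : √β = Real.exp (Real.log β / 2) := by
    rw [Real.sqrt_eq_rpow, Real.rpow_def_of_pos hβ]
    congr 1
    ring
  have hβ' : (β : ℂ) ≠ 0 := by exact_mod_cast hβ.ne'
  rw [h5, Complex.cpow_def_of_ne_zero hβ', ← Complex.ofReal_log hβ.le]
  push_cast
  rw [← Complex.exp_add, ← Complex.exp_add]
  congr 1
  ring

lemma ee_cont (ρ : ℂ) : Continuous (ee ρ) := by
  unfold ee
  fun_prop

theorem lim_DD (hZ : ZC) {α β : ℝ} (hα : 0 < α) (hβ : 0 < β) :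
    Tendsto (mn fun v => DD α β v ^ 2) atTop (𝓝 (bb α β)) := by
  classical
  refine lim_sandwich (tsum_nonneg fun ρ => mul_nonneg (wt_nonneg _ _ _) (by positivity)) fun η hη => ?_
  -- choose the finite set
  obtain ⟨κ, hκ⟩ : ∃ κ : ℝ, κ = min η (η / (4 * (α + β))) := ⟨_, rfl⟩
  have hκ0 : 0 < κ := by rw [hκ]; positivity
  have t1 := Metric.tendsto_nhds.1 (bb_summ hZ hα hβ).hasSum κ hκ0
  have t2 := Metric.tendsto_nhds.1 hZ.2.hasSum κ hκ0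
  obtain ⟨u, hu1, hu2⟩ := (t1.and t2).exists
  rw [Real.dist_eq] at hu1 hu2
  obtain ⟨Z, hZu⟩ : ∃ Z : Finset ℂ, Z = u.map (Function.Embedding.subtype _) := ⟨_, rfl⟩
  have hZN : ∀ ρ ∈ Z, ρ ∈ NT := by
    intro ρ hρ
    rw [hZu, Finset.mem_map] at hρ
    obtain ⟨a, -, rfl⟩ := hρ
    exact a.2
  have hsum : ∀ F : ℂ → ℝ, ∑ ρ ∈ Z, F ρ = ∑ ρ ∈ u, F ρ := by
    intro F
    rw [hZu, Finset.sum_map]
    rfl
  have hre : ∀ ρ ∈ Z, ρ.re = 1 / 2 := fun ρ hρ => (hZ.1 ρ (hZN ρ hρ)).1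
  obtain ⟨P, hP⟩ : ∃ P : ℝ → ℂ, P = fun v => ∑ ρ ∈ Z, ww ρ * ee ρ v := ⟨_, rfl⟩
  have hPc : Continuous P := by
    rw [hP]
    exact continuous_finsetSum _ fun ρ _ => continuous_const.mul (ee_cont ρ)
  obtain ⟨c, hc⟩ : ∃ c : ℂ → ℂ, c = fun ρ => ww ρ * ((β : ℂ) ^ ρ - (α : ℂ) ^ ρ) := ⟨_, rfl⟩
  obtain ⟨Q, hQ⟩ : ∃ Q : ℝ → ℂ, Q = fun v => ∑ ρ ∈ Z, c ρ * ee ρ v := ⟨_, rfl⟩
  have hQc : Continuous Q := by
    rw [hQ]
    exact continuous_finsetSum _ fun ρ _ => continuous_const.mul (ee_cont ρ)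
  have hQP : ∀ v, Q v = ((√β : ℝ) : ℂ) * P (v + Real.log β) - ((√α : ℝ) : ℂ) * P (v + Real.log α) := by
    intro v
    rw [hQ, hP]
    simp only
    rw [Finset.mul_sum, Finset.mul_sum, ← Finset.sum_sub_distrib]
    refine Finset.sum_congr rfl fun ρ _ => ?_
    have h1 := ee_shift hβ ρ v
    have h2 := ee_shift hα ρ v
    have e : ((√β : ℝ) : ℂ) * (ww ρ * ee ρ (v + Real.log β)) - ((√α : ℝ) : ℂ) * (ww ρ * ee ρ (v + Real.log α)) =
        ww ρ * (((√β : ℝ) : ℂ) * ee ρ (v + Real.log β)) - ww ρ * (((√α : ℝ) : ℂ) * ee ρ (v + Real.log α)) := by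
      ring
    rw [e, h1, h2, hc]
    ring
  obtain ⟨g, hg⟩ : ∃ g : ℝ → ℝ, g = fun v => ‖((ft v : ℝ) : ℂ) - P v‖ ^ 2 := ⟨_, rfl⟩
  have hgL : LL g := by
    rw [hg]
    exact ft_LL.normsq hPc
  have hg1 : Tendsto (mn g) atTop (𝓝 (Pool.Agent.TH223.AP.SS - ∑ ρ ∈ Z, 1 / ‖ρ * deriv riemannZeta ρ‖ ^ 2)) := by
    rw [hg, hP]
    exact Pool.Agent.TH223.AP.dist_lim' hZ Z hZN
  have hsm : Pool.Agent.TH223.AP.SS - ∑ ρ ∈ Z, 1 / ‖ρ * deriv riemannZeta ρ‖ ^ 2 < κ := by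
    rw [hsum fun ρ => 1 / ‖ρ * deriv riemannZeta ρ‖ ^ 2]
    have := (abs_lt.1 hu2).1
    unfold Pool.Agent.TH223.AP.SS
    linarith
  have hpt : ∀ v, ‖((DD α β v : ℝ) : ℂ) - Q v‖ ^ 2 ≤
      2 * β * g (v + Real.log β) + 2 * α * g (v + Real.log α) := by
    intro v
    have e : ((DD α β v : ℝ) : ℂ) - Q v = ((√β : ℝ) : ℂ) * (((ft (v + Real.log β) : ℝ) : ℂ) - P (v + Real.log β)) -
        ((√α : ℝ) : ℂ) * (((ft (v + Real.log α) : ℝ) : ℂ) - P (v + Real.log α)) := by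
      rw [hQP]
      unfold DD
      push_cast
      ring
    rw [e, hg]
    simp only
    have h1 := norm_sub_le (((√β : ℝ) : ℂ) * (((ft (v + Real.log β) : ℝ) : ℂ) - P (v + Real.log β)))
      (((√α : ℝ) : ℂ) * (((ft (v + Real.log α) : ℝ) : ℂ) - P (v + Real.log α)))
    rw [norm_mul, norm_mul, Complex.norm_real, Complex.norm_real, Real.norm_of_nonneg (Real.sqrt_nonneg _),
      Real.norm_of_nonneg (Real.sqrt_nonneg _)] at h1
    have h2 := Real.sq_sqrt hα.le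
    have h3 := Real.sq_sqrt hβ.le
    obtain ⟨x, hx⟩ : ∃ x : ℝ, x = ‖((ft (v + Real.log β) : ℝ) : ℂ) - P (v + Real.log β)‖ := ⟨_, rfl⟩
    obtain ⟨y, hy⟩ : ∃ y : ℝ, y = ‖((ft (v + Real.log α) : ℝ) : ℂ) - P (v + Real.log α)‖ := ⟨_, rfl⟩
    rw [← hx, ← hy] at h1 ⊢
    have h4 : (√β * x + √α * y) ^ 2 ≤ 2 * β * x ^ 2 + 2 * α * y ^ 2 := by
      have h5 : 2 * β * x ^ 2 + 2 * α * y ^ 2 - (√β * x + √α * y) ^ 2 = (√β * x - √α * y) ^ 2 := by
        nlinarith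
      nlinarith [sq_nonneg (√β * x - √α * y)]
    exact (pow_le_pow_left₀ (norm_nonneg _) h1 2).trans h4
  have hDQL : LL fun v => ‖((DD α β v : ℝ) : ℂ) - Q v‖ ^ 2 := (DD_LL α β).normsq hQc
  have hQL : LL fun v => ‖Q v‖ ^ 2 := LL.of_cont (by fun_prop)
  refine ⟨mn fun v => ‖Q v‖ ^ 2, mn fun v => ‖((DD α β v : ℝ) : ℂ) - Q v‖ ^ 2,
    ∑ ρ ∈ Z, ‖c ρ‖ ^ 2, ?_, ?_, ?_, ?_⟩
  · rw [hQ]
    exact mean_Q Z hre c
  · have e1 : ∑ ρ ∈ Z, ‖c ρ‖ ^ 2 = ∑ ρ ∈ u, wt α β ρ * (1 / ‖(ρ : ℂ) * deriv riemannZeta ρ‖ ^ 2) := by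
      rw [← hsum fun ρ => wt α β ρ * (1 / ‖ρ * deriv riemannZeta ρ‖ ^ 2)]
      refine Finset.sum_congr rfl fun ρ _ => ?_
      rw [hc]
      simp only
      rw [norm_mul, mul_pow, Pool.Agent.TH223.AP.ww_sq, mul_comm]
      rfl
    rw [e1]
    exact hu1.le.trans (hκ ▸ min_le_left _ _)
  · have h1 := ((mn_shift hgL hg1 (Real.log β)).const_mul (2 * β)).add
      ((mn_shift hgL hg1 (Real.log α)).const_mul (2 * α))
    obtain ⟨s, hs⟩ : ∃ s : ℝ, s = Pool.Agent.TH223.AP.SS - ∑ ρ ∈ Z, 1 / ‖ρ * deriv riemannZeta ρ‖ ^ 2 := ⟨_, rfl⟩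
    rw [← hs] at h1 hsm
    have h2 : 2 * β * s + 2 * α * s < η := by
      have h3 : κ ≤ η / (4 * (α + β)) := hκ ▸ min_le_right _ _
      rw [le_div_iff₀ (by positivity)] at h3
      nlinarith
    filter_upwards [h1.eventually (gt_mem_nhds h2), eventually_gt_atTop (0:ℝ)] with V h4 hV
    refine le_trans ?_ h4.le
    rw [← mn_const_mul, ← mn_const_mul, ← mn_add (((hgL.shift _).const_mul _).ii _ _)
      (((hgL.shift _).const_mul _).ii _ _)]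
    exact mn_mono hV (hDQL.ii _ _) ((((hgL.shift _).const_mul _).add ((hgL.shift _).const_mul _)).ii _ _)
      (fun v _ => hpt v)
  · intro ε hε
    filter_upwards [eventually_gt_atTop (0:ℝ)] with V hV
    have key : ∀ a b : ℂ, ‖a‖ ^ 2 ≤ (1 + ε) * ‖b‖ ^ 2 + (1 + 1 / ε) * ‖a - b‖ ^ 2 := by
      intro a b
      have h1 : ‖a‖ ≤ ‖b‖ + ‖a - b‖ := by
        have := norm_add_le b (a - b)
        rwa [add_sub_cancel] at this
      obtain ⟨x, hx⟩ : ∃ x : ℝ, x = ‖b‖ := ⟨_, rfl⟩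
      obtain ⟨y, hy⟩ : ∃ y : ℝ, y = ‖a - b‖ := ⟨_, rfl⟩
      rw [← hx, ← hy] at h1 ⊢
      have h2 : (1 + ε) * x ^ 2 + (1 + 1 / ε) * y ^ 2 - (x + y) ^ 2 = (ε * x - y) ^ 2 / ε := by
        field_simp
        ring
      have h3 : 0 ≤ (ε * x - y) ^ 2 / ε := by positivity
      have h4 := pow_le_pow_left₀ (norm_nonneg a) h1 2
      linarith
    have hD2 : ∀ v, DD α β v ^ 2 = ‖((DD α β v : ℝ) : ℂ)‖ ^ 2 := by
      intro v
      rw [Complex.norm_real, Real.norm_eq_abs, sq_abs]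
    constructor
    · rw [← mn_const_mul, ← mn_const_mul, ← mn_add ((hQL.const_mul _).ii _ _) ((hDQL.const_mul _).ii _ _)]
      refine mn_mono hV ((DD_LL α β).sq.ii _ _) (((hQL.const_mul _).add (hDQL.const_mul _)).ii _ _) (fun v _ => ?_)
      rw [hD2]
      exact key _ _
    · rw [← mn_const_mul, ← mn_const_mul, ← mn_add (((DD_LL α β).sq.const_mul _).ii _ _) ((hDQL.const_mul _).ii _ _)]
      refine mn_mono hV (hQL.ii _ _) ((((DD_LL α β).sq.const_mul _).add (hDQL.const_mul _)).ii _ _) (fun v _ => ?_)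
      rw [hD2, norm_sub_rev]
      exact key _ _

end Pool.Agent.Y763.GC
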