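import Pool.Agent.Y763.GC.A

/-! The logarithmically averaged variance. -/

set_option autoImplicit false

open MeasureTheory Filter Topology Set

namespace Pool.Agent.Y763.GC

open Pool.Agent.H295R2 (Mx Mx_meas ww ee GR)
open Pool.Agent.TH223.AP (mn LB ft mn_mono mn_add mn_sub mn_const_mul ft_LB)
open Pool.Agent.W120.WM (ZC NT)

/-- `M(x;H) = ∑_{n ≥ 1, |n - x| < H/2} μ(n)` -/
noncomputable def MS (x H : ℝ) : ℝ :=
  ∑ n ∈ (Finset.range (⌈x + H⌉₊ + 1)).filter (fun n : ℕ => |(n : ℝ) - x| < H / 2),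
    ((ArithmeticFunction.moebius n : ℤ) : ℝ)

/-- `V(X;H) = (1/X) ∫_X^{2X} |M(x;H)|² dx` -/
noncomputable def VV (X H : ℝ) : ℝ := (1 / X) * ∫ x in X..2 * X, MS x H ^ 2

/-- the logarithmic average over `1 ≤ X ≤ Y` of `V(X; X/T) / (X/T)` -/
noncomputable def VL (T Y : ℝ) : ℝ := (1 / Real.log Y) * ∫ X in (1:ℝ)..Y, VV X (X / T) / (X / T) * (1 / X)

/-- the average over `u` -/
noncomputable def EE (T L : ℝ) : ℝ :=
  T * ∫ u in (1:ℝ)..2, mn (fun v => DD (u - 1 / (2 * T)) (u + 1 / (2 * T)) v ^ 2) L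

lemma Mx_eq (y : ℝ) : Mx y = ∑ n ∈ Finset.Icc 1 ⌊y⌋₊, ((ArithmeticFunction.moebius n : ℤ) : ℝ) := rfl

lemma MS_eq {x H : ℝ} (hH : 0 < H) (hx : H / 2 ≤ x) (hn : ∀ n : ℕ, x + H / 2 ≠ n) :
    MS x H = Mx (x + H / 2) - Mx (x - H / 2) := by
  have h1 : Mx (x + H / 2) - Mx (x - H / 2) =
      ∑ n ∈ Finset.Ioc ⌊x - H / 2⌋₊ ⌊x + H / 2⌋₊, ((ArithmeticFunction.moebius n : ℤ) : ℝ) := by
    rw [Mx_eq, Mx_eq]
    have h2 : ⌊x - H / 2⌋₊ ≤ ⌊x + H / 2⌋₊ := Nat.floor_mono (by linarith)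
    have h3 : Finset.Icc 1 ⌊x + H / 2⌋₊ = Finset.Icc 1 ⌊x - H / 2⌋₊ ∪ Finset.Ioc ⌊x - H / 2⌋₊ ⌊x + H / 2⌋₊ := by
      ext n
      simp only [Finset.mem_Icc, Finset.mem_union, Finset.mem_Ioc]
      omega
    rw [h3, Finset.sum_union]
    · ring
    · rw [Finset.disjoint_left]
      intro n hn1 hn2
      rw [Finset.mem_Icc] at hn1
      rw [Finset.mem_Ioc] at hn2
      omega
  rw [h1]
  unfold MS
  refine Finset.sum_congr ?_ fun _ _ => rfl
  ext n
  simp only [Finset.mem_filter, Finset.mem_range, Finset.mem_Ioc]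
  rw [Nat.floor_lt (by linarith), Nat.le_floor_iff (by linarith), abs_lt]
  constructor
  · rintro ⟨-, h2, h3⟩
    exact ⟨by linarith, by linarith⟩
  · rintro ⟨h2, h3⟩
    have h4 : (n : ℝ) ≠ x + H / 2 := fun h => hn n h.symm
    have h5 : (n : ℝ) < x + H / 2 := lt_of_le_of_ne h3 h4
    refine ⟨?_, by linarith, by linarith⟩
    rw [Nat.lt_succ_iff]
    have h6 : (n : ℝ) ≤ x + H := by linarith
    exact_mod_cast h6.trans (Nat.le_ceil _)

/-- the difference as a function of two variables -/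
noncomputable def D2 (T : ℝ) (p : ℝ × ℝ) : ℝ := DD (p.1 - 1 / (2 * T)) (p.1 + 1 / (2 * T)) p.2

lemma D2_meas (T : ℝ) : Measurable (D2 T) := by
  unfold D2 DD
  have h1 := ft_LB.meas
  have h2 : Measurable fun p : ℝ × ℝ => ft (p.2 + Real.log (p.1 + 1 / (2 * T))) :=
    h1.comp (by fun_prop)
  have h3 : Measurable fun p : ℝ × ℝ => ft (p.2 + Real.log (p.1 - 1 / (2 * T))) :=
    h1.comp (by fun_prop)
  exact ((by fun_prop : Measurable fun p : ℝ × ℝ => √(p.1 + 1 / (2 * T))).mul h2).sub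
    ((by fun_prop : Measurable fun p : ℝ × ℝ => √(p.1 - 1 / (2 * T))).mul h3)

lemma ft_bd {v W : ℝ} (hv : v ≤ W) : |ft v| ≤ Real.exp W := by
  have h1 := Pool.Agent.H295R2.norm_mf_le' (ρ := (1 / 2 : ℂ)) (by norm_num) hv
  rw [Pool.Agent.H295R2.norm_mf] at h1
  have h2 : ft v = Mx (Real.exp v) * Real.exp (-(v / 2)) := rfl
  rw [h2, abs_mul, abs_of_pos (Real.exp_pos _)]
  have h3 : ((1 / 2 : ℂ)).re * v = v / 2 := by norm_num; ring
  rwa [h3] at h1

lemma inv_T {T : ℝ} (hT : 1 ≤ T) : 0 < 1 / (2 * T) ∧ 1 / (2 * T) ≤ 1 / 2 := by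
  have h0 : 0 < T := by linarith
  refine ⟨by positivity, ?_⟩
  rw [div_le_div_iff₀ (by positivity) (by norm_num)]
  linarith

lemma DD_bd {T : ℝ} (hT : 1 ≤ T) {u : ℝ} (hu : u ∈ Icc (1:ℝ) 2) {v W : ℝ} (hv : v ≤ W) :
    |DD (u - 1 / (2 * T)) (u + 1 / (2 * T)) v| ≤ 12 * Real.exp W := by
  obtain ⟨hT1, hT2⟩ := inv_T hT
  obtain ⟨hu1, hu2⟩ := hu
  have key : ∀ β : ℝ, 0 < β → β ≤ 3 → |√β * ft (v + Real.log β)| ≤ 6 * Real.exp W := by
    intro β h0 h3
    have h4 := ft_bd (v := v + Real.log β) (W := W + Real.log β) (by linarith)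
    rw [Real.exp_add, Real.exp_log h0] at h4
    have h5 : √β ≤ 2 := by
      rw [Real.sqrt_le_left (by norm_num)]
      linarith
    rw [abs_mul, abs_of_nonneg (Real.sqrt_nonneg _)]
    calc √β * |ft (v + Real.log β)| ≤ 2 * (Real.exp W * 3) := by
          gcongr
          refine h4.trans ?_
          gcongr
      _ = 6 * Real.exp W := by ring
  unfold DD
  have h1 := key (u + 1 / (2 * T)) (by linarith) (by linarith)
  have h2 := key (u - 1 / (2 * T)) (by linarith) (by linarith)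
  refine (abs_sub _ _).trans ?_
  linarith

lemma D2_int {T : ℝ} (hT : 1 ≤ T) (L : ℝ) : Integrable (fun p : ℝ × ℝ => D2 T p ^ 2)
    ((volume.restrict (Ioc 1 2)).prod (volume.restrict (Ioc 0 L))) := by
  have hfin : IsFiniteMeasure ((volume.restrict (Ioc (1:ℝ) 2)).prod (volume.restrict (Ioc (0:ℝ) L))) :=
    inferInstance
  refine Integrable.mono' (g := fun _ => (12 * Real.exp L) ^ 2) (integrable_const _)
    ((D2_meas T).pow_const 2).aestronglyMeasurable ?_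
  rw [Measure.prod_restrict]
  refine (ae_restrict_mem (measurableSet_Ioc.prod measurableSet_Ioc)).mono fun p hp => ?_
  rw [Real.norm_eq_abs, abs_of_nonneg (sq_nonneg _), ← sq_abs]
  exact pow_le_pow_left₀ (abs_nonneg _) (DD_bd hT ⟨hp.1.1.le, hp.1.2⟩ hp.2.2) 2

lemma swap {T : ℝ} (hT : 1 ≤ T) {L : ℝ} (hL : 0 < L) :
    EE T L = (1 / L) * ∫ v in (0:ℝ)..L, T * ∫ u in (1:ℝ)..2, D2 T (u, v) ^ 2 := by
  unfold EE mn
  have h1 : ∫ u in (1:ℝ)..2, (∫ v in (0:ℝ)..L, DD (u - 1 / (2 * T)) (u + 1 / (2 * T)) v ^ 2) / L =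
      (∫ u in (1:ℝ)..2, (∫ v in (0:ℝ)..L, D2 T (u, v) ^ 2)) / L := by
    rw [← intervalIntegral.integral_div]
    rfl
  rw [h1, intervalIntegral.integral_const_mul]
  have h2 : ∫ u in (1:ℝ)..2, (∫ v in (0:ℝ)..L, D2 T (u, v) ^ 2) =
      ∫ v in (0:ℝ)..L, ∫ u in (1:ℝ)..2, D2 T (u, v) ^ 2 := by
    simp only [intervalIntegral.integral_of_le one_le_two, intervalIntegral.integral_of_le hL.le]
    exact integral_integral_swap (f := fun u v => D2 T (u, v) ^ 2) (D2_int hT L)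
  rw [h2]
  field_simp

lemma VV_eq {T X : ℝ} (hT : 1 ≤ T) (hX : 0 < X) :
    VV X (X / T) = ∫ u in (1:ℝ)..2, (Mx ((u + 1 / (2 * T)) * X) - Mx ((u - 1 / (2 * T)) * X)) ^ 2 := by
  obtain ⟨hT1, hT2⟩ := inv_T hT
  have hT0 : 0 < T := by linarith
  unfold VV
  have h1 : ∫ x in X..2 * X, MS x (X / T) ^ 2 = X * ∫ u in (1:ℝ)..2, MS (u * X) (X / T) ^ 2 := by
    have h2 := intervalIntegral.integral_comp_mul_right (a := 1) (b := 2) (fun x => MS x (X / T) ^ 2) hX.ne'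
    rw [one_mul, smul_eq_mul] at h2
    rw [h2]
    field_simp
  rw [h1, ← mul_assoc, one_div_mul_cancel hX.ne', one_mul]
  refine intervalIntegral.integral_congr_ae ?_
  have hnull : ∀ᵐ u : ℝ, u ∉ Set.range (fun n : ℕ => ((n:ℝ) - X / T / 2) / X) :=
    (Set.countable_range _).ae_notMem _
  refine hnull.mono fun u hu hu' => ?_
  rw [uIoc_of_le one_le_two] at hu'
  rw [MS_eq (by positivity)]
  · congr 3
    · field_simp
    · field_simp
  · have h3 : X / T / 2 = 1 / (2 * T) * X := by field_simp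
    rw [h3]
    have := hu'.1
    nlinarith
  · intro n hn
    refine hu ⟨n, ?_⟩
    simp only
    rw [← hn]
    field_simp
    ring

lemma VL_eq {T : ℝ} (hT : 1 ≤ T) {Y : ℝ} (hY : 1 < Y) : VL T Y = EE T (Real.log Y) := by
  have hL : 0 < Real.log Y := Real.log_pos hY
  have hT0 : 0 < T := by linarith
  obtain ⟨hT1, hT2⟩ := inv_T hT
  rw [swap hT hL]
  unfold VL
  congr 1
  obtain ⟨F, hF⟩ : ∃ F : ℝ → ℝ, F = fun X => VV X (X / T) / (X / T) * (1 / X) := ⟨_, rfl⟩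
  have h1 : ∫ X in (1:ℝ)..Y, F X = ∫ v in (0:ℝ)..Real.log Y, F (Real.exp v) * Real.exp v := by
    have hY0 : 0 < Y := by linarith
    -- change of variables on the open half line, by a monotone bijection
    have h2 := integral_image_eq_integral_abs_deriv_smul (s := Ioc (0:ℝ) (Real.log Y))
      measurableSet_Ioc (f := Real.exp) (f' := Real.exp)
      (fun x _ => (Real.hasDerivAt_exp x).hasDerivWithinAt) Real.exp_injective.injOn F
    have h3 : Real.exp '' Ioc (0:ℝ) (Real.log Y) = Ioc 1 Y := by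
      ext y
      constructor
      · rintro ⟨x, hx, rfl⟩
        refine ⟨Real.one_lt_exp_iff.2 hx.1, ?_⟩
        calc Real.exp x ≤ Real.exp (Real.log Y) := Real.exp_le_exp.2 hx.2
          _ = Y := Real.exp_log hY0
      · intro hy
        have hy0 : 0 < y := lt_trans one_pos hy.1
        exact ⟨Real.log y, ⟨Real.log_pos hy.1, Real.log_le_log hy0 hy.2⟩, Real.exp_log hy0⟩
    rw [h3] at h2
    rw [intervalIntegral.integral_of_le hY.le, intervalIntegral.integral_of_le hL.le, h2]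
    refine integral_congr_ae (Eventually.of_forall fun v => ?_)
    simp only [smul_eq_mul]
    rw [abs_of_pos (Real.exp_pos _), mul_comm]
  have h0 : ∫ X in (1:ℝ)..Y, VV X (X / T) / (X / T) * (1 / X) = ∫ X in (1:ℝ)..Y, F X := by rw [hF]
  rw [h0, h1]
  refine intervalIntegral.integral_congr fun v _ => ?_
  rw [hF]
  simp only
  have hE := Real.exp_pos v
  rw [VV_eq hT hE]
  have h4 : ∀ u ∈ uIcc (1:ℝ) 2, (Mx ((u + 1 / (2 * T)) * Real.exp v) - Mx ((u - 1 / (2 * T)) * Real.exp v)) ^ 2 =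
      Real.exp v * D2 T (u, v) ^ 2 := by
    intro u hu
    rw [uIcc_of_le one_le_two] at hu
    have e1 : D2 T (u, v) = (Mx ((u + 1 / (2 * T)) * Real.exp v) - Mx ((u - 1 / (2 * T)) * Real.exp v)) *
        Real.exp (-(v / 2)) := DD_eq (by linarith [hu.1]) (by linarith [hu.1]) v
    rw [e1, mul_pow]
    have e2 : Real.exp (-(v / 2)) ^ 2 = Real.exp (-v) := by
      rw [← Real.exp_nat_mul]
      congr 1
      push_cast
      ring
    rw [e2]
    have e3 : Real.exp v * Real.exp (-v) = 1 := by rw [← Real.exp_add]; simp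
    calc (Mx ((u + 1 / (2 * T)) * Real.exp v) - Mx ((u - 1 / (2 * T)) * Real.exp v)) ^ 2
        = (Real.exp v * Real.exp (-v)) * (Mx ((u + 1 / (2 * T)) * Real.exp v) -
          Mx ((u - 1 / (2 * T)) * Real.exp v)) ^ 2 := by rw [e3, one_mul]
      _ = _ := by ring
  rw [intervalIntegral.integral_congr h4, intervalIntegral.integral_const_mul]
  field_simp

/-! ## The limit in `Y` -/

lemma EE_bound (hZ : ZC) : ∃ C : ℝ, 0 < C ∧ ∀ T : ℝ, 1 ≤ T → ∀ u ∈ Icc (1:ℝ) 2, ∀ L : ℝ, 1 ≤ L →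
    mn (fun v => DD (u - 1 / (2 * T)) (u + 1 / (2 * T)) v ^ 2) L ≤ C := by
  obtain ⟨C, hC0, hC⟩ := (Pool.Agent.TH223.AP.ft_B20 hZ).b2.second ft_LB
  refine ⟨36 * C, by positivity, fun T hT u hu L hL => ?_⟩
  obtain ⟨hT1, hT2⟩ := inv_T hT
  obtain ⟨hu1, hu2⟩ := hu
  have hL0 : 0 < L := by linarith
  have key : ∀ β : ℝ, 0 < β → β ≤ 3 → mn (fun v => ft (v + Real.log β) ^ 2) L ≤ 3 * C := by
    intro β h0 h3
    have hlog : Real.log β ≤ 2 := (Real.log_le_sub_one_of_pos h0).trans (by linarith)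
    have h4 := hC (L + 2) (by linarith)
    unfold mn at h4 ⊢
    rw [div_le_iff₀ (by linarith)] at h4
    rw [div_le_iff₀ hL0]
    have h5 : ∫ v in (0:ℝ)..L, ft (v + Real.log β) ^ 2 ≤ ∫ v in (0:ℝ)..(L + 2), ft v ^ 2 := by
      rw [intervalIntegral.integral_comp_add_right (fun v => ft v ^ 2) (Real.log β), zero_add,
        intervalIntegral.integral_of_le (by linarith), intervalIntegral.integral_of_le (by linarith)]
      have h6 : ∫ v in Ioc (Real.log β) (L + Real.log β), ft v ^ 2 =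
          ∫ v in Ioc (Real.log β) (L + Real.log β), (Ici (0:ℝ)).indicator (fun v => ft v ^ 2) v := by
        refine integral_congr_ae (Eventually.of_forall fun (v : ℝ) => ?_)
        show ft v ^ 2 = (Ici (0:ℝ)).indicator (fun v => ft v ^ 2) v
        by_cases h : (0:ℝ) ≤ v
        · rw [indicator_of_mem (show v ∈ Ici (0:ℝ) from h)]
        · rw [indicator_of_notMem (show v ∉ Ici (0:ℝ) from h), ft_neg (not_le.1 h)]
          norm_num
      rw [h6, setIntegral_indicator measurableSet_Ici, ← integral_Icc_eq_integral_Ioc]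
      refine setIntegral_mono_set ?_ (Eventually.of_forall fun v => sq_nonneg _) ?_
      · exact (intervalIntegrable_iff_integrableOn_Icc_of_le (by linarith)).1 (ft_LL.sq.ii 0 (L + 2))
      · refine LE.le.eventuallyLE fun v hv => ?_
        exact ⟨hv.2, hv.1.2.trans (by linarith)⟩
    nlinarith
  have hLL : ∀ β : ℝ, LL fun v => ft (v + Real.log β) ^ 2 := fun β => (ft_LL.shift (Real.log β)).sq
  have h1 := key (u + 1 / (2 * T)) (by linarith) (by linarith)
  have h2 := key (u - 1 / (2 * T)) (by linarith) (by linarith)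
  have h3 : mn (fun v => DD (u - 1 / (2 * T)) (u + 1 / (2 * T)) v ^ 2) L ≤
      mn (fun v => 6 * ft (v + Real.log (u + 1 / (2 * T))) ^ 2 + 6 * ft (v + Real.log (u - 1 / (2 * T))) ^ 2) L := by
    refine mn_mono hL0 ((DD_LL _ _).sq.ii _ _) ((((hLL _).const_mul _).add ((hLL _).const_mul _)).ii _ _)
      (fun v _ => ?_)
    unfold DD
    have h4 := Real.sq_sqrt (show 0 ≤ u + 1 / (2 * T) by linarith)
    have h5 := Real.sq_sqrt (show 0 ≤ u - 1 / (2 * T) by linarith)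
    obtain ⟨x, hx⟩ : ∃ x : ℝ, x = ft (v + Real.log (u + 1 / (2 * T))) := ⟨_, rfl⟩
    obtain ⟨y, hy⟩ : ∃ y : ℝ, y = ft (v + Real.log (u - 1 / (2 * T))) := ⟨_, rfl⟩
    obtain ⟨a, ha⟩ : ∃ a : ℝ, a = √(u + 1 / (2 * T)) := ⟨_, rfl⟩
    obtain ⟨b, hb⟩ : ∃ b : ℝ, b = √(u - 1 / (2 * T)) := ⟨_, rfl⟩
    rw [← ha] at h4
    rw [← hb] at h5
    rw [← hx, ← hy, ← ha, ← hb]
    have h6 : (a * x - b * y) ^ 2 ≤ 2 * (a ^ 2 * x ^ 2) + 2 * (b ^ 2 * y ^ 2) := by
      nlinarith [sq_nonneg (a * x + b * y)]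
    have h7 : a ^ 2 * x ^ 2 ≤ 3 * x ^ 2 := by
      have : a ^ 2 ≤ 3 := by linarith
      gcongr
    have h8 : b ^ 2 * y ^ 2 ≤ 3 * y ^ 2 := by
      have : b ^ 2 ≤ 3 := by linarith
      gcongr
    linarith
  rw [mn_add (((hLL _).const_mul _).ii _ _) (((hLL _).const_mul _).ii _ _), mn_const_mul, mn_const_mul] at h3
  linarith

/-- the limit -/
noncomputable def aa (T : ℝ) : ℝ := T * ∫ u in (1:ℝ)..2, bb (u - 1 / (2 * T)) (u + 1 / (2 * T))

lemma mn_nonneg {g : ℝ → ℝ} (h : ∀ v, 0 ≤ g v) {L : ℝ} (hL : 0 < L) : 0 ≤ mn g L := by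
  unfold mn
  exact div_nonneg (intervalIntegral.integral_nonneg hL.le fun v _ => h v) hL.le

theorem EE_lim (hZ : ZC) {T : ℝ} (hT : 1 ≤ T) : Tendsto (EE T) atTop (𝓝 (aa T)) := by
  obtain ⟨C, hC0, hC⟩ := EE_bound hZ
  obtain ⟨hT1, hT2⟩ := inv_T hT
  unfold EE aa
  refine Tendsto.const_mul _ ?_
  refine intervalIntegral.tendsto_integral_filter_of_dominated_convergence (fun _ => C) ?_ ?_ ?_ ?_
  · filter_upwards [eventually_gt_atTop (0:ℝ)] with L hL
    have h1 := (D2_int hT L).integral_prod_left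
    have h2 : (fun u => mn (fun v => DD (u - 1 / (2 * T)) (u + 1 / (2 * T)) v ^ 2) L) =
        fun u => (∫ v, D2 T (u, v) ^ 2 ∂(volume.restrict (Ioc 0 L))) / L := by
      funext u
      unfold mn
      rw [intervalIntegral.integral_of_le hL.le]
      rfl
    rw [h2, uIoc_of_le one_le_two]
    exact (h1.div_const L).aestronglyMeasurable
  · filter_upwards [eventually_ge_atTop (1:ℝ)] with L hL
    refine Eventually.of_forall fun u hu => ?_
    rw [uIoc_of_le one_le_two] at hu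
    rw [Real.norm_eq_abs, abs_of_nonneg (mn_nonneg (fun v => sq_nonneg _) (by linarith))]
    exact hC T hT u ⟨hu.1.le, hu.2⟩ L hL
  · exact intervalIntegrable_const
  · refine Eventually.of_forall fun u hu => ?_
    rw [uIoc_of_le one_le_two] at hu
    exact lim_DD hZ (by linarith [hu.1]) (by linarith [hu.1])

theorem VL_lim (hZ : ZC) {T : ℝ} (hT : 1 ≤ T) : Tendsto (VL T) atTop (𝓝 (aa T)) := by
  refine ((EE_lim hZ hT).comp Real.tendsto_log_atTop).congr' ?_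
  filter_upwards [eventually_gt_atTop (1:ℝ)] with Y hY
  exact (VL_eq hT hY).symm

/-! ## Sparse boundedness -/

lemma ft_step {α β : ℝ} (hα : 0 < α) (hβ : 0 < β) (w : ℝ) :
    ft w = √(α / β) * ft (w - Real.log (β / α)) + (√β)⁻¹ * DD α β (w - Real.log β) := by
  unfold DD
  have h1 : w - Real.log β + Real.log α = w - Real.log (β / α) := by
    rw [Real.log_div hβ.ne' hα.ne']
    ring
  have h2 : √β ≠ 0 := (Real.sqrt_pos.2 hβ).ne'
  rw [sub_add_cancel, h1, Real.sqrt_div' _ hβ.le]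
  field_simp
  ring

lemma ft_rec {T : ℝ} (hT : 1 ≤ T) {u : ℝ} (hu : u ∈ Icc (1:ℝ) 2) {L : ℝ} (hL : 1 ≤ L) :
    ∫ v in (0:ℝ)..L, ft v ^ 2 ≤ (4 * T + 1) * (4 * T + 2) *
      (1300 + ∫ v in (0:ℝ)..L, DD (u - 1 / (2 * T)) (u + 1 / (2 * T)) v ^ 2) := by
  obtain ⟨hT1, hT2⟩ := inv_T hT
  obtain ⟨hu1, hu2⟩ := hu
  have hT0 : 0 < T := by linarith
  obtain ⟨α, hα⟩ : ∃ α : ℝ, α = u - 1 / (2 * T) := ⟨_, rfl⟩
  obtain ⟨β, hβ⟩ : ∃ β : ℝ, β = u + 1 / (2 * T) := ⟨_, rfl⟩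
  have hα0 : 0 < α := by rw [hα]; linarith
  have hβ1 : 1 ≤ β := by rw [hβ]; linarith
  have hβ0 : 0 < β := by linarith
  have hαβ : α < β := by rw [hα, hβ]; linarith
  obtain ⟨e, he⟩ : ∃ e : ℝ, e = 1 / (4 * T + 1) := ⟨_, rfl⟩
  have he0 : 0 < e := by rw [he]; positivity
  have he1 : (4 * T + 1) * e = 1 := by rw [he]; field_simp
  have hr : (1 + e) * (α / β) ≤ 1 - e := by
    have h1 : α / β ≤ 1 - 2 * e := by
      rw [div_le_iff₀ hβ0]
      have h2 : β - α = 1 / T := by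
        rw [hα, hβ]
        field_simp
        ring
      have h3 : 2 * e * β ≤ 1 / T := by
        have h4 : β ≤ 2 + 1 / (2 * T) := by rw [hβ]; linarith
        have h5 : 2 * e * (2 + 1 / (2 * T)) = 1 / T := by
          rw [he]
          field_simp
          ring
        calc 2 * e * β ≤ 2 * e * (2 + 1 / (2 * T)) := by gcongr
          _ = 1 / T := h5
      linarith
    nlinarith
  have hl0 : 0 < Real.log (β / α) := Real.log_pos (by rw [lt_div_iff₀ hα0]; linarith)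
  have hlb0 : 0 ≤ Real.log β := Real.log_nonneg hβ1
  have hlb1 : Real.log β ≤ 1 := by
    have h1 : β ≤ 5 / 2 := by rw [hβ]; linarith
    rw [Real.log_le_iff_le_exp hβ0]
    have := Real.exp_one_gt_d9
    linarith
  rw [← hα, ← hβ]
  have hpt : ∀ w : ℝ, ft w ^ 2 ≤ (1 - e) * ft (w - Real.log (β / α)) ^ 2 +
      (1 + 1 / e) * DD α β (w - Real.log β) ^ 2 := by
    intro w
    have h1 := ft_step hα0 hβ0 w
    obtain ⟨x, hx⟩ : ∃ x : ℝ, x = ft (w - Real.log (β / α)) := ⟨_, rfl⟩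
    obtain ⟨y, hy⟩ : ∃ y : ℝ, y = DD α β (w - Real.log β) := ⟨_, rfl⟩
    rw [← hx, ← hy] at h1 ⊢
    rw [h1]
    have h2 : (√(α / β) * x + (√β)⁻¹ * y) ^ 2 ≤ (1 + e) * (√(α / β) * x) ^ 2 + (1 + 1 / e) * ((√β)⁻¹ * y) ^ 2 := by
      have h3 : (1 + e) * (√(α / β) * x) ^ 2 + (1 + 1 / e) * ((√β)⁻¹ * y) ^ 2 -
          (√(α / β) * x + (√β)⁻¹ * y) ^ 2 = (e * (√(α / β) * x) - (√β)⁻¹ * y) ^ 2 / e := by
        field_simp
        ring
      have h4 : 0 ≤ (e * (√(α / β) * x) - (√β)⁻¹ * y) ^ 2 / e := by positivity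
      linarith
    refine h2.trans ?_
    rw [mul_pow, mul_pow, Real.sq_sqrt (by positivity), inv_pow, Real.sq_sqrt hβ0.le]
    have h5 : (1 + e) * (α / β * x ^ 2) ≤ (1 - e) * x ^ 2 := by
      calc (1 + e) * (α / β * x ^ 2) = ((1 + e) * (α / β)) * x ^ 2 := by ring
        _ ≤ (1 - e) * x ^ 2 := by gcongr
    have h6 : (1 + 1 / e) * (β⁻¹ * y ^ 2) ≤ (1 + 1 / e) * y ^ 2 := by
      have : β⁻¹ ≤ 1 := inv_le_one_of_one_le₀ hβ1
      have h7 : β⁻¹ * y ^ 2 ≤ 1 * y ^ 2 := by gcongr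
      rw [one_mul] at h7
      gcongr
    linarith
  have he2 : e ≤ 1 := by
    have : 0 < α / β := by positivity
    nlinarith
  have i1 : IntervalIntegrable (fun w => (1 - e) * ft (w - Real.log (β / α)) ^ 2) volume 0 L :=
    (((ft_LL.shift (-Real.log (β / α))).sq).const_mul _).ii 0 L
  have i2 : IntervalIntegrable (fun w => (1 + 1 / e) * DD α β (w - Real.log β) ^ 2) volume 0 L :=
    ((((DD_LL α β).shift (-Real.log β)).sq).const_mul _).ii 0 L
  have h1 : ∫ v in (0:ℝ)..L, ft v ^ 2 ≤ (1 - e) * (∫ v in (0:ℝ)..L, ft (v - Real.log (β / α)) ^ 2) +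
      (1 + 1 / e) * ∫ v in (0:ℝ)..L, DD α β (v - Real.log β) ^ 2 := by
    rw [← intervalIntegral.integral_const_mul, ← intervalIntegral.integral_const_mul,
      ← intervalIntegral.integral_add i1 i2]
    exact intervalIntegral.integral_mono_on (by linarith) (ft_LL.sq.ii 0 L) (i1.add i2) (fun v _ => hpt v)
  have h2 : ∫ v in (0:ℝ)..L, ft (v - Real.log (β / α)) ^ 2 ≤ ∫ v in (0:ℝ)..L, ft v ^ 2 := by
    rw [intervalIntegral.integral_comp_sub_right (fun v => ft v ^ 2) (Real.log (β / α)), zero_sub]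
    have h3 : ∫ v in (-Real.log (β / α))..(L - Real.log (β / α)), ft v ^ 2 =
        (∫ v in (-Real.log (β / α))..0, ft v ^ 2) + ∫ v in (0:ℝ)..(L - Real.log (β / α)), ft v ^ 2 :=
      (intervalIntegral.integral_add_adjacent_intervals (ft_LL.sq.ii _ _) (ft_LL.sq.ii _ _)).symm
    have h4 : ∫ v in (-Real.log (β / α))..0, ft v ^ 2 = 0 := by
      rw [intervalIntegral.integral_of_le (by linarith), integral_Ioc_eq_integral_Ioo]
      rw [setIntegral_congr_fun (g := fun _ => (0:ℝ)) measurableSet_Ioo]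
      · simp
      · intro v hv
        simp only
        rw [ft_neg hv.2]
        norm_num
    have h5 : (∫ v in (0:ℝ)..(L - Real.log (β / α)), ft v ^ 2) + (∫ v in (L - Real.log (β / α))..L, ft v ^ 2) =
        ∫ v in (0:ℝ)..L, ft v ^ 2 :=
      intervalIntegral.integral_add_adjacent_intervals (ft_LL.sq.ii _ _) (ft_LL.sq.ii _ _)
    have h6 : 0 ≤ ∫ v in (L - Real.log (β / α))..L, ft v ^ 2 :=
      intervalIntegral.integral_nonneg (by linarith) fun v _ => sq_nonneg _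
    linarith
  have h3 : ∫ v in (0:ℝ)..L, DD α β (v - Real.log β) ^ 2 ≤ 1300 + ∫ v in (0:ℝ)..L, DD α β v ^ 2 := by
    rw [intervalIntegral.integral_comp_sub_right (fun v => DD α β v ^ 2) (Real.log β), zero_sub]
    have h3 : ∫ v in (-Real.log β)..(L - Real.log β), DD α β v ^ 2 =
        (∫ v in (-Real.log β)..0, DD α β v ^ 2) + ∫ v in (0:ℝ)..(L - Real.log β), DD α β v ^ 2 :=
      (intervalIntegral.integral_add_adjacent_intervals ((DD_LL α β).sq.ii _ _) ((DD_LL α β).sq.ii _ _)).symm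
    have h5 : (∫ v in (0:ℝ)..(L - Real.log β), DD α β v ^ 2) + (∫ v in (L - Real.log β)..L, DD α β v ^ 2) =
        ∫ v in (0:ℝ)..L, DD α β v ^ 2 :=
      intervalIntegral.integral_add_adjacent_intervals ((DD_LL α β).sq.ii _ _) ((DD_LL α β).sq.ii _ _)
    have h6 : 0 ≤ ∫ v in (L - Real.log β)..L, DD α β v ^ 2 :=
      intervalIntegral.integral_nonneg (by linarith) fun v _ => sq_nonneg _
    have h7 : ∫ v in (-Real.log β)..0, DD α β v ^ 2 ≤ 144 := by
      have h8 : ∫ v in (-Real.log β)..0, DD α β v ^ 2 ≤ ∫ v in (-Real.log β)..0, (144:ℝ) := by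
        refine intervalIntegral.integral_mono_on (by linarith) ((DD_LL α β).sq.ii _ _)
          intervalIntegrable_const (fun v hv => ?_)
        have h9 := DD_bd hT ⟨hu1, hu2⟩ (v := v) (W := 0) hv.2
        rw [Real.exp_zero, mul_one, ← hα, ← hβ] at h9
        rw [← sq_abs]
        calc |DD α β v| ^ 2 ≤ 12 ^ 2 := pow_le_pow_left₀ (abs_nonneg _) h9 2
          _ = 144 := by norm_num
      refine h8.trans ?_
      rw [intervalIntegral.integral_const, smul_eq_mul]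
      linarith
    linarith
  have hI0 : 0 ≤ ∫ v in (0:ℝ)..L, ft v ^ 2 := intervalIntegral.integral_nonneg (by linarith) fun v _ => sq_nonneg _
  have h4 := mul_le_mul_of_nonneg_left h2 (by linarith : 0 ≤ 1 - e)
  have h5 := mul_le_mul_of_nonneg_left h3 (by positivity : 0 ≤ 1 + 1 / e)
  have h6 : e * ∫ v in (0:ℝ)..L, ft v ^ 2 ≤ (1 + 1 / e) * (1300 + ∫ v in (0:ℝ)..L, DD α β v ^ 2) := by
    linarith
  have h7 : 1 + 1 / e = 4 * T + 2 := by
    rw [he]
    field_simp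
    ring
  rw [h7] at h6
  calc ∫ v in (0:ℝ)..L, ft v ^ 2 = (4 * T + 1) * (e * ∫ v in (0:ℝ)..L, ft v ^ 2) := by
        rw [← mul_assoc, he1, one_mul]
    _ ≤ (4 * T + 1) * ((4 * T + 2) * (1300 + ∫ v in (0:ℝ)..L, DD α β v ^ 2)) := by gcongr
    _ = _ := by ring

theorem ZC_of_EE {T C : ℝ} (hT : 1 ≤ T) (h : ∃ᶠ L : ℝ in atTop, EE T L ≤ C) : ZC := by
  have hT0 : 0 < T := by linarith
  refine Pool.Agent.TH223.AP.ZC_of_freq (C := (4 * T + 1) * (4 * T + 2) * (1300 + |C|)) ?_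
  refine (h.and_eventually (eventually_ge_atTop (1:ℝ))).mono fun L hL => ?_
  obtain ⟨h1, h2⟩ := hL
  have hL0 : 0 < L := by linarith
  obtain ⟨K, hK⟩ : ∃ K : ℝ, K = (4 * T + 1) * (4 * T + 2) := ⟨_, rfl⟩
  have hK0 : 0 < K := by rw [hK]; positivity
  obtain ⟨I, hI⟩ : ∃ I : ℝ, I = ∫ v in (0:ℝ)..L, ft v ^ 2 := ⟨_, rfl⟩
  have hcont : IntervalIntegrable (fun u => ∫ v in (0:ℝ)..L, DD (u - 1 / (2 * T)) (u + 1 / (2 * T)) v ^ 2)
      volume 1 2 := by
    have h3 := (D2_int hT L).integral_prod_left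
    have h4 : (fun u => ∫ v in (0:ℝ)..L, DD (u - 1 / (2 * T)) (u + 1 / (2 * T)) v ^ 2) =
        fun u => ∫ v, D2 T (u, v) ^ 2 ∂(volume.restrict (Ioc 0 L)) := by
      funext u
      rw [intervalIntegral.integral_of_le hL0.le]
      rfl
    rw [h4, intervalIntegrable_iff_integrableOn_Ioc_of_le one_le_two]
    exact h3
  have h3 : I ≤ ∫ u in (1:ℝ)..2, K * (1300 + ∫ v in (0:ℝ)..L, DD (u - 1 / (2 * T)) (u + 1 / (2 * T)) v ^ 2) := by
    have h4 : I = ∫ u in (1:ℝ)..2, I := by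
      rw [intervalIntegral.integral_const, smul_eq_mul]
      ring
    rw [h4]
    refine intervalIntegral.integral_mono_on one_le_two intervalIntegrable_const
      ((intervalIntegrable_const.add hcont).const_mul K) (fun u hu => ?_)
    rw [hI, hK]
    exact ft_rec hT hu h2
  rw [intervalIntegral.integral_const_mul, intervalIntegral.integral_add intervalIntegrable_const hcont,
    intervalIntegral.integral_const] at h3
  have h5 : EE T L = T / L * ∫ u in (1:ℝ)..2, ∫ v in (0:ℝ)..L, DD (u - 1 / (2 * T)) (u + 1 / (2 * T)) v ^ 2 := by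
    unfold EE mn
    rw [intervalIntegral.integral_div]
    ring
  obtain ⟨J, hJ⟩ : ∃ J : ℝ, J = ∫ u in (1:ℝ)..2, ∫ v in (0:ℝ)..L,
    DD (u - 1 / (2 * T)) (u + 1 / (2 * T)) v ^ 2 := ⟨_, rfl⟩
  have hJ0 : 0 ≤ J := by
    rw [hJ]
    exact intervalIntegral.integral_nonneg one_le_two fun u _ =>
      intervalIntegral.integral_nonneg hL0.le fun v _ => sq_nonneg _
  rw [← hJ] at h3 h5
  have h6 : J ≤ |C| * L := by
    rw [h5] at h1
    have h7 : T / L * J * L ≤ C * L := mul_le_mul_of_nonneg_right h1 hL0.le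
    have h8 : T / L * J * L = T * J := by field_simp
    rw [h8] at h7
    have h9 : J ≤ T * J := by nlinarith
    have h10 : C * L ≤ |C| * L := mul_le_mul_of_nonneg_right (le_abs_self C) hL0.le
    linarith
  unfold mn
  rw [← hI, div_le_iff₀ hL0, ← hK]
  have h11 : (2 - 1 : ℝ) • (1300 : ℝ) = 1300 := by norm_num
  rw [h11] at h3
  refine h3.trans ?_
  have h12 : 1300 + J ≤ (1300 + |C|) * L := by nlinarith
  calc K * (1300 + J) ≤ K * ((1300 + |C|) * L) := by gcongr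
    _ = K * (1300 + |C|) * L := by ring

theorem ZC_of_VL {T C : ℝ} (hT : 1 ≤ T) (h : ∃ᶠ Y : ℝ in atTop, VL T Y ≤ C) : ZC := by
  refine ZC_of_EE (C := C) hT ?_
  have h1 : ∃ᶠ Y : ℝ in atTop, EE T (Real.log Y) ≤ C := by
    refine (h.and_eventually (eventually_gt_atTop (1:ℝ))).mono fun Y hY => ?_
    rw [← VL_eq hT hY.2]
    exact hY.1
  exact Real.tendsto_log_atTop.frequently h1

end Pool.Agent.Y763.GC
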