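import Pool.Agent.Y763.GC.K1
import Pool.Agent.W22.QS.Dyad

/-! De-averaging, and the Gaussian superposition identity. -/

set_option autoImplicit false

open MeasureTheory Filter Topology Set

namespace Pool.Agent.Y763.GC

/-- a monotone function with a logarithmic dyadic average -/
theorem deavg {N : ℝ → ℝ} (hm : Monotone N) (h0 : ∀ x, 0 ≤ N x) {A : ℝ}
    (h : Tendsto (fun T : ℝ => ∫ u in (1:ℝ)..2, N (u * T) / (u * T)) atTop (𝓝 A)) :
    Tendsto (fun T : ℝ => N T / T) atTop (𝓝 A) := by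
  have hA : 0 ≤ A := by
    refine ge_of_tendsto h ?_
    filter_upwards [eventually_gt_atTop (0:ℝ)] with T hT
    refine intervalIntegral.integral_nonneg one_le_two fun u hu => div_nonneg (h0 _) ?_
    have := hu.1
    positivity
  obtain ⟨q, hq⟩ : ∃ q : ℝ → ℝ, q = fun y => N y / max y 1 := ⟨_, rfl⟩
  have hq0 : ∀ y, 0 ≤ q y := fun y => by
    rw [hq]
    exact div_nonneg (h0 y) (zero_le_one.trans (le_max_right _ _))
  have hqi : ∀ a b : ℝ, IntervalIntegrable q volume a b := by
    intro a b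
    rw [hq]
    have h1 : IntervalIntegrable N volume a b := hm.intervalIntegrable
    have h2 : Continuous fun y : ℝ => (max y 1)⁻¹ := by
      refine Continuous.inv₀ (by fun_prop) fun y => ?_
      have : (1:ℝ) ≤ max y 1 := le_max_right _ _
      linarith
    exact h1.mul_continuousOn h2.continuousOn
  obtain ⟨R, hR⟩ : ∃ R : ℝ → ℝ, R = fun T => ∫ y in (0:ℝ)..(max T 0), q y := ⟨_, rfl⟩
  have hRm : Monotone R := by
    intro a b hab
    rw [hR]
    simp only
    have h1 : max a 0 ≤ max b 0 := max_le_max_right 0 hab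
    rw [← intervalIntegral.integral_add_adjacent_intervals (hqi 0 (max a 0)) (hqi (max a 0) (max b 0))]
    have h2 := intervalIntegral.integral_nonneg (μ := volume) h1 (fun y _ => hq0 y)
    linarith
  have hR0 : ∀ x, 0 ≤ R x := by
    intro x
    rw [hR]
    exact intervalIntegral.integral_nonneg (le_max_right _ _) fun y _ => hq0 y
  have hdiff : ∀ a b : ℝ, 0 ≤ a → a ≤ b → R b - R a = ∫ y in a..b, q y := by
    intro a b ha hab
    rw [hR]
    simp only
    rw [max_eq_left ha, max_eq_left (ha.trans hab),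
      ← intervalIntegral.integral_add_adjacent_intervals (hqi 0 a) (hqi a b)]
    ring
  have hdy : Tendsto (fun T : ℝ => (R T - R (T / 2)) / (T * Real.log T ^ (0:ℝ))) atTop (𝓝 (A / 2)) := by
    have h1 : Tendsto (fun T : ℝ => T / 2) atTop atTop := tendsto_id.atTop_div_const two_pos
    have h2 := (h.comp h1).div_const 2
    refine h2.congr' ?_
    filter_upwards [eventually_ge_atTop (2:ℝ)] with T hT
    simp only [Function.comp, Real.rpow_zero, mul_one]
    rw [hdiff (T / 2) T (by linarith) (by linarith)]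
    have h3 := intervalIntegral.integral_comp_mul_right (a := 1) (b := 2) q (by linarith : T / 2 ≠ 0)
    rw [one_mul, smul_eq_mul] at h3
    have h4 : 2 * (T / 2) = T := by ring
    rw [h4] at h3
    have h5 : ∫ u in (1:ℝ)..2, N (u * (T / 2)) / (u * (T / 2)) = ∫ u in (1:ℝ)..2, q (u * (T / 2)) := by
      refine intervalIntegral.integral_congr fun u hu => ?_
      rw [uIcc_of_le one_le_two] at hu
      rw [hq]
      simp only
      rw [max_eq_left]
      nlinarith [hu.1]
    rw [h5, h3]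
    field_simp
  have hRlim := Pool.Agent.W22.QS.qs_dyad A 0 le_rfl R hRm hR0 hdy
  simp only [Real.rpow_zero, mul_one] at hRlim
  have hRc : ∀ c : ℝ, 0 < c → Tendsto (fun T : ℝ => R (c * T) / T) atTop (𝓝 (A * c)) := by
    intro c hc
    refine ((hRlim.comp (tendsto_id.const_mul_atTop hc)).mul_const c).congr' ?_
    filter_upwards [eventually_gt_atTop (0:ℝ)] with T hT
    simp only [Function.comp, id]
    field_simp
  rw [Metric.tendsto_nhds]
  intro ε hε
  obtain ⟨δ, hδ⟩ : ∃ δ : ℝ, δ = min (1 / 2) (ε / (4 * (A + 1))) := ⟨_, rfl⟩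
  have hδ0 : 0 < δ := by rw [hδ]; positivity
  have hδ1 : δ ≤ 1 / 2 := hδ ▸ min_le_left _ _
  have hδ2 : A * δ ≤ ε / 4 := by
    have h1 : δ ≤ ε / (4 * (A + 1)) := hδ ▸ min_le_right _ _
    have h2 : (A + 1) * δ ≤ ε / 4 := by
      calc (A + 1) * δ ≤ (A + 1) * (ε / (4 * (A + 1))) := by gcongr
        _ = ε / 4 := by field_simp
    nlinarith
  have t1 := Metric.tendsto_nhds.1 ((hRc (1 + δ) (by linarith)).sub hRlim) (ε * δ / 8) (by positivity)
  have t2 := Metric.tendsto_nhds.1 (hRlim.sub (hRc (1 - δ) (by linarith))) (ε * δ / 8) (by positivity)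
  filter_upwards [t1, t2, eventually_ge_atTop (2:ℝ)] with T h1 h2 hT
  have hT0 : 0 < T := by linarith
  rw [Real.dist_eq, abs_lt] at h1 h2 ⊢
  have e1 : A * (1 + δ) - A = A * δ := by ring
  have e2 : A - A * (1 - δ) = A * δ := by ring
  rw [e1] at h1
  rw [e2] at h2
  -- upper
  have u1 : R ((1 + δ) * T) - R T = ∫ y in T..((1 + δ) * T), q y := hdiff T _ hT0.le (by nlinarith)
  have u2 : N T * (δ / (1 + δ)) ≤ ∫ y in T..((1 + δ) * T), q y := by
    have h3 : ∫ y in T..((1 + δ) * T), N T / ((1 + δ) * T) ≤ ∫ y in T..((1 + δ) * T), q y := by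
      refine intervalIntegral.integral_mono_on (by nlinarith) intervalIntegrable_const (hqi _ _) (fun y hy => ?_)
      rw [hq]
      simp only
      have h4 : (1:ℝ) ≤ y := by linarith [hy.1]
      rw [max_eq_left h4]
      exact div_le_div₀ (h0 y) (hm hy.1) (by linarith) hy.2
    refine le_trans (le_of_eq ?_) h3
    rw [intervalIntegral.integral_const, smul_eq_mul]
    field_simp
    ring
  -- lower
  have l1 : R T - R ((1 - δ) * T) = ∫ y in ((1 - δ) * T)..T, q y := hdiff _ T (by nlinarith) (by nlinarith)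
  have l2 : ∫ y in ((1 - δ) * T)..T, q y ≤ N T * (δ / (1 - δ)) := by
    have h3 : ∫ y in ((1 - δ) * T)..T, q y ≤ ∫ y in ((1 - δ) * T)..T, N T / ((1 - δ) * T) := by
      refine intervalIntegral.integral_mono_on (by nlinarith) (hqi _ _) intervalIntegrable_const (fun y hy => ?_)
      rw [hq]
      simp only
      have h4 : (1:ℝ) ≤ y := by nlinarith [hy.1]
      rw [max_eq_left h4]
      exact div_le_div₀ (h0 T) (hm hy.2) (by nlinarith) hy.1
    refine h3.trans (le_of_eq ?_)
    rw [intervalIntegral.integral_const, smul_eq_mul]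
    have : 1 - δ ≠ 0 := by linarith
    field_simp
    ring
  obtain ⟨x, hx⟩ : ∃ x : ℝ, x = N T / T := ⟨_, rfl⟩
  have hNT : N T = x * T := by rw [hx]; field_simp
  have hx0 : 0 ≤ x := by rw [hx]; exact div_nonneg (h0 _) hT0.le
  rw [← hx]
  have u3 : x * (δ / (1 + δ)) ≤ A * δ + ε * δ / 8 := by
    have h3 : x * (δ / (1 + δ)) * T ≤ (A * δ + ε * δ / 8) * T := by
      have h4 : R ((1 + δ) * T) / T - R T / T < A * δ + ε * δ / 8 := by linarith [h1.2]
      rw [← sub_div, div_lt_iff₀ hT0] at h4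
      calc x * (δ / (1 + δ)) * T = N T * (δ / (1 + δ)) := by rw [hNT]; ring
        _ ≤ (A * δ + ε * δ / 8) * T := by linarith
    exact le_of_mul_le_mul_right h3 hT0
  have l3 : A * δ - ε * δ / 8 ≤ x * (δ / (1 - δ)) := by
    have h3 : (A * δ - ε * δ / 8) * T ≤ x * (δ / (1 - δ)) * T := by
      have h4 : A * δ - ε * δ / 8 < R T / T - R ((1 - δ) * T) / T := by linarith [h2.1]
      rw [← sub_div, lt_div_iff₀ hT0] at h4
      calc (A * δ - ε * δ / 8) * T ≤ N T * (δ / (1 - δ)) := by linarith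
        _ = x * (δ / (1 - δ)) * T := by rw [hNT]; ring
    exact le_of_mul_le_mul_right h3 hT0
  have u4 : x ≤ (A + ε / 8) * (1 + δ) := by
    rw [mul_div_assoc', div_le_iff₀ (by linarith)] at u3
    have h5 : x * δ ≤ ((A + ε / 8) * (1 + δ)) * δ := by linarith
    exact le_of_mul_le_mul_right h5 hδ0
  have l4 : (A - ε / 8) * (1 - δ) ≤ x := by
    rw [mul_div_assoc', le_div_iff₀ (by linarith)] at l3
    have h5 : ((A - ε / 8) * (1 - δ)) * δ ≤ x * δ := by linarith
    exact le_of_mul_le_mul_right h5 hδ0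
  constructor
  · nlinarith
  · nlinarith

/-! ## The Gaussian kernel -/

/-- the Gaussian density -/
noncomputable def Gk (x : ℝ) : ℝ := Real.exp (-x ^ 2 / 4) / (2 * √Real.pi)

/-- its second derivative -/
noncomputable def Gk2 (x : ℝ) : ℝ := (x ^ 2 / 4 - 1 / 2) * Gk x

lemma Gk_cont : Continuous Gk := by
  unfold Gk
  fun_prop

lemma Gk2_cont : Continuous Gk2 := by
  unfold Gk2
  have := Gk_cont
  fun_prop

lemma Gk_deriv (x : ℝ) : HasDerivAt Gk (-(x / 2) * Gk x) x := by
  unfold Gk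
  have h1 : HasDerivAt (fun x : ℝ => -x ^ 2 / 4) (-(2 * x) / 4) x := by
    have := ((hasDerivAt_pow 2 x).neg).div_const 4
    simpa using this
  have h2 := (h1.exp).div_const (2 * √Real.pi)
  exact h2.congr_deriv (by ring)

lemma Gk1_deriv (x : ℝ) : HasDerivAt (fun x : ℝ => -(x / 2) * Gk x) (Gk2 x) x := by
  have h1 : HasDerivAt (fun x : ℝ => -(x / 2)) (-(1 / 2)) x := ((hasDerivAt_id x).div_const 2).neg
  have h2 := h1.mul (Gk_deriv x)
  exact h2.congr_deriv (by unfold Gk2; ring)

lemma Gk_pos (x : ℝ) : 0 < Gk x := by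
  unfold Gk
  have := Real.pi_pos
  positivity

lemma mom_int (n : ℕ) : Integrable fun x : ℝ => x ^ n * Real.exp (-(1 / 4) * x ^ 2) := by
  have h := integrable_rpow_mul_exp_neg_mul_sq (b := 1 / 4) (by norm_num) (s := (n:ℝ)) (by
    have : (0:ℝ) ≤ n := Nat.cast_nonneg n
    linarith)
  simp only [Real.rpow_natCast] at h
  exact h

lemma Gk_int (n : ℕ) : Integrable fun x : ℝ => x ^ n * Gk x := by
  have h := (mom_int n).div_const (2 * √Real.pi)
  refine h.congr (Eventually.of_forall fun x => ?_)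
  unfold Gk
  have : -x ^ 2 / 4 = -(1 / 4) * x ^ 2 := by ring
  simp only
  rw [this]
  ring

lemma Gk2_int (n : ℕ) : Integrable fun x : ℝ => x ^ n * Gk2 x := by
  have h := ((Gk_int (n + 2)).div_const 4).sub ((Gk_int n).div_const 2)
  refine h.congr (Eventually.of_forall fun x => ?_)
  unfold Gk2
  simp only [Pi.sub_apply]
  ring

lemma tend_of {f : ℝ → ℝ} (n : ℕ) (hf : ∀ x : ℝ, 0 < x → |f x| ≤ x ^ n) :
    Tendsto (fun x => f x * Gk x) atTop (𝓝 0) := by
  have h1 : Tendsto (fun x : ℝ => x ^ n * Real.exp (-(1 / 4) * x)) atTop (𝓝 0) := by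
    have h2 := Real.tendsto_pow_mul_exp_neg_atTop_nhds_zero n
    have h3 := (h2.comp (tendsto_id.atTop_div_const (by norm_num : (0:ℝ) < 4))).const_mul ((4:ℝ) ^ n)
    rw [mul_zero] at h3
    refine h3.congr fun x => ?_
    simp only [Function.comp, id]
    rw [div_pow]
    have : -(x / 4) = -(1 / 4) * x := by ring
    rw [this]
    field_simp
  refine squeeze_zero_norm' ?_ h1
  filter_upwards [eventually_ge_atTop (1:ℝ)] with x hx
  rw [Real.norm_eq_abs, abs_mul, abs_of_pos (Gk_pos x)]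
  refine mul_le_mul (hf x (by linarith)) ?_ (Gk_pos x).le (by positivity)
  unfold Gk
  have h4 : (1:ℝ) ≤ 2 * √Real.pi := by
    have : (1:ℝ) ≤ √Real.pi := Real.one_le_sqrt.2 (by linarith [Real.pi_gt_three])
    linarith
  refine (div_le_self (Real.exp_pos _).le h4).trans ?_
  rw [Real.exp_le_exp]
  nlinarith

/-- first moment of `Gk2` -/
lemma mom1 : ∫ x in Ioi (0:ℝ), x * Gk2 x = 1 / (2 * √Real.pi) := by
  have hd : ∀ x ∈ Ici (0:ℝ), HasDerivAt (fun x : ℝ => x * (-(x / 2) * Gk x) - Gk x) (x * Gk2 x) x := by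
    intro x _
    have h1 := ((hasDerivAt_id' x).mul (Gk1_deriv x)).sub (Gk_deriv x)
    exact h1.congr_deriv (by ring)
  have hi : IntegrableOn (fun x : ℝ => x * Gk2 x) (Ioi 0) := by
    have := (Gk2_int 1).integrableOn (s := Ioi 0)
    simpa using this
  have hl : Tendsto (fun x : ℝ => x * (-(x / 2) * Gk x) - Gk x) atTop (𝓝 0) := by
    have h1 := tend_of (f := fun x => -(x ^ 2 / 2)) 2 (fun x hx => by
      rw [abs_neg, abs_of_pos (by positivity)]
      nlinarith [sq_nonneg x])
    have h2 := tend_of (f := fun _ => 1) 0 (fun x hx => by simp)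
    have h3 := h1.sub h2
    rw [sub_zero] at h3
    refine h3.congr fun x => ?_
    ring
  have h := integral_Ioi_of_hasDerivAt_of_tendsto' hd hi hl
  rw [h]
  unfold Gk
  simp

/-- the cosine transform of the Gaussian -/
lemma gauss_cos (t : ℝ) : ∫ x : ℝ, Real.cos (t * x) * Gk x = Real.exp (-t ^ 2) := by
  have h1 := fourierIntegral_gaussian (b := (1 / 4 : ℂ)) (by norm_num) (t : ℂ)
  have hi : Integrable fun x : ℝ => Complex.exp (Complex.I * t * x) * Complex.exp (-(1 / 4 : ℂ) * x ^ 2) := by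
    have h2 := (mom_int 0).ofReal (𝕜 := ℂ)
    refine Integrable.mono' (g := fun x : ℝ => x ^ 0 * Real.exp (-(1 / 4) * x ^ 2)) (mom_int 0)
      (by fun_prop) (Eventually.of_forall fun x => ?_)
    rw [norm_mul, Complex.norm_exp, Complex.norm_exp]
    have e1 : (Complex.I * t * x : ℂ).re = 0 := by simp
    have e2 : (-(1 / 4 : ℂ) * x ^ 2).re = -(1 / 4) * x ^ 2 := by
      have : (-(1 / 4 : ℂ) * x ^ 2) = ((-(1 / 4) * x ^ 2 : ℝ) : ℂ) := by push_cast; ring
      rw [this, Complex.ofReal_re]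
    rw [e1, e2, Real.exp_zero, pow_zero]
  have h3 := congrArg Complex.re h1
  have h4 := integral_re hi
  simp only [RCLike.re_eq_complex_re] at h4
  rw [← h4] at h3
  have h5 : ∀ x : ℝ, (Complex.exp (Complex.I * t * x) * Complex.exp (-(1 / 4 : ℂ) * x ^ 2)).re =
      (2 * √Real.pi) * (Real.cos (t * x) * Gk x) := by
    intro x
    have e2 : Complex.exp (-(1 / 4 : ℂ) * x ^ 2) = ((Real.exp (-(1 / 4) * x ^ 2) : ℝ) : ℂ) := by
      push_cast
      ring_nf
    have e3 : Complex.I * t * x = ((t * x : ℝ) : ℂ) * Complex.I := by push_cast; ring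
    rw [e2, e3, Complex.re_mul_ofReal, Complex.exp_ofReal_mul_I_re]
    unfold Gk
    have : -x ^ 2 / 4 = -(1 / 4) * x ^ 2 := by ring
    rw [this]
    have hp : √Real.pi ≠ 0 := (Real.sqrt_pos.2 Real.pi_pos).ne'
    field_simp
  have h6 : ∫ x : ℝ, (Complex.exp (Complex.I * t * x) * Complex.exp (-(1 / 4 : ℂ) * x ^ 2)).re =
      (2 * √Real.pi) * ∫ x : ℝ, Real.cos (t * x) * Gk x := by
    rw [← integral_const_mul]
    exact integral_congr_ae (Eventually.of_forall h5)
  rw [h6] at h3
  have h7 : ((Real.pi / (1 / 4 : ℂ)) ^ (1 / 2 : ℂ) * Complex.exp (-(t : ℂ) ^ 2 / (4 * (1 / 4)))).re =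
      2 * √Real.pi * Real.exp (-t ^ 2) := by
    have e1 : (Real.pi / (1 / 4 : ℂ)) = ((4 * Real.pi : ℝ) : ℂ) := by push_cast; ring
    have e2 : (1 / 2 : ℂ) = ((1 / 2 : ℝ) : ℂ) := by push_cast; ring
    have e3 : Complex.exp (-(t : ℂ) ^ 2 / (4 * (1 / 4))) = ((Real.exp (-t ^ 2) : ℝ) : ℂ) := by
      push_cast
      ring_nf
    have hp := Real.pi_pos
    rw [e1, e2, e3, ← Complex.ofReal_cpow (by positivity), ← Complex.ofReal_mul, Complex.ofReal_re,
      ← Real.sqrt_eq_rpow, Real.sqrt_mul (by norm_num)]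
    have : √(4:ℝ) = 2 := by
      rw [show (4:ℝ) = 2 ^ 2 by norm_num]
      exact Real.sqrt_sq (by norm_num)
    rw [this]
  rw [h7] at h3
  have hp : 0 < 2 * √Real.pi := by
    have := Real.sqrt_pos.2 Real.pi_pos
    positivity
  exact mul_left_cancel₀ hp.ne' h3

/-- the superposition identity -/
theorem superpos (t : ℝ) : ∫ x in Ioi (0:ℝ), (2 - 2 * Real.cos (t * x)) * Gk2 x = t ^ 2 * Real.exp (-t ^ 2) := by
  have hb1 : ∀ x, |Real.cos (t * x)| ≤ 1 := fun x => Real.abs_cos_le_one _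
  have hb2 : ∀ x, |Real.sin (t * x)| ≤ 1 := fun x => Real.abs_sin_le_one _
  have i2 : Integrable fun x : ℝ => (2 - 2 * Real.cos (t * x)) * Gk2 x := by
    have h0 : Integrable Gk2 := by simpa using Gk2_int 0
    refine Integrable.mono' (g := fun x => 4 * |Gk2 x|) (h0.abs.const_mul 4) ?_ (Eventually.of_forall fun x => ?_)
    · have := Gk2_cont
      exact (by fun_prop : Continuous fun x : ℝ => (2 - 2 * Real.cos (t * x)) * Gk2 x).aestronglyMeasurable
    · rw [Real.norm_eq_abs, abs_mul]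
      refine mul_le_mul_of_nonneg_right ?_ (abs_nonneg _)
      have := hb1 x
      rw [abs_le] at this ⊢
      constructor <;> linarith [this.1, this.2]
  have i0 : Integrable fun x : ℝ => Real.cos (t * x) * Gk x := by
    have h0 : Integrable Gk := by simpa using Gk_int 0
    refine Integrable.mono' h0 ?_ (Eventually.of_forall fun x => ?_)
    · have := Gk_cont
      exact (by fun_prop : Continuous fun x : ℝ => Real.cos (t * x) * Gk x).aestronglyMeasurable
    · rw [Real.norm_eq_abs, abs_mul, abs_of_pos (Gk_pos x)]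
      have := Gk_pos x
      have := hb1 x
      nlinarith
  have hd : ∀ x ∈ Ici (0:ℝ), HasDerivAt (fun x : ℝ => (2 - 2 * Real.cos (t * x)) * (-(x / 2) * Gk x) -
      2 * t * Real.sin (t * x) * Gk x)
      ((2 - 2 * Real.cos (t * x)) * Gk2 x - 2 * t ^ 2 * (Real.cos (t * x) * Gk x)) x := by
    intro x _
    have hc : HasDerivAt (fun x : ℝ => 2 - 2 * Real.cos (t * x)) (2 * t * Real.sin (t * x)) x := by
      have h1 : HasDerivAt (fun x : ℝ => Real.cos (t * x)) (-Real.sin (t * x) * (t * 1)) x :=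
        ((hasDerivAt_id x).const_mul t).cos
      have h2 := (h1.const_mul 2).const_sub 2
      exact h2.congr_deriv (by ring)
    have hs : HasDerivAt (fun x : ℝ => 2 * t * Real.sin (t * x)) (2 * t * (Real.cos (t * x) * t)) x := by
      have h1 : HasDerivAt (fun x : ℝ => Real.sin (t * x)) (Real.cos (t * x) * (t * 1)) x :=
        ((hasDerivAt_id x).const_mul t).sin
      have h2 := h1.const_mul (2 * t)
      exact h2.congr_deriv (by ring)
    have h3 := (hc.mul (Gk1_deriv x)).sub (hs.mul (Gk_deriv x))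
    exact h3.congr_deriv (by ring)
  have hl : Tendsto (fun x : ℝ => (2 - 2 * Real.cos (t * x)) * (-(x / 2) * Gk x) -
      2 * t * Real.sin (t * x) * Gk x) atTop (𝓝 0) := by
    have h1 := (tend_of (f := fun x => (2 - 2 * Real.cos (t * x)) * (-(x / 2)) / 2) 1 (fun x hx => by
      rw [abs_div, abs_mul, abs_neg, abs_of_pos (by positivity : 0 < x / 2), abs_of_pos (by norm_num : (0:ℝ) < 2)]
      have h5 : |2 - 2 * Real.cos (t * x)| ≤ 4 := by
        have := hb1 x
        rw [abs_le] at this ⊢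
        constructor <;> linarith [this.1, this.2]
      have h6 : |2 - 2 * Real.cos (t * x)| * (x / 2) ≤ 4 * (x / 2) := by gcongr
      rw [pow_one]
      linarith)).const_mul 2
    have h2 := (tend_of (f := fun x => Real.sin (t * x)) 0 (fun x hx => by simpa using hb2 x)).const_mul (2 * t)
    have h3 := h1.sub h2
    rw [mul_zero, mul_zero, sub_zero] at h3
    refine h3.congr fun x => ?_
    ring
  have hi := (i2.sub (i0.const_mul (2 * t ^ 2))).integrableOn (s := Ioi 0)
  have h := integral_Ioi_of_hasDerivAt_of_tendsto' hd hi hl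
  have h1 : ∫ x in Ioi (0:ℝ), ((2 - 2 * Real.cos (t * x)) * Gk2 x - 2 * t ^ 2 * (Real.cos (t * x) * Gk x)) =
      (∫ x in Ioi (0:ℝ), (2 - 2 * Real.cos (t * x)) * Gk2 x) -
        2 * t ^ 2 * ∫ x in Ioi (0:ℝ), Real.cos (t * x) * Gk x := by
    rw [integral_sub i2.integrableOn (i0.const_mul (2 * t ^ 2)).integrableOn, integral_const_mul]
  rw [h1] at h
  have h2 : (2 - 2 * Real.cos (t * 0)) * (-(0 / 2) * Gk 0) - 2 * t * Real.sin (t * 0) * Gk 0 = 0 := by
    simp
  rw [h2, sub_zero] at h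
  have h3 : ∫ x : ℝ, Real.cos (t * x) * Gk x = 2 * ∫ x in Ioi (0:ℝ), Real.cos (t * x) * Gk x := by
    have h4 : ∫ x in Iic (0:ℝ), Real.cos (t * x) * Gk x = ∫ x in Ioi (0:ℝ), Real.cos (t * x) * Gk x := by
      have h5 := integral_comp_neg_Iic (0:ℝ) (fun x => Real.cos (t * x) * Gk x)
      rw [neg_zero] at h5
      rw [← h5]
      refine integral_congr_ae (Eventually.of_forall fun x => ?_)
      simp only
      unfold Gk
      rw [mul_neg, Real.cos_neg, neg_sq]
    have h5 := integral_add_compl (s := Iic (0:ℝ)) measurableSet_Iic i0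
    rw [compl_Iic, h4] at h5
    linarith
  rw [gauss_cos] at h3
  rw [h3]
  linarith

end Pool.Agent.Y763.GC
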