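import Pool.Agent.Y763.GC.B
import Pool.Agent.Y763.GC.D
import Pool.Agent.W280.WM.EF

/-! The limit in terms of the zeros. -/

set_option autoImplicit false

open MeasureTheory Filter Topology Set

namespace Pool.Agent.Y763.GC

open Pool.Agent.TH223.AP (SS)
open Pool.Agent.W120.WM (ZC NT)

/-- `1 / |ρ ζ'(ρ)|²` -/
noncomputable def cc (ρ : NT) : ℝ := 1 / ‖(ρ : ℂ) * deriv riemannZeta ρ‖ ^ 2

/-- `γ² / |ρ ζ'(ρ)|²` -/
noncomputable def om (ρ : NT) : ℝ := (ρ : ℂ).im ^ 2 * cc ρ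

/-- `|γ|` -/
noncomputable def gm (ρ : NT) : ℝ := |(ρ : ℂ).im|

/-- `∑ (2 - 2 cos (γ l)) / |ρ ζ'(ρ)|²` -/
noncomputable def BB (l : ℝ) : ℝ := ∑' ρ : NT, cc ρ * (2 - 2 * Real.cos ((ρ : ℂ).im * l))

lemma cc_nonneg (ρ : NT) : 0 ≤ cc ρ := by unfold cc; positivity

lemma om_nonneg (ρ : NT) : 0 ≤ om ρ := mul_nonneg (sq_nonneg _) (cc_nonneg ρ)

lemma gm_nonneg (ρ : NT) : 0 ≤ gm ρ := abs_nonneg _

lemma gm_fin (T : ℝ) : {ρ : NT | gm ρ ≤ T}.Finite := by
  have h := Pool.Agent.W280.WM.fin_NT T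
  refine Set.Finite.of_finite_image (f := fun ρ : NT => (ρ : ℂ)) (h.subset ?_) Subtype.val_injective.injOn
  rintro _ ⟨ρ, hρ, rfl⟩
  exact ⟨ρ.2, hρ⟩

lemma cos_bd (x : ℝ) : 0 ≤ 2 - 2 * Real.cos x ∧ 2 - 2 * Real.cos x ≤ 4 := by
  have h1 := Real.cos_le_one x
  have h2 := Real.neg_one_le_cos x
  constructor <;> linarith

lemma BB_summ (hZ : ZC) (l : ℝ) : Summable fun ρ : NT => cc ρ * (2 - 2 * Real.cos ((ρ : ℂ).im * l)) := by
  refine Summable.of_nonneg_of_le (fun ρ => mul_nonneg (cc_nonneg ρ) (cos_bd _).1) (fun ρ => ?_)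
    (hZ.2.mul_left 4)
  have h1 := (cos_bd ((ρ : ℂ).im * l)).2
  have h2 := cc_nonneg ρ
  calc cc ρ * (2 - 2 * Real.cos ((ρ : ℂ).im * l)) ≤ cc ρ * 4 := by gcongr
    _ = 4 * (1 / ‖(ρ : ℂ) * deriv riemannZeta ρ‖ ^ 2) := by unfold cc; ring

lemma BB_nonneg (l : ℝ) : 0 ≤ BB l := tsum_nonneg fun ρ => mul_nonneg (cc_nonneg ρ) (cos_bd _).1

lemma BB_le (hZ : ZC) (l : ℝ) : BB l ≤ 4 * SS := by
  have h : (4:ℝ) * SS = ∑' ρ : NT, 4 * (1 / ‖(ρ : ℂ) * deriv riemannZeta ρ‖ ^ 2) := by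
    unfold SS
    rw [tsum_mul_left]
  rw [h]
  refine (BB_summ hZ l).tsum_le_tsum (fun ρ => ?_) (hZ.2.mul_left 4)
  have h1 := (cos_bd ((ρ : ℂ).im * l)).2
  have h2 := cc_nonneg ρ
  calc cc ρ * (2 - 2 * Real.cos ((ρ : ℂ).im * l)) ≤ cc ρ * 4 := by gcongr
    _ = 4 * (1 / ‖(ρ : ℂ) * deriv riemannZeta ρ‖ ^ 2) := by unfold cc; ring

lemma BB_cont (hZ : ZC) : Continuous BB := by
  unfold BB
  refine continuous_tsum (u := fun ρ : NT => 4 * (1 / ‖(ρ : ℂ) * deriv riemannZeta ρ‖ ^ 2)) (fun ρ => by fun_prop)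
    (hZ.2.mul_left 4) (fun ρ l => ?_)
  rw [Real.norm_eq_abs, abs_of_nonneg (mul_nonneg (cc_nonneg ρ) (cos_bd _).1)]
  have h1 := (cos_bd ((ρ : ℂ).im * l)).2
  have h2 := cc_nonneg ρ
  calc cc ρ * (2 - 2 * Real.cos ((ρ : ℂ).im * l)) ≤ cc ρ * 4 := by gcongr
    _ = 4 * (1 / ‖(ρ : ℂ) * deriv riemannZeta ρ‖ ^ 2) := by unfold cc; ring

lemma BB_neg (l : ℝ) : BB (-l) = BB l := by
  unfold BB
  refine tsum_congr fun ρ => ?_
  rw [mul_neg, Real.cos_neg]

lemma cos_tri (a b : ℝ) {ε : ℝ} (hε : 0 < ε) : 2 - 2 * Real.cos a ≤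
    (1 + ε) * (2 - 2 * Real.cos b) + (1 + 1 / ε) * (2 - 2 * Real.cos (a - b)) := by
  have h1 : ∀ x : ℝ, 2 - 2 * Real.cos x = (2 * Real.sin (x / 2)) ^ 2 := by
    intro x
    have h2 := Real.cos_sq (x / 2)
    have h3 := Real.sin_sq_add_cos_sq (x / 2)
    have h4 : 2 * (x / 2) = x := by ring
    rw [h4] at h2
    nlinarith
  rw [h1 a, h1 b, h1 (a - b)]
  have h2 : a / 2 = b / 2 + (a - b) / 2 := by ring
  have h3 : |2 * Real.sin (a / 2)| ≤ |2 * Real.sin (b / 2)| + |2 * Real.sin ((a - b) / 2)| := by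
    rw [h2, Real.sin_add]
    have e : 2 * (Real.sin (b / 2) * Real.cos ((a - b) / 2) + Real.cos (b / 2) * Real.sin ((a - b) / 2)) =
        (2 * Real.sin (b / 2)) * Real.cos ((a - b) / 2) + (2 * Real.sin ((a - b) / 2)) * Real.cos (b / 2) := by ring
    rw [e]
    refine (abs_add_le _ _).trans (add_le_add ?_ ?_)
    · rw [abs_mul]
      exact mul_le_of_le_one_right (abs_nonneg _) (Real.abs_cos_le_one _)
    · rw [abs_mul]
      exact mul_le_of_le_one_right (abs_nonneg _) (Real.abs_cos_le_one _)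
  rw [← sq_abs (2 * Real.sin (a / 2)), ← sq_abs (2 * Real.sin (b / 2)), ← sq_abs (2 * Real.sin ((a - b) / 2))]
  obtain ⟨x, hx⟩ : ∃ x : ℝ, x = |2 * Real.sin (b / 2)| := ⟨_, rfl⟩
  obtain ⟨y, hy⟩ : ∃ y : ℝ, y = |2 * Real.sin ((a - b) / 2)| := ⟨_, rfl⟩
  rw [← hx, ← hy] at h3 ⊢
  have h4 := pow_le_pow_left₀ (abs_nonneg _) h3 2
  have h5 : (1 + ε) * x ^ 2 + (1 + 1 / ε) * y ^ 2 - (x + y) ^ 2 = (ε * x - y) ^ 2 / ε := by
    field_simp
    ring
  have h6 : 0 ≤ (ε * x - y) ^ 2 / ε := by positivity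
  linarith

lemma BB_tri (hZ : ZC) (a b : ℝ) {ε : ℝ} (hε : 0 < ε) :
    BB a ≤ (1 + ε) * BB b + (1 + 1 / ε) * BB (a - b) := by
  unfold BB
  rw [← tsum_mul_left, ← tsum_mul_left,
    ← ((BB_summ hZ b).mul_left (1 + ε)).tsum_add ((BB_summ hZ (a - b)).mul_left (1 + 1 / ε))]
  refine (BB_summ hZ a).tsum_le_tsum (fun ρ => ?_)
    (((BB_summ hZ b).mul_left (1 + ε)).add ((BB_summ hZ (a - b)).mul_left (1 + 1 / ε)))
  have h1 := cos_tri ((ρ : ℂ).im * a) ((ρ : ℂ).im * b) hε
  rw [← mul_sub] at h1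
  have h2 := mul_le_mul_of_nonneg_left h1 (cc_nonneg ρ)
  refine h2.trans (le_of_eq ?_)
  ring

/-- relation with the kernel `fk` -/
lemma BB_fk {l : ℝ} (hl : 0 < l) : BB l = l ^ 2 * ∑' ρ : NT, om ρ * fk (gm ρ * l) := by
  unfold BB
  rw [← tsum_mul_left]
  refine tsum_congr fun ρ => ?_
  unfold om fk gm
  by_cases h : (ρ : ℂ).im = 0
  · rw [h]
    simp
  · have h1 : Real.cos (|(ρ : ℂ).im| * l) = Real.cos ((ρ : ℂ).im * l) := by
      rw [← abs_of_pos hl, ← abs_mul, Real.cos_abs, abs_of_pos hl]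
    rw [h1, mul_pow, sq_abs]
    field_simp

lemma BB_lin (hZ : ZC) {C : ℝ} (hC : 0 < C) (hN : ∀ T : ℝ, 0 ≤ T → NN om gm T ≤ C * (1 + T)) :
    ∃ K : ℝ, 0 < K ∧ ∀ l : ℝ, BB l ≤ K * |l| := by
  have hS : 0 ≤ SS := tsum_nonneg fun ρ => by positivity
  refine ⟨34 * C + 4 * SS, by positivity, fun l => ?_⟩
  have key : ∀ l : ℝ, 0 < l → BB l ≤ (34 * C + 4 * SS) * l := by
    intro l hl
    rcases le_total 1 l with h | h
    · have := BB_le hZ l
      nlinarith
    · have hy : 1 ≤ 1 / l := by rw [le_div_iff₀ hl]; linarith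
      obtain ⟨t1, t2⟩ := tail om_nonneg gm_fin hC hN hy
      have hs1 : Summable fun ρ : NT => if gm ρ ≤ 1 / l then om ρ else 0 := NN_summ gm_fin (1 / l)
      have hpt : ∀ ρ : NT, cc ρ * (2 - 2 * Real.cos ((ρ : ℂ).im * l)) ≤
          l ^ 2 * (if gm ρ ≤ 1 / l then om ρ else 0) + 4 * (if 1 / l < gm ρ then om ρ / gm ρ ^ 2 else 0) := by
        intro ρ
        have h2 := cc_nonneg ρ
        by_cases h3 : gm ρ ≤ 1 / l
        · rw [if_pos h3, if_neg (not_lt.2 h3), mul_zero, add_zero]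
          have h4 : 2 - 2 * Real.cos ((ρ : ℂ).im * l) ≤ ((ρ : ℂ).im * l) ^ 2 := by
            have := Real.one_sub_sq_div_two_le_cos (x := (ρ : ℂ).im * l)
            linarith
          calc cc ρ * (2 - 2 * Real.cos ((ρ : ℂ).im * l)) ≤ cc ρ * ((ρ : ℂ).im * l) ^ 2 := by gcongr
            _ = l ^ 2 * om ρ := by unfold om; ring
        · have h5 : 1 / l < gm ρ := not_le.1 h3
          rw [if_neg h3, if_pos h5, mul_zero, zero_add]
          have h6 : 0 < gm ρ := lt_trans (by positivity) h5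
          have h7 : om ρ / gm ρ ^ 2 = cc ρ := by
            unfold om gm at *
            rw [sq_abs]
            have : (ρ : ℂ).im ≠ 0 := abs_pos.1 h6
            field_simp
          rw [h7]
          have h8 := (cos_bd ((ρ : ℂ).im * l)).2
          nlinarith
      have h9 : BB l ≤ l ^ 2 * NN om gm (1 / l) + 4 * ∑' ρ : NT, (if 1 / l < gm ρ then om ρ / gm ρ ^ 2 else 0) := by
        unfold BB NN
        rw [← tsum_mul_left, ← tsum_mul_left, ← (hs1.mul_left (l ^ 2)).tsum_add (t1.mul_left 4)]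
        exact (BB_summ hZ l).tsum_le_tsum hpt ((hs1.mul_left (l ^ 2)).add (t1.mul_left 4))
      have h10 := hN (1 / l) (by positivity)
      have h11 : l ^ 2 * NN om gm (1 / l) ≤ 2 * C * l := by
        calc l ^ 2 * NN om gm (1 / l) ≤ l ^ 2 * (C * (1 + 1 / l)) := by gcongr
          _ = C * (l * (l + 1)) := by field_simp
          _ ≤ C * (l * 2) := by gcongr; linarith
          _ = 2 * C * l := by ring
      have h12 : 8 * C / (1 / l) = 8 * C * l := by field_simp
      rw [h12] at t2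
      have h13 : 0 ≤ SS * l := by positivity
      linarith
  rcases lt_trichotomy l 0 with h | h | h
  · rw [← BB_neg, abs_of_neg h]
    exact key (-l) (by linarith)
  · rw [h, abs_zero, mul_zero]
    unfold BB
    simp
  · rw [abs_of_pos h]
    exact key l h

/-! ## The weights -/

lemma wt_eq {α β : ℝ} (hα : 0 < α) (hβ : 0 < β) {ρ : ℂ} (h : ρ.re = 1 / 2) :
    wt α β ρ = (√β - √α) ^ 2 + √(α * β) * (2 - 2 * Real.cos (ρ.im * Real.log (β / α))) := by
  have key : ∀ x : ℝ, 0 < x → (x : ℂ) ^ ρ = ((√x * Real.cos (ρ.im * Real.log x) : ℝ) : ℂ) +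
      ((√x * Real.sin (ρ.im * Real.log x) : ℝ) : ℂ) * Complex.I := by
    intro x hx
    have hx' : (x : ℂ) ≠ 0 := by exact_mod_cast hx.ne'
    rw [Complex.cpow_def_of_ne_zero hx', ← Complex.ofReal_log hx.le]
    have h1 : (Real.log x : ℂ) * ρ = ((Real.log x / 2 : ℝ) : ℂ) + ((ρ.im * Real.log x : ℝ) : ℂ) * Complex.I := by
      apply Complex.ext
      · simp [h]
        ring
      · simp
        ring
    rw [h1, Complex.exp_add, ← Complex.ofReal_exp, Complex.exp_mul_I]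
    have h5 : √x = Real.exp (Real.log x / 2) := by
      rw [Real.sqrt_eq_rpow, Real.rpow_def_of_pos hx]
      congr 1
      ring
    rw [← h5]
    push_cast
    ring
  unfold wt
  rw [key α hα, key β hβ, ← Complex.normSq_eq_norm_sq, Complex.normSq_apply]
  have hs1 := Real.sq_sqrt hα.le
  have hs2 := Real.sq_sqrt hβ.le
  have hcos : Real.cos (ρ.im * (Real.log β - Real.log α)) =
      Real.cos (ρ.im * Real.log β) * Real.cos (ρ.im * Real.log α) +
        Real.sin (ρ.im * Real.log β) * Real.sin (ρ.im * Real.log α) := by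
    rw [mul_sub, Real.cos_sub]
  rw [Real.sqrt_mul hα.le, Real.log_div hβ.ne' hα.ne', hcos]
  obtain ⟨a, ha⟩ : ∃ a : ℝ, a = ρ.im * Real.log α := ⟨_, rfl⟩
  obtain ⟨b, hb⟩ : ∃ b : ℝ, b = ρ.im * Real.log β := ⟨_, rfl⟩
  rw [← ha, ← hb]
  simp only [Complex.sub_re, Complex.sub_im, Complex.add_re, Complex.add_im, Complex.ofReal_re, Complex.ofReal_im,
    Complex.mul_re, Complex.mul_im, Complex.I_re, Complex.I_im]
  have h3 := Real.sin_sq_add_cos_sq a
  have h4 := Real.sin_sq_add_cos_sq b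
  obtain ⟨x, hx⟩ : ∃ x : ℝ, x = √α := ⟨_, rfl⟩
  obtain ⟨y, hy⟩ : ∃ y : ℝ, y = √β := ⟨_, rfl⟩
  rw [← hx, ← hy]
  obtain ⟨sa, hsa⟩ : ∃ z : ℝ, z = Real.sin a := ⟨_, rfl⟩
  obtain ⟨ca, hca⟩ : ∃ z : ℝ, z = Real.cos a := ⟨_, rfl⟩
  obtain ⟨sb, hsb⟩ : ∃ z : ℝ, z = Real.sin b := ⟨_, rfl⟩
  obtain ⟨cb, hcb⟩ : ∃ z : ℝ, z = Real.cos b := ⟨_, rfl⟩
  rw [← hsa, ← hca] at h3 ⊢
  rw [← hsb, ← hcb] at h4 ⊢
  linear_combination (y ^ 2) * h4 + (x ^ 2) * h3

lemma bb_eq (hZ : ZC) {α β : ℝ} (hα : 0 < α) (hβ : 0 < β) :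
    bb α β = (√β - √α) ^ 2 * SS + √(α * β) * BB (Real.log (β / α)) := by
  unfold bb SS BB
  rw [← tsum_mul_left, ← tsum_mul_left, ← (hZ.2.mul_left ((√β - √α) ^ 2)).tsum_add
    ((BB_summ hZ (Real.log (β / α))).mul_left (√(α * β)))]
  refine tsum_congr fun ρ => ?_
  rw [wt_eq hα hβ (hZ.1 ρ ρ.2).1]
  unfold cc
  ring

/-- the window -/
lemma window {T u : ℝ} (hT : 1 ≤ T) (hu : u ∈ Icc (1:ℝ) 2) :
    0 < u - 1 / (2 * T) ∧ 0 < u + 1 / (2 * T) ∧
    1 / (3 * T) ≤ Real.log ((u + 1 / (2 * T)) / (u - 1 / (2 * T))) ∧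
    Real.log ((u + 1 / (2 * T)) / (u - 1 / (2 * T))) ≤ 2 / T ∧
    |Real.log ((u + 1 / (2 * T)) / (u - 1 / (2 * T))) - 1 / (u * T)| ≤ 2 / T ^ 2 ∧
    (√(u + 1 / (2 * T)) - √(u - 1 / (2 * T))) ^ 2 ≤ 1 / T ^ 2 ∧
    1 / 2 ≤ √((u - 1 / (2 * T)) * (u + 1 / (2 * T))) ∧
    |√((u - 1 / (2 * T)) * (u + 1 / (2 * T))) - u| ≤ 1 / T ^ 2 := by
  obtain ⟨hT1, hT2⟩ := inv_T hT
  obtain ⟨hu1, hu2⟩ := hu
  have hT0 : 0 < T := by linarith
  obtain ⟨h, hh⟩ : ∃ h : ℝ, h = 1 / (2 * T) := ⟨_, rfl⟩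
  rw [← hh] at hT1 hT2 ⊢
  have hTh : 1 / T = 2 * h := by rw [hh]; field_simp
  have hT2h : 1 / T ^ 2 = 4 * h ^ 2 := by rw [hh]; field_simp; ring
  obtain ⟨α, hα⟩ : ∃ α : ℝ, α = u - h := ⟨_, rfl⟩
  obtain ⟨β, hβ⟩ : ∃ β : ℝ, β = u + h := ⟨_, rfl⟩
  rw [← hα, ← hβ]
  have hα1 : 1 / 2 ≤ α := by rw [hα]; linarith
  have hβ1 : 1 ≤ β := by rw [hβ]; linarith
  have hβ3 : β ≤ 3 := by rw [hβ]; linarith
  have hα0 : 0 < α := by linarith
  have hβ0 : 0 < β := by linarith
  have hβα : β - α = 2 * h := by rw [hα, hβ]; ring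
  have hαβ : 1 / 2 ≤ α * β := by nlinarith
  have lo : 2 * h / β ≤ Real.log (β / α) := by
    have h1 := Real.one_sub_inv_le_log_of_pos (x := β / α) (by positivity)
    refine le_trans (le_of_eq ?_) h1
    rw [← hβα]
    field_simp
  have hi : Real.log (β / α) ≤ 2 * h / α := by
    have h1 := Real.log_le_sub_one_of_pos (x := β / α) (by positivity)
    refine h1.trans (le_of_eq ?_)
    rw [← hβα]
    field_simp
  have hu0 : 0 < u := by linarith
  have huT : 1 / (u * T) = 2 * h / u := by rw [← hTh]; field_simp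
  refine ⟨hα0, hβ0, ?_, ?_, ?_, ?_, ?_, ?_⟩
  · refine le_trans ?_ lo
    have e : 1 / (3 * T) = 2 * h / 3 := by rw [← hTh]; field_simp
    rw [e]
    gcongr
  · refine hi.trans ?_
    have e : 2 / T = 4 * h := by
      have : 2 / T = 2 * (1 / T) := by ring
      rw [this, hTh]
      ring
    rw [e, div_le_iff₀ hα0]
    nlinarith
  · have e : 2 / T ^ 2 = 8 * h ^ 2 := by
      have : 2 / T ^ 2 = 2 * (1 / T ^ 2) := by ring
      rw [this, hT2h]
      ring
    rw [e, huT]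
    have k1 : 2 * h / β ≤ 2 * h / u := by
      have : u ≤ β := by rw [hβ]; linarith
      gcongr
    have k2 : 2 * h / u ≤ 2 * h / α := by
      have : α ≤ u := by rw [hα]; linarith
      gcongr
    have k3 : 2 * h / α - 2 * h / β ≤ 8 * h ^ 2 := by
      have : 2 * h / α - 2 * h / β = 4 * h ^ 2 / (α * β) := by
        field_simp
        rw [hβα]
        ring
      rw [this, div_le_iff₀ (by positivity)]
      nlinarith [sq_nonneg h]
    rw [abs_le]
    constructor <;> linarith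
  · have h1 : (√β - √α) * (√β + √α) = 2 * h := by
      have := Real.sq_sqrt hα0.le
      have := Real.sq_sqrt hβ0.le
      nlinarith
    have h2 : 1 ≤ √β + √α := by
      have : 1 ≤ √β := Real.one_le_sqrt.2 hβ1
      have := Real.sqrt_nonneg α
      linarith
    have h3 : 0 ≤ √β - √α := by
      have : √α ≤ √β := Real.sqrt_le_sqrt (by linarith)
      linarith
    have h4 : √β - √α ≤ 2 * h := by nlinarith
    rw [hT2h]
    nlinarith
  · rw [show (1:ℝ) / 2 = √((1 / 2) ^ 2) by rw [Real.sqrt_sq (by norm_num)]]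
    exact Real.sqrt_le_sqrt (by nlinarith)
  · have h1 : α * β = u ^ 2 - h ^ 2 := by rw [hα, hβ]; ring
    have h2 := Real.sq_sqrt (show 0 ≤ α * β by positivity)
    obtain ⟨s, hs⟩ : ∃ s : ℝ, s = √(α * β) := ⟨_, rfl⟩
    have hs0 : 0 ≤ s := by rw [hs]; positivity
    rw [← hs] at h2 ⊢
    have h3 : (u - s) * (u + s) = h ^ 2 := by nlinarith
    have h4 : 0 ≤ u - s := by
      by_contra hcon
      push Not at hcon
      nlinarith [sq_nonneg h, mul_pos hT1 hT1]
    have h5 : u - s ≤ h ^ 2 := by nlinarith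
    rw [abs_sub_comm, abs_of_nonneg h4, hT2h]
    nlinarith [sq_nonneg h]

lemma bb_contOn (hZ : ZC) {T : ℝ} (hT : 1 ≤ T) :
    ContinuousOn (fun u : ℝ => bb (u - 1 / (2 * T)) (u + 1 / (2 * T))) (Icc 1 2) := by
  have h1 : ContinuousOn (fun u : ℝ => (√(u + 1 / (2 * T)) - √(u - 1 / (2 * T))) ^ 2 * SS +
      √((u - 1 / (2 * T)) * (u + 1 / (2 * T))) * BB (Real.log ((u + 1 / (2 * T)) / (u - 1 / (2 * T))))) (Icc 1 2) := by
    have hB := BB_cont hZ
    have h2 : ContinuousOn (fun u : ℝ => Real.log ((u + 1 / (2 * T)) / (u - 1 / (2 * T)))) (Icc 1 2) := by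
      refine ContinuousOn.log (ContinuousOn.div (by fun_prop) (by fun_prop) ?_) ?_
      · intro u hu
        exact (window hT hu).1.ne'
      · intro u hu
        obtain ⟨a, b, -⟩ := window hT hu
        positivity
    exact (by fun_prop : ContinuousOn (fun u : ℝ => (√(u + 1 / (2 * T)) - √(u - 1 / (2 * T))) ^ 2 * SS) (Icc 1 2)).add
      ((by fun_prop : ContinuousOn (fun u : ℝ => √((u - 1 / (2 * T)) * (u + 1 / (2 * T)))) (Icc 1 2)).mul
        (hB.comp_continuousOn h2))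
  refine h1.congr fun u hu => ?_
  obtain ⟨a, b, -⟩ := window hT hu
  exact bb_eq hZ a b

/-- the comparison function -/
noncomputable def WW (T : ℝ) : ℝ := ∫ u in (1:ℝ)..2, u * T * BB (1 / (u * T))

lemma aa_sub_WW (hZ : ZC) {K : ℝ} (hK : 0 < K) (hB : ∀ l : ℝ, BB l ≤ K * |l|) :
    Tendsto (fun T : ℝ => aa T - WW T) atTop (𝓝 0) := by
  have hS : 0 ≤ SS := tsum_nonneg fun ρ => by positivity
  rw [Metric.tendsto_nhds]
  intro η hη
  obtain ⟨e, he⟩ : ∃ e : ℝ, e = η / (16 * K) := ⟨_, rfl⟩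
  have he0 : 0 < e := by rw [he]; positivity
  obtain ⟨Q, hQ⟩ : ∃ Q : ℝ, Q = 5 * SS + 4 * K * (1 + 1 / e) := ⟨_, rfl⟩
  have hQ0 : 0 < Q := by rw [hQ]; positivity
  filter_upwards [eventually_ge_atTop (1:ℝ), eventually_gt_atTop (4 * Q / η)] with T hT hTQ
  have hT0 : 0 < T := by linarith
  have hQT : Q / T < η / 4 := by
    rw [div_lt_iff₀ hη] at hTQ
    rw [div_lt_iff₀ hT0]
    linarith
  have hpt : ∀ u ∈ Icc (1:ℝ) 2, |T * bb (u - 1 / (2 * T)) (u + 1 / (2 * T)) - u * T * BB (1 / (u * T))| ≤ η / 2 := by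
    intro u hu
    obtain ⟨w1, w2, w3, w4, w5, w6, w7, w8⟩ := window hT hu
    rw [bb_eq hZ w1 w2]
    obtain ⟨l, hl⟩ : ∃ l : ℝ, l = Real.log ((u + 1 / (2 * T)) / (u - 1 / (2 * T))) := ⟨_, rfl⟩
    obtain ⟨m, hm⟩ : ∃ m : ℝ, m = 1 / (u * T) := ⟨_, rfl⟩
    obtain ⟨s, hs⟩ : ∃ s : ℝ, s = √((u - 1 / (2 * T)) * (u + 1 / (2 * T))) := ⟨_, rfl⟩
    obtain ⟨d, hd⟩ : ∃ d : ℝ, d = (√(u + 1 / (2 * T)) - √(u - 1 / (2 * T))) ^ 2 := ⟨_, rfl⟩
    rw [← hl] at w3 w4 w5
    rw [← hm] at w5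
    rw [← hs] at w7 w8
    rw [← hd] at w6
    rw [← hl, ← hm, ← hs, ← hd]
    have hu0 : 0 < u := by linarith [hu.1]
    have hd0 : 0 ≤ d := by rw [hd]; exact sq_nonneg _
    have hl0 : 0 < l := lt_of_lt_of_le (by positivity) w3
    have hm0 : 0 < m := by rw [hm]; positivity
    have b1 : |T * (d * SS)| ≤ SS / T := by
      rw [abs_of_nonneg (by positivity)]
      calc T * (d * SS) ≤ T * (1 / T ^ 2 * SS) := by gcongr
        _ = SS / T := by field_simp
    have b2 : |T * ((s - u) * BB l)| ≤ 4 * SS / T := by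
      rw [abs_mul, abs_mul, abs_of_pos hT0, abs_of_nonneg (BB_nonneg l)]
      calc T * (|s - u| * BB l) ≤ T * (1 / T ^ 2 * (4 * SS)) := by
            have := BB_le hZ l
            have := BB_nonneg l
            gcongr
        _ = 4 * SS / T := by field_simp
    have b3 : |T * (u * (BB l - BB m))| ≤ η / 4 + 4 * K * (1 + 1 / e) / T := by
      have c1 := BB_tri hZ l m he0
      have c2 := BB_tri hZ m l he0
      have c3 : BB (m - l) = BB (l - m) := by rw [← BB_neg]; ring_nf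
      rw [c3] at c2
      have c4 : BB (l - m) ≤ K * (2 / T ^ 2) := (hB _).trans (by gcongr)
      have c5 : BB l ≤ K * (2 / T) := by
        refine (hB l).trans ?_
        rw [abs_of_pos hl0]
        gcongr
      have c6 : BB m ≤ K * (2 / T) := by
        refine (hB m).trans ?_
        rw [abs_of_pos hm0, hm]
        have : 1 / (u * T) ≤ 2 / T := by
          rw [div_le_div_iff₀ (by positivity) hT0]
          nlinarith [hu.1]
        gcongr
      have c7 : |BB l - BB m| ≤ e * (K * (2 / T)) + (1 + 1 / e) * (K * (2 / T ^ 2)) := by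
        have c8 : (1 + 1 / e) * BB (l - m) ≤ (1 + 1 / e) * (K * (2 / T ^ 2)) := by gcongr
        have c9 : e * BB l ≤ e * (K * (2 / T)) := by gcongr
        have c10 : e * BB m ≤ e * (K * (2 / T)) := by gcongr
        rw [abs_le]
        constructor <;> linarith
      rw [abs_mul, abs_mul, abs_of_pos hT0, abs_of_pos hu0]
      calc T * (u * |BB l - BB m|) ≤ T * (2 * (e * (K * (2 / T)) + (1 + 1 / e) * (K * (2 / T ^ 2)))) := by
            have := hu.2
            gcongr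
        _ = 4 * K * e + 4 * K * (1 + 1 / e) / T := by field_simp; ring
        _ = η / 4 + 4 * K * (1 + 1 / e) / T := by
            congr 1
            rw [he]
            field_simp
            norm_num
    have e1 : T * (d * SS + s * BB l) - u * T * BB m =
        T * (d * SS) + T * ((s - u) * BB l) + T * (u * (BB l - BB m)) := by ring
    rw [e1]
    have e2 : SS / T + 4 * SS / T + 4 * K * (1 + 1 / e) / T = Q / T := by
      rw [hQ]
      ring
    refine (abs_add_le _ _).trans ?_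
    have := abs_add_le (T * (d * SS)) (T * ((s - u) * BB l))
    linarith
  have hB' := BB_cont hZ
  have i1 : IntervalIntegrable (fun u : ℝ => T * bb (u - 1 / (2 * T)) (u + 1 / (2 * T))) volume 1 2 := by
    refine ContinuousOn.intervalIntegrable ?_
    rw [uIcc_of_le one_le_two]
    exact continuousOn_const.mul (bb_contOn hZ hT)
  have i2 : IntervalIntegrable (fun u : ℝ => u * T * BB (1 / (u * T))) volume 1 2 := by
    refine ContinuousOn.intervalIntegrable ?_
    rw [uIcc_of_le one_le_two]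
    have h1 : ContinuousOn (fun u : ℝ => 1 / (u * T)) (Icc 1 2) := by
      refine ContinuousOn.div (by fun_prop) (by fun_prop) fun u hu => ?_
      have : 0 < u := by linarith [hu.1]
      positivity
    exact (by fun_prop : ContinuousOn (fun u : ℝ => u * T) (Icc 1 2)).mul (hB'.comp_continuousOn h1)
  rw [Real.dist_eq, sub_zero]
  have h1 : aa T - WW T = ∫ u in (1:ℝ)..2, (T * bb (u - 1 / (2 * T)) (u + 1 / (2 * T)) - u * T * BB (1 / (u * T))) := by
    unfold aa WW
    rw [intervalIntegral.integral_sub i1 i2, intervalIntegral.integral_const_mul]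
  rw [h1]
  have h2 := intervalIntegral.norm_integral_le_of_norm_le_const (a := 1) (b := 2) (C := η / 2)
    (f := fun u : ℝ => T * bb (u - 1 / (2 * T)) (u + 1 / (2 * T)) - u * T * BB (1 / (u * T)))
    (fun u hu => by
      rw [uIoc_of_le one_le_two] at hu
      exact hpt u ⟨hu.1.le, hu.2⟩)
  rw [Real.norm_eq_abs] at h2
  refine lt_of_le_of_lt h2 ?_
  norm_num
  linarith

/-- the Abelian direction -/
theorem aa_of_NN (hZ : ZC) {A : ℝ} (hN : Tendsto (fun T : ℝ => NN om gm T / T) atTop (𝓝 A)) :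
    Tendsto aa atTop (𝓝 (A * Real.pi)) := by
  obtain ⟨C, hC0, hC⟩ := NN_lin om_nonneg gm_fin hN
  obtain ⟨K, hK0, hK⟩ := BB_lin hZ hC0 hC
  have h1 := (abel om_nonneg gm_nonneg gm_fin hN fk_deriv fk'_cont fk_meas fk_abs fk_abs2).2
  rw [fk_integral] at h1
  have h2 : Tendsto (fun T : ℝ => T * BB (1 / T)) atTop (𝓝 (A * Real.pi)) := by
    refine h1.congr' ?_
    filter_upwards [eventually_gt_atTop (0:ℝ)] with T hT
    rw [BB_fk (by positivity : 0 < 1 / T)]
    have : ∀ ρ : NT, gm ρ * (1 / T) = gm ρ / T := fun ρ => by ring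
    simp only [this]
    field_simp
  have h3 : Tendsto WW atTop (𝓝 (A * Real.pi)) := by
    have e : A * Real.pi = ∫ u in (1:ℝ)..2, A * Real.pi := by
      rw [intervalIntegral.integral_const, smul_eq_mul]
      ring
    rw [e]
    unfold WW
    refine intervalIntegral.tendsto_integral_filter_of_dominated_convergence (fun _ => K) ?_ ?_ ?_ ?_
    · refine Eventually.of_forall fun T => ?_
      have hB' := (BB_cont hZ).measurable
      have : Measurable fun u : ℝ => u * T * BB (1 / (u * T)) :=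
        (by fun_prop : Measurable fun u : ℝ => u * T).mul (hB'.comp (by fun_prop))
      exact this.aestronglyMeasurable
    · filter_upwards [eventually_gt_atTop (0:ℝ)] with T hT
      refine Eventually.of_forall fun u hu => ?_
      rw [uIoc_of_le one_le_two] at hu
      have hu0 : 0 < u := lt_trans one_pos hu.1
      rw [Real.norm_eq_abs, abs_of_nonneg (mul_nonneg (by positivity) (BB_nonneg _))]
      calc u * T * BB (1 / (u * T)) ≤ u * T * (K * |1 / (u * T)|) := by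
            have := hK (1 / (u * T))
            gcongr
        _ = K := by
            rw [abs_of_pos (by positivity)]
            field_simp
    · exact intervalIntegrable_const
    · refine Eventually.of_forall fun u hu => ?_
      rw [uIoc_of_le one_le_two] at hu
      have hu0 : 0 < u := lt_trans one_pos hu.1
      exact h2.comp (tendsto_id.const_mul_atTop hu0)
  have h4 := (aa_sub_WW hZ hK0 hK).add h3
  rw [zero_add] at h4
  refine h4.congr fun T => ?_
  ring

/-! ## The Tauberian direction -/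

/-- Gaussian sums over the zeros -/
noncomputable def ES (s : ℝ) : ℝ := ∑' ρ : NT, om ρ * Real.exp (-(gm ρ / s) ^ 2)

lemma ES_summ (hZ : ZC) {s : ℝ} (hs : 0 < s) : Summable fun ρ : NT => om ρ * Real.exp (-(gm ρ / s) ^ 2) := by
  refine Summable.of_nonneg_of_le (fun ρ => mul_nonneg (om_nonneg ρ) (Real.exp_pos _).le) (fun ρ => ?_)
    (hZ.2.mul_left (s ^ 2))
  have h1 : (gm ρ / s) ^ 2 * Real.exp (-(gm ρ / s) ^ 2) ≤ 1 := by
    have h2 := Real.add_one_le_exp ((gm ρ / s) ^ 2)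
    have h3 : Real.exp (-(gm ρ / s) ^ 2) = (Real.exp ((gm ρ / s) ^ 2))⁻¹ := by rw [← Real.exp_neg]
    rw [h3, ← div_eq_mul_inv, div_le_one (Real.exp_pos _)]
    linarith
  have h4 : om ρ * Real.exp (-(gm ρ / s) ^ 2) = s ^ 2 * cc ρ * ((gm ρ / s) ^ 2 * Real.exp (-(gm ρ / s) ^ 2)) := by
    unfold om gm
    rw [div_pow, sq_abs]
    field_simp
  rw [h4]
  have h5 := cc_nonneg ρ
  calc s ^ 2 * cc ρ * ((gm ρ / s) ^ 2 * Real.exp (-(gm ρ / s) ^ 2)) ≤ s ^ 2 * cc ρ * 1 := by gcongr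
    _ = s ^ 2 * (1 / ‖(ρ : ℂ) * deriv riemannZeta ρ‖ ^ 2) := by unfold cc; ring

lemma ES_mono (hZ : ZC) : Monotone fun s : ℝ => ES (max s 1) := by
  intro a b hab
  have ha : 0 < max a 1 := lt_of_lt_of_le one_pos (le_max_right _ _)
  have hb : 0 < max b 1 := lt_of_lt_of_le one_pos (le_max_right _ _)
  have hab' : max a 1 ≤ max b 1 := max_le_max_right 1 hab
  unfold ES
  refine (ES_summ hZ ha).tsum_le_tsum (fun ρ => ?_) (ES_summ hZ hb)
  refine mul_le_mul_of_nonneg_left ?_ (om_nonneg ρ)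
  rw [Real.exp_le_exp, neg_le_neg_iff]
  have := gm_nonneg ρ
  gcongr

lemma Gk2_abs_int : Integrable fun x : ℝ => |Gk2 x| := by
  have h0 : Integrable Gk2 := by simpa using Gk2_int 0
  exact h0.abs

lemma NT_countable : Countable NT := by
  have h : NT ⊆ ⋃ n : ℕ, {s : ℂ | s ∈ NT ∧ |s.im| ≤ (n : ℝ)} := by
    intro s hs
    obtain ⟨n, hn⟩ := exists_nat_ge |s.im|
    exact mem_iUnion.2 ⟨n, hs, hn⟩
  have h2 : NT.Countable :=
    (Set.countable_iUnion fun n : ℕ => (Pool.Agent.W280.WM.fin_NT (n : ℝ)).countable).mono h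
  exact h2.to_subtype

/-- the superposition over the zeros -/
lemma ES_eq (hZ : ZC) {s : ℝ} (hs : 0 < s) : ES s / s = s * ∫ x in Ioi (0:ℝ), BB (x / s) * Gk2 x := by
  have h1 : ∀ ρ : NT, Integrable (fun x : ℝ => cc ρ * (2 - 2 * Real.cos ((ρ : ℂ).im * (x / s))) * Gk2 x)
      (volume.restrict (Ioi 0)) := by
    intro ρ
    refine Integrable.mono' (g := fun x => (cc ρ * 4) * |Gk2 x|) ((Gk2_abs_int.const_mul _).integrableOn) ?_
      (Eventually.of_forall fun x => ?_)
    · have := Gk2_cont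
      exact (by fun_prop : Continuous fun x : ℝ => cc ρ * (2 - 2 * Real.cos ((ρ : ℂ).im * (x / s))) * Gk2 x).aestronglyMeasurable
    · rw [Real.norm_eq_abs, abs_mul, abs_of_nonneg (mul_nonneg (cc_nonneg ρ) (cos_bd _).1)]
      have h2 := (cos_bd ((ρ : ℂ).im * (x / s))).2
      have h3 := cc_nonneg ρ
      gcongr
  have h2 : Summable fun ρ : NT => ∫ x, ‖cc ρ * (2 - 2 * Real.cos ((ρ : ℂ).im * (x / s))) * Gk2 x‖
      ∂(volume.restrict (Ioi 0)) := by
    obtain ⟨I, hI⟩ : ∃ I : ℝ, I = ∫ x in Ioi (0:ℝ), |Gk2 x| := ⟨_, rfl⟩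
    refine Summable.of_nonneg_of_le (fun ρ => integral_nonneg fun x => norm_nonneg _) (fun ρ => ?_)
      (hZ.2.mul_left (4 * I))
    have h3 : ∫ x, ‖cc ρ * (2 - 2 * Real.cos ((ρ : ℂ).im * (x / s))) * Gk2 x‖ ∂(volume.restrict (Ioi 0)) ≤
        ∫ x in Ioi (0:ℝ), (cc ρ * 4) * |Gk2 x| := by
      refine integral_mono (h1 ρ).norm ((Gk2_abs_int.const_mul _).integrableOn) (fun x => ?_)
      simp only
      rw [Real.norm_eq_abs, abs_mul, abs_of_nonneg (mul_nonneg (cc_nonneg ρ) (cos_bd _).1)]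
      have h2 := (cos_bd ((ρ : ℂ).im * (x / s))).2
      have h3 := cc_nonneg ρ
      gcongr
    refine h3.trans (le_of_eq ?_)
    rw [integral_const_mul, ← hI]
    unfold cc
    ring
  have := NT_countable
  have h3 := (hasSum_integral_of_summable_integral_norm h1 h2).tsum_eq
  have h4 : ∀ ρ : NT, ∫ x, cc ρ * (2 - 2 * Real.cos ((ρ : ℂ).im * (x / s))) * Gk2 x ∂(volume.restrict (Ioi 0)) =
      s⁻¹ ^ 2 * (om ρ * Real.exp (-(gm ρ / s) ^ 2)) := by
    intro ρ
    have h5 : (fun x : ℝ => cc ρ * (2 - 2 * Real.cos ((ρ : ℂ).im * (x / s))) * Gk2 x) =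
        fun x : ℝ => cc ρ * ((2 - 2 * Real.cos (((ρ : ℂ).im / s) * x)) * Gk2 x) := by
      funext x
      have : (ρ : ℂ).im * (x / s) = (ρ : ℂ).im / s * x := by ring
      rw [this]
      ring
    rw [h5, integral_const_mul, superpos]
    unfold om gm
    have h6 : (|(ρ : ℂ).im| / s) ^ 2 = ((ρ : ℂ).im / s) ^ 2 := by rw [div_pow, sq_abs, div_pow]
    rw [h6]
    field_simp
  simp only [h4] at h3
  rw [tsum_mul_left] at h3
  have h5 : ∫ x in Ioi (0:ℝ), BB (x / s) * Gk2 x =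
      ∫ x in Ioi (0:ℝ), ∑' ρ : NT, cc ρ * (2 - 2 * Real.cos ((ρ : ℂ).im * (x / s))) * Gk2 x := by
    refine integral_congr_ae (Eventually.of_forall fun x => ?_)
    simp only
    unfold BB
    rw [tsum_mul_right]
  rw [h5, ← h3]
  unfold ES
  field_simp

lemma WW_scale {s x : ℝ} (hs : 0 < s) (hx : 0 < x) :
    ∫ u in (1:ℝ)..2, u * s * BB (x / (u * s)) = x * WW (s / x) := by
  unfold WW
  rw [← intervalIntegral.integral_const_mul]
  refine intervalIntegral.integral_congr fun u _ => ?_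
  have h1 : 1 / (u * (s / x)) = x / (u * s) := by field_simp
  rw [h1]
  field_simp

/-- the Tauberian direction -/
theorem NN_of_WW (hZ : ZC) {K : ℝ} (hK : 0 < K) (hB : ∀ l : ℝ, BB l ≤ K * |l|) {c : ℝ}
    (h : Tendsto WW atTop (𝓝 c)) : Tendsto (fun T : ℝ => NN om gm T / T) atTop (𝓝 (c / Real.pi)) := by
  have hπ := Real.pi_pos
  have hBc := BB_cont hZ
  have hWb : ∀ T : ℝ, 0 < T → |WW T| ≤ K := by
    intro T hT
    have h2 := intervalIntegral.norm_integral_le_of_norm_le_const (a := 1) (b := 2) (C := K)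
      (f := fun u : ℝ => u * T * BB (1 / (u * T))) (fun u hu => by
        rw [uIoc_of_le one_le_two] at hu
        have hu0 : 0 < u := lt_trans one_pos hu.1
        rw [Real.norm_eq_abs, abs_of_nonneg (mul_nonneg (by positivity) (BB_nonneg _))]
        calc u * T * BB (1 / (u * T)) ≤ u * T * (K * |1 / (u * T)|) := by
              have := hB (1 / (u * T))
              gcongr
          _ = K := by
              rw [abs_of_pos (by positivity)]
              field_simp)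
    rw [Real.norm_eq_abs] at h2
    refine h2.trans (le_of_eq ?_)
    norm_num
  have hswap : ∀ s : ℝ, 0 < s → ∫ u in (1:ℝ)..2, ES (u * s) / (u * s) =
      ∫ x in Ioi (0:ℝ), WW (s / x) * (x * Gk2 x) := by
    intro s hs
    have h1 : ∫ u in (1:ℝ)..2, ES (u * s) / (u * s) =
        ∫ u in (1:ℝ)..2, ∫ x in Ioi (0:ℝ), u * s * BB (x / (u * s)) * Gk2 x := by
      refine intervalIntegral.integral_congr fun u hu => ?_
      rw [uIcc_of_le one_le_two] at hu
      have hu0 : 0 < u := by linarith [hu.1]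
      rw [ES_eq hZ (by positivity), ← integral_const_mul]
      refine integral_congr_ae (Eventually.of_forall fun x => ?_)
      ring
    rw [h1, intervalIntegral.integral_of_le one_le_two]
    have hm : AEStronglyMeasurable (fun p : ℝ × ℝ => p.1 * s * BB (p.2 / (p.1 * s)) * Gk2 p.2)
        ((volume.restrict (Ioc 1 2)).prod (volume.restrict (Ioi 0))) := by
      refine Measurable.aestronglyMeasurable ?_
      have m1 : Measurable fun p : ℝ × ℝ => BB (p.2 / (p.1 * s)) := hBc.measurable.comp (by fun_prop)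
      have m2 : Measurable fun p : ℝ × ℝ => Gk2 p.2 := Gk2_cont.measurable.comp measurable_snd
      exact ((by fun_prop : Measurable fun p : ℝ × ℝ => p.1 * s).mul m1).mul m2
    have hi : Integrable (fun p : ℝ × ℝ => p.1 * s * BB (p.2 / (p.1 * s)) * Gk2 p.2)
        ((volume.restrict (Ioc 1 2)).prod (volume.restrict (Ioi 0))) := by
      have h2 : Integrable (fun p : ℝ × ℝ => (fun _ : ℝ => K) p.1 * (fun x : ℝ => |x * Gk2 x|) p.2)
          ((volume.restrict (Ioc (1:ℝ) 2)).prod (volume.restrict (Ioi (0:ℝ)))) := by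
        refine Integrable.mul_prod (f := fun _ : ℝ => K) (g := fun x : ℝ => |x * Gk2 x|) (integrable_const _) ?_
        have := (Gk2_int 1).abs
        simp only [pow_one] at this
        exact this.integrableOn
      refine Integrable.mono' h2 hm ?_
      rw [Measure.prod_restrict]
      refine (ae_restrict_mem (measurableSet_Ioc.prod measurableSet_Ioi)).mono fun p hp => ?_
      have hp1 : 0 < p.1 := lt_trans one_pos hp.1.1
      have hp2 : 0 < p.2 := hp.2
      rw [Real.norm_eq_abs, abs_mul, abs_of_nonneg (mul_nonneg (by positivity) (BB_nonneg _))]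
      show p.1 * s * BB (p.2 / (p.1 * s)) * |Gk2 p.2| ≤ K * |p.2 * Gk2 p.2|
      rw [abs_mul, abs_of_pos hp2]
      have h3 : p.1 * s * BB (p.2 / (p.1 * s)) ≤ K * p.2 := by
        calc p.1 * s * BB (p.2 / (p.1 * s)) ≤ p.1 * s * (K * |p.2 / (p.1 * s)|) := by
              have := hB (p.2 / (p.1 * s))
              gcongr
          _ = K * p.2 := by
              rw [abs_of_pos (by positivity)]
              field_simp
      calc p.1 * s * BB (p.2 / (p.1 * s)) * |Gk2 p.2| ≤ K * p.2 * |Gk2 p.2| := by gcongr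
        _ = K * (p.2 * |Gk2 p.2|) := by ring
    have h4 := integral_integral_swap (f := fun u x => u * s * BB (x / (u * s)) * Gk2 x) hi
    rw [h4]
    refine setIntegral_congr_fun measurableSet_Ioi fun x hx => ?_
    have hx0 : (0:ℝ) < x := hx
    rw [integral_mul_const, ← intervalIntegral.integral_of_le one_le_two, WW_scale hs hx0]
    ring
  have hlim : Tendsto (fun s : ℝ => ∫ x in Ioi (0:ℝ), WW (s / x) * (x * Gk2 x)) atTop
      (𝓝 (∫ x in Ioi (0:ℝ), c * (x * Gk2 x))) := by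
    have hWm : ∀ s : ℝ, 0 < s → AEStronglyMeasurable (fun x : ℝ => WW (s / x) * (x * Gk2 x)) (volume.restrict (Ioi 0)) := by
      intro s hs
      have hm : StronglyMeasurable (fun x : ℝ => ∫ u in Ioc (1:ℝ) 2, u * s * BB (x / (u * s)) * Gk2 x) := by
        have m1 : Measurable fun p : ℝ × ℝ => BB (p.1 / (p.2 * s)) := hBc.measurable.comp (by fun_prop)
        have m2 : Measurable fun p : ℝ × ℝ => Gk2 p.1 := Gk2_cont.measurable.comp measurable_fst
        have m3 : Measurable fun p : ℝ × ℝ => p.2 * s * BB (p.1 / (p.2 * s)) * Gk2 p.1 :=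
          ((by fun_prop : Measurable fun p : ℝ × ℝ => p.2 * s).mul m1).mul m2
        exact m3.stronglyMeasurable.integral_prod_right
      refine hm.aestronglyMeasurable.congr ?_
      refine (ae_restrict_mem measurableSet_Ioi).mono fun x hx => ?_
      have hx0 : (0:ℝ) < x := hx
      simp only
      rw [integral_mul_const, ← intervalIntegral.integral_of_le one_le_two, WW_scale hs hx0]
      ring
    refine tendsto_integral_filter_of_dominated_convergence (fun x => K * |x * Gk2 x|) ?_ ?_ ?_ ?_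
    · filter_upwards [eventually_gt_atTop (0:ℝ)] with s hs
      exact hWm s hs
    · filter_upwards [eventually_gt_atTop (0:ℝ)] with s hs
      refine (ae_restrict_mem measurableSet_Ioi).mono fun x hx => ?_
      have hx0 : (0:ℝ) < x := hx
      rw [Real.norm_eq_abs, abs_mul]
      have := hWb (s / x) (by positivity)
      gcongr
    · have := (Gk2_int 1).abs
      simp only [pow_one] at this
      exact (this.const_mul K).integrableOn
    · refine (ae_restrict_mem measurableSet_Ioi).mono fun x hx => ?_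
      have hx0 : (0:ℝ) < x := hx
      exact (h.comp (tendsto_id.atTop_div_const hx0)).mul_const _
  have e1 : ∫ x in Ioi (0:ℝ), c * (x * Gk2 x) = c / Real.pi * G0 := by
    rw [integral_const_mul, mom1, G0_eq]
    have h1 : √Real.pi * √Real.pi = Real.pi := Real.mul_self_sqrt hπ.le
    have h2 : √Real.pi ≠ 0 := (Real.sqrt_pos.2 hπ).ne'
    field_simp
    rw [Real.sq_sqrt hπ.le]
  rw [e1] at hlim
  have h5 : Tendsto (fun T : ℝ => ∫ u in (1:ℝ)..2, (fun s => ES (max s 1)) (u * T) / (u * T)) atTop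
      (𝓝 (c / Real.pi * G0)) := by
    refine hlim.congr' ?_
    filter_upwards [eventually_ge_atTop (1:ℝ)] with T hT
    rw [← hswap T (by linarith)]
    refine intervalIntegral.integral_congr fun u hu => ?_
    rw [uIcc_of_le one_le_two] at hu
    rw [max_eq_left]
    nlinarith [hu.1]
  have h6 := deavg (ES_mono hZ) (fun s => tsum_nonneg fun ρ => mul_nonneg (om_nonneg ρ) (Real.exp_pos _).le) h5
  refine karamata om_nonneg gm_nonneg (fun T hT => ES_summ hZ hT) (h6.congr' ?_)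
  filter_upwards [eventually_ge_atTop (1:ℝ)] with T hT
  rw [max_eq_left hT]
  rfl

/-- the lower bound for `aa` -/
lemma aa_ge (hZ : ZC) {T : ℝ} (hT : 1 ≤ T) : NN om gm T / (72 * T) ≤ aa T := by
  have hT0 : 0 < T := by linarith
  have hS : 0 ≤ SS := tsum_nonneg fun ρ => by positivity
  have hpt : ∀ u ∈ Icc (1:ℝ) 2, NN om gm T / (72 * T ^ 2) ≤ bb (u - 1 / (2 * T)) (u + 1 / (2 * T)) := by
    intro u hu
    obtain ⟨w1, w2, w3, w4, w5, w6, w7, w8⟩ := window hT hu
    rw [bb_eq hZ w1 w2]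
    obtain ⟨l, hl⟩ : ∃ l : ℝ, l = Real.log ((u + 1 / (2 * T)) / (u - 1 / (2 * T))) := ⟨_, rfl⟩
    rw [← hl] at w3 w4
    rw [← hl]
    have hl0 : 0 < l := lt_of_lt_of_le (by positivity) w3
    have h1 : NN om gm T / (36 * T ^ 2) ≤ BB l := by
      unfold NN BB
      rw [div_eq_mul_inv, ← tsum_mul_right]
      refine ((NN_summ gm_fin T).mul_right _).tsum_le_tsum (fun ρ => ?_) (BB_summ hZ l)
      by_cases h : gm ρ ≤ T
      · rw [if_pos h]
        have h2 : |(ρ : ℂ).im * l| ≤ Real.pi := by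
          rw [abs_mul, abs_of_pos hl0]
          have h3 : |(ρ : ℂ).im| * l ≤ T * (2 / T) := by
            have : |(ρ : ℂ).im| ≤ T := h
            gcongr
          have h4 : T * (2 / T) = 2 := by field_simp
          have := Real.pi_gt_three
          linarith
        have h6 := Real.cos_le_one_sub_mul_cos_sq h2
        have h7 : ((ρ : ℂ).im * l) ^ 2 / 4 ≤ 2 - 2 * Real.cos ((ρ : ℂ).im * l) := by
          have h8 : 1 / 8 ≤ 2 / Real.pi ^ 2 := by
            rw [div_le_div_iff₀ (by norm_num) (by positivity)]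
            have := Real.pi_lt_four
            have := Real.pi_pos
            nlinarith
          nlinarith [sq_nonneg ((ρ : ℂ).im * l)]
        have h9 : 1 / (36 * T ^ 2) ≤ l ^ 2 / 4 := by
          have h10 := pow_le_pow_left₀ (by positivity) w3 2
          have h11 : (1 / (3 * T)) ^ 2 = 4 * (1 / (36 * T ^ 2)) := by field_simp; norm_num
          linarith
        unfold om
        have hc := cc_nonneg ρ
        calc (ρ : ℂ).im ^ 2 * cc ρ * (36 * T ^ 2)⁻¹ = cc ρ * ((ρ : ℂ).im ^ 2 * (1 / (36 * T ^ 2))) := by ring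
          _ ≤ cc ρ * ((ρ : ℂ).im ^ 2 * (l ^ 2 / 4)) := by gcongr
          _ = cc ρ * (((ρ : ℂ).im * l) ^ 2 / 4) := by ring
          _ ≤ cc ρ * (2 - 2 * Real.cos ((ρ : ℂ).im * l)) := by gcongr
      · rw [if_neg h, zero_mul]
        exact mul_nonneg (cc_nonneg ρ) (cos_bd _).1
    have h2 : 0 ≤ (√(u + 1 / (2 * T)) - √(u - 1 / (2 * T))) ^ 2 * SS := by positivity
    have h3 : 1 / 2 * BB l ≤ √((u - 1 / (2 * T)) * (u + 1 / (2 * T))) * BB l :=
      mul_le_mul_of_nonneg_right w7 (BB_nonneg l)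
    have h4 : NN om gm T / (72 * T ^ 2) = 1 / 2 * (NN om gm T / (36 * T ^ 2)) := by field_simp; ring
    rw [h4]
    linarith
  unfold aa
  have h1 : NN om gm T / (72 * T) = T * ∫ u in (1:ℝ)..2, NN om gm T / (72 * T ^ 2) := by
    rw [intervalIntegral.integral_const, smul_eq_mul]
    field_simp
    norm_num
  rw [h1]
  refine mul_le_mul_of_nonneg_left ?_ hT0.le
  refine intervalIntegral.integral_mono_on one_le_two intervalIntegrable_const ?_ hpt
  refine ContinuousOn.intervalIntegrable ?_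
  rw [uIcc_of_le one_le_two]
  exact bb_contOn hZ hT

lemma NN_lin_of_aa (hZ : ZC) {D : ℝ} (hD : ∀ᶠ T : ℝ in atTop, aa T ≤ D) :
    ∃ C : ℝ, 0 < C ∧ ∀ T : ℝ, 0 ≤ T → NN om gm T ≤ C * (1 + T) := by
  obtain ⟨T0, hT0⟩ := eventually_atTop.1 (hD.and (eventually_ge_atTop (1:ℝ)))
  have h1 : ∀ T : ℝ, T0 ≤ T → NN om gm T ≤ 72 * |D| * T := by
    intro T hT
    obtain ⟨h2, h3⟩ := hT0 T hT
    have h4 := (aa_ge hZ h3).trans h2
    have h5 : 0 < 72 * T := by linarith
    rw [div_le_iff₀ h5] at h4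
    have h6 := le_abs_self D
    nlinarith
  have h2 := (hT0 T0 le_rfl).2
  refine ⟨72 * |D| + NN om gm T0 + 1, ?_, fun T hT => ?_⟩
  · have := NN_nonneg (ω := om) (g := gm) om_nonneg T0
    positivity
  · have h3 := NN_nonneg (ω := om) (g := gm) om_nonneg T0
    have h4 := abs_nonneg D
    rcases le_total T T0 with h5 | h5
    · have h6 := NN_mono om_nonneg gm_fin h5
      nlinarith [mul_nonneg h4 hT, mul_nonneg h3 hT]
    · have h6 := h1 T h5
      nlinarith [mul_nonneg h4 hT, mul_nonneg h3 hT]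

/-- **the equivalence for the limit** -/
theorem aa_iff (hZ : ZC) (c : ℝ) : Tendsto aa atTop (𝓝 c) ↔
    Tendsto (fun T : ℝ => NN om gm T / T) atTop (𝓝 (c / Real.pi)) := by
  have hπ := Real.pi_pos
  constructor
  · intro h
    have hD : ∀ᶠ T : ℝ in atTop, aa T ≤ c + 1 :=
      (h.eventually (gt_mem_nhds (lt_add_one c))).mono fun T hT => hT.le
    obtain ⟨C, hC0, hC⟩ := NN_lin_of_aa hZ hD
    obtain ⟨K, hK0, hK⟩ := BB_lin hZ hC0 hC
    refine NN_of_WW hZ hK0 hK ?_
    have h1 := h.sub (aa_sub_WW hZ hK0 hK)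
    rw [sub_zero] at h1
    refine h1.congr fun T => ?_
    ring
  · intro h
    have h1 := aa_of_NN hZ h
    have e : c / Real.pi * Real.pi = c := by field_simp
    rwa [e] at h1

end Pool.Agent.Y763.GC
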