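import Pool.Agent.Y763.GC.C

/-! The final equivalence. -/

set_option autoImplicit false

open MeasureTheory Filter Topology Set

namespace Pool.Agent.Y763.GC

open Pool.Agent.TH223.AP (SS)
open Pool.Agent.W120.WM (ZC NT)

/-- all nontrivial zeros are simple and on the critical line -/
def RHS : Prop := ∀ ρ : ℂ, riemannZeta ρ = 0 → 0 < ρ.re → ρ.re < 1 → ρ.re = 1 / 2 ∧ deriv riemannZeta ρ ≠ 0

/-- `J_{-1}(T) = ∑_{0 < γ ≤ T} 1 / |ζ'(ρ)|²` -/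
noncomputable def JJm (T : ℝ) : ℝ :=
  ∑' ρ : {ρ : ℂ | riemannZeta ρ = 0 ∧ 0 < ρ.re ∧ ρ.re < 1 ∧ 0 < ρ.im ∧ ρ.im ≤ T},
    1 / ‖deriv riemannZeta ρ‖ ^ 2

/-- `1 / |ζ'(ρ)|²` -/
noncomputable def zz (ρ : NT) : ℝ := 1 / ‖deriv riemannZeta ρ‖ ^ 2

lemma zz_nonneg (ρ : NT) : 0 ≤ zz ρ := by unfold zz; positivity

lemma conj_NT {s : ℂ} (h : s ∈ NT) : (starRingEnd ℂ) s ∈ NT := by
  obtain ⟨h1, h2, h3⟩ := h
  refine ⟨?_, by simpa using h2, by simpa using h3⟩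
  rw [riemannZeta_conj, h1, map_zero]

lemma deriv_conj_zeta (s : ℂ) : ‖deriv riemannZeta ((starRingEnd ℂ) s)‖ = ‖deriv riemannZeta s‖ := by
  have h1 : (starRingEnd ℂ) ∘ riemannZeta ∘ (starRingEnd ℂ) = riemannZeta := by
    funext z
    simp only [Function.comp]
    rw [riemannZeta_conj, Complex.conj_conj]
  have h2 := deriv_conj_conj (f := riemannZeta)
  rw [h1] at h2
  have h3 := congrFun h2 ((starRingEnd ℂ) s)
  simp only [Function.comp, Complex.conj_conj] at h3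
  rw [h3, RCLike.norm_conj]

/-- conjugation on the zeros -/
noncomputable def cj : NT ≃ NT where
  toFun ρ := ⟨(starRingEnd ℂ) (ρ : ℂ), conj_NT ρ.2⟩
  invFun ρ := ⟨(starRingEnd ℂ) (ρ : ℂ), conj_NT ρ.2⟩
  left_inv ρ := by
    apply Subtype.ext
    simp
  right_inv ρ := by
    apply Subtype.ext
    simp

lemma JJm_eq (T : ℝ) : JJm T = ∑' ρ : NT, if 0 < (ρ : ℂ).im ∧ (ρ : ℂ).im ≤ T then zz ρ else 0 := by
  unfold JJm
  rw [tsum_subtype {ρ : ℂ | riemannZeta ρ = 0 ∧ 0 < ρ.re ∧ ρ.re < 1 ∧ 0 < ρ.im ∧ ρ.im ≤ T}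
    (fun ρ : ℂ => 1 / ‖deriv riemannZeta ρ‖ ^ 2)]
  have h1 := tsum_subtype NT (fun ρ : ℂ => if 0 < ρ.im ∧ ρ.im ≤ T then 1 / ‖deriv riemannZeta ρ‖ ^ 2 else 0)
  have h2 : (∑' ρ : NT, if 0 < (ρ : ℂ).im ∧ (ρ : ℂ).im ≤ T then zz ρ else 0) =
      ∑' ρ : NT, (fun ρ : ℂ => if 0 < ρ.im ∧ ρ.im ≤ T then 1 / ‖deriv riemannZeta ρ‖ ^ 2 else 0) ρ := rfl
  rw [h2, h1]
  refine tsum_congr fun ρ => ?_
  by_cases h3 : ρ ∈ NT
  · rw [indicator_of_mem h3]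
    by_cases h4 : 0 < ρ.im ∧ ρ.im ≤ T
    · rw [if_pos h4, indicator_of_mem]
      exact ⟨h3.1, h3.2.1, h3.2.2, h4.1, h4.2⟩
    · rw [if_neg h4, indicator_of_notMem]
      rintro ⟨-, -, -, h5, h6⟩
      exact h4 ⟨h5, h6⟩
  · rw [indicator_of_notMem h3, indicator_of_notMem]
    rintro ⟨h4, h5, h6, -, -⟩
    exact h3 ⟨h4, h5, h6⟩

lemma im_ne (h : RHS) (ρ : NT) : (ρ : ℂ).im ≠ 0 := by
  intro h1
  have h2 := (h ρ ρ.2.1 ρ.2.2.1 ρ.2.2.2).1
  have h3 : (ρ : ℂ) = 1 / 2 := by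
    apply Complex.ext
    · rw [h2]; norm_num
    · rw [h1]; norm_num
  have h4 := ρ.2.1
  rw [h3] at h4
  exact Pool.Agent.TH223.AP.zeta_half_ne h4

lemma NN_zz (h : RHS) (T : ℝ) : NN zz gm T = 2 * JJm T := by
  have hs1 : Summable fun ρ : NT => if 0 < (ρ : ℂ).im ∧ (ρ : ℂ).im ≤ T then zz ρ else 0 := by
    refine summable_of_hasFiniteSupport ((gm_fin T).subset fun ρ hρ => ?_)
    by_contra hcon
    refine hρ (if_neg ?_)
    rintro ⟨h1, h2⟩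
    refine hcon ?_
    show |(ρ : ℂ).im| ≤ T
    rw [abs_of_pos h1]
    exact h2
  have hs2 : Summable fun ρ : NT => if (ρ : ℂ).im < 0 ∧ -(ρ : ℂ).im ≤ T then zz ρ else 0 := by
    refine summable_of_hasFiniteSupport ((gm_fin T).subset fun ρ hρ => ?_)
    by_contra hcon
    refine hρ (if_neg ?_)
    rintro ⟨h1, h2⟩
    refine hcon ?_
    show |(ρ : ℂ).im| ≤ T
    rw [abs_of_neg h1]
    exact h2
  have h1 : (∑' ρ : NT, if (ρ : ℂ).im < 0 ∧ -(ρ : ℂ).im ≤ T then zz ρ else 0) = JJm T := by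
    rw [JJm_eq, ← cj.tsum_eq]
    refine tsum_congr fun ρ => ?_
    have e1 : ((cj ρ : NT) : ℂ).im = -(ρ : ℂ).im := by
      show ((starRingEnd ℂ) (ρ : ℂ)).im = _
      simp
    have e2 : zz (cj ρ) = zz ρ := by
      unfold zz
      have : ‖deriv riemannZeta ((cj ρ : NT) : ℂ)‖ = ‖deriv riemannZeta (ρ : ℂ)‖ := deriv_conj_zeta ρ
      rw [this]
    rw [e1, e2, neg_neg]
    simp only [neg_lt_zero]
  rw [two_mul]
  nth_rewrite 1 [JJm_eq]
  rw [← h1, ← hs1.tsum_add hs2]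
  unfold NN
  refine tsum_congr fun ρ => ?_
  have h2 := im_ne h ρ
  unfold gm
  rcases lt_or_gt_of_ne h2 with h3 | h3
  · rw [abs_of_neg h3, if_neg (fun h4 : 0 < (ρ : ℂ).im ∧ (ρ : ℂ).im ≤ T => absurd h4.1 (not_lt.2 h3.le)), zero_add]
    simp only [h3, true_and]
  · rw [abs_of_pos h3, if_neg (fun h4 : (ρ : ℂ).im < 0 ∧ -(ρ : ℂ).im ≤ T => absurd h4.1 (not_lt.2 h3.le)), add_zero]
    simp only [h3, true_and]

lemma zz_om (h : RHS) (ρ : NT) : zz ρ = om ρ + cc ρ / 4 := by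
  obtain ⟨h2, h3⟩ := h ρ ρ.2.1 ρ.2.2.1 ρ.2.2.2
  have h4 : ‖(ρ : ℂ)‖ ^ 2 = 1 / 4 + (ρ : ℂ).im ^ 2 := by
    rw [← Complex.normSq_eq_norm_sq, Complex.normSq_apply, h2]
    ring
  have h5 : 0 < ‖(ρ : ℂ)‖ ^ 2 := by rw [h4]; positivity
  have h6 : 0 < ‖deriv riemannZeta (ρ : ℂ)‖ := norm_pos_iff.2 h3
  unfold zz om cc
  rw [norm_mul, mul_pow]
  have h7 : ‖(ρ : ℂ)‖ ^ 2 ≠ 0 := h5.ne'
  have e : (ρ : ℂ).im ^ 2 * (1 / (‖(ρ : ℂ)‖ ^ 2 * ‖deriv riemannZeta (ρ : ℂ)‖ ^ 2)) +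
      1 / (‖(ρ : ℂ)‖ ^ 2 * ‖deriv riemannZeta (ρ : ℂ)‖ ^ 2) / 4 =
      (1 / 4 + (ρ : ℂ).im ^ 2) / (‖(ρ : ℂ)‖ ^ 2 * ‖deriv riemannZeta (ρ : ℂ)‖ ^ 2) := by ring
  have h8 : ‖(ρ : ℂ)‖ ≠ 0 := by
    intro h9
    rw [h9] at h7
    simp at h7
  rw [e, ← h4]
  field_simp

lemma RHS_of_ZC (hZ : ZC) : RHS := fun ρ h1 h2 h3 => hZ.1 ρ ⟨h1, h2, h3⟩

lemma NN_zz_om (hZ : ZC) (T : ℝ) : NN om gm T ≤ NN zz gm T ∧ NN zz gm T ≤ NN om gm T + SS / 4 := by
  have h := RHS_of_ZC hZ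
  have hc : NN cc gm T ≤ SS := by
    unfold NN SS
    refine (NN_summ gm_fin T).tsum_le_tsum (fun ρ => ?_) hZ.2
    split_ifs
    · exact le_rfl
    · positivity
  have hc0 : 0 ≤ NN cc gm T := NN_nonneg cc_nonneg T
  have h1 : NN zz gm T = NN om gm T + NN cc gm T / 4 := by
    have e : NN cc gm T / 4 = ∑' ρ : NT, (if gm ρ ≤ T then cc ρ else 0) / 4 := by
      unfold NN
      rw [tsum_div_const]
    rw [e]
    unfold NN
    rw [← (NN_summ gm_fin T).tsum_add ((NN_summ gm_fin T).div_const 4)]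
    refine tsum_congr fun ρ => ?_
    split_ifs
    · exact zz_om h ρ
    · simp
  rw [h1]
  constructor <;> linarith

lemma NN_J (hZ : ZC) (A : ℝ) : Tendsto (fun T : ℝ => NN om gm T / T) atTop (𝓝 A) ↔
    Tendsto (fun T : ℝ => JJm T / T) atTop (𝓝 (A / 2)) := by
  have h := RHS_of_ZC hZ
  have hS : 0 ≤ SS := tsum_nonneg fun ρ => by positivity
  have h0 : Tendsto (fun T : ℝ => NN zz gm T / T - NN om gm T / T) atTop (𝓝 0) := by
    have h1 : Tendsto (fun T : ℝ => (SS / 4) * T⁻¹) atTop (𝓝 0) := by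
      simpa using (tendsto_inv_atTop_zero (𝕜 := ℝ)).const_mul (SS / 4)
    refine squeeze_zero' ?_ ?_ h1
    · filter_upwards [eventually_gt_atTop (0:ℝ)] with T hT
      rw [← sub_div]
      exact div_nonneg (by linarith [(NN_zz_om hZ T).1]) hT.le
    · filter_upwards [eventually_gt_atTop (0:ℝ)] with T hT
      rw [← sub_div, ← div_eq_mul_inv]
      exact div_le_div_of_nonneg_right (by linarith [(NN_zz_om hZ T).2]) hT.le
  have e : ∀ T : ℝ, JJm T / T = (NN zz gm T / T) / 2 := by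
    intro T
    rw [NN_zz h]
    ring
  constructor
  · intro h1
    have h2 := ((h0.add h1)).div_const 2
    rw [zero_add] at h2
    refine h2.congr fun T => ?_
    rw [e]
    ring
  · intro h1
    have h2 := (h1.const_mul 2).sub h0
    have e2 : 2 * (A / 2) - 0 = A := by ring
    rw [e2] at h2
    refine h2.congr fun T => ?_
    rw [e]
    ring

lemma ZC_of_J (h : RHS) {C : ℝ} (hC : 0 < C) (hJ : ∀ T : ℝ, 0 ≤ T → JJm T ≤ C * (1 + T)) : ZC := by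
  refine ⟨fun ρ hρ => h ρ hρ.1 hρ.2.1 hρ.2.2, ?_⟩
  have h1 : ∀ T : ℝ, 0 ≤ T → NN zz gm T ≤ 2 * C * (1 + T) := by
    intro T hT
    rw [NN_zz h]
    have := hJ T hT
    linarith
  obtain ⟨t1, -⟩ := tail zz_nonneg gm_fin (by positivity : 0 < 2 * C) h1 (y := 1) le_rfl
  have t2 : Summable fun ρ : NT => if gm ρ ≤ 1 then cc ρ else 0 := NN_summ gm_fin 1
  refine Summable.of_nonneg_of_le (fun ρ => cc_nonneg ρ) (fun ρ => ?_) (t1.add t2)
  show cc ρ ≤ _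
  by_cases h2 : gm ρ ≤ 1
  · rw [if_pos h2, if_neg (not_lt.2 h2), zero_add]
  · have h3 : 1 < gm ρ := not_le.1 h2
    rw [if_neg h2, if_pos h3, add_zero]
    have h4 := zz_om h ρ
    have h5 := cc_nonneg ρ
    have h6 : om ρ = gm ρ ^ 2 * cc ρ := by unfold om gm; rw [sq_abs]
    rw [le_div_iff₀ (by positivity)]
    rw [h6] at h4
    nlinarith

/-- **the equivalence** -/
theorem main (c : ℝ) : List.TFAE [
    ∀ ε : ℝ, 0 < ε → ∀ᶠ T : ℝ in atTop, ∀ᶠ Y : ℝ in atTop, |VL T Y - c| < ε,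
    ∀ ε : ℝ, 0 < ε → ∀ᶠ T : ℝ in atTop, ∃ᶠ Y : ℝ in atTop, |VL T Y - c| < ε,
    RHS ∧ Tendsto (fun T : ℝ => JJm T / T) atTop (𝓝 (c / (2 * Real.pi)))] := by
  have hπ := Real.pi_pos
  tfae_have 1 → 2 := by
    intro h ε hε
    exact (h ε hε).mono fun T hT => hT.frequently
  tfae_have 2 → 3 := by
    intro h
    have hZ : ZC := by
      obtain ⟨T, hT, hT1⟩ := ((h 1 one_pos).and (eventually_ge_atTop (1:ℝ))).exists
      refine ZC_of_VL (C := c + 1) hT1 (hT.mono fun Y hY => ?_)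
      linarith [(abs_lt.1 hY).2]
    have haa : Tendsto aa atTop (𝓝 c) := by
      rw [Metric.tendsto_nhds]
      intro ε hε
      filter_upwards [h (ε / 2) (by positivity), eventually_ge_atTop (1:ℝ)] with T hT hT1
      have h1 := Metric.tendsto_nhds.1 (VL_lim hZ hT1) (ε / 2) (by positivity)
      obtain ⟨Y, hY1, hY2⟩ := (hT.and_eventually h1).exists
      rw [Real.dist_eq] at hY2 ⊢
      rw [abs_lt] at hY1 hY2 ⊢
      constructor <;> linarith [hY1.1, hY1.2, hY2.1, hY2.2]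
    refine ⟨RHS_of_ZC hZ, ?_⟩
    have h2 := (NN_J hZ (c / Real.pi)).1 ((aa_iff hZ c).1 haa)
    have e : c / Real.pi / 2 = c / (2 * Real.pi) := by field_simp
    rwa [e] at h2
  tfae_have 3 → 1 := by
    rintro ⟨hR, hJ⟩ ε hε
    have hN : Tendsto (fun T : ℝ => NN zz gm T / T) atTop (𝓝 (c / Real.pi)) := by
      have h2 := hJ.const_mul 2
      have e : 2 * (c / (2 * Real.pi)) = c / Real.pi := by field_simp
      rw [e] at h2
      refine h2.congr fun T => ?_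
      rw [NN_zz hR]
      ring
    obtain ⟨C, hC0, hC⟩ := NN_lin zz_nonneg gm_fin hN
    have hZ : ZC := ZC_of_J hR hC0 (fun T hT => by
      have h3 := hC T hT
      rw [NN_zz hR] at h3
      have h4 : 0 ≤ JJm T := tsum_nonneg fun ρ => by positivity
      linarith)
    have h2 : Tendsto (fun T : ℝ => NN om gm T / T) atTop (𝓝 (c / Real.pi)) := by
      refine (NN_J hZ (c / Real.pi)).2 ?_
      have e : c / Real.pi / 2 = c / (2 * Real.pi) := by field_simp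
      rwa [e]
    have haa := (aa_iff hZ c).2 h2
    filter_upwards [Metric.tendsto_nhds.1 haa (ε / 2) (by positivity), eventually_ge_atTop (1:ℝ)] with T hT hT1
    filter_upwards [Metric.tendsto_nhds.1 (VL_lim hZ hT1) (ε / 2) (by positivity)] with Y hY
    rw [Real.dist_eq, abs_lt] at hT hY
    rw [abs_lt]
    constructor <;> linarith [hT.1, hT.2, hY.1, hY.2]
  tfae_finish

end Pool.Agent.Y763.GC
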