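import Pool.Agent.Y763.GC.F
import Pool.Agent.W120.WM.All2
import Pool.Agent.W93.WM.L2

/-! The weighted mean square on the line `Re s = 1/2 + δ`. -/

set_option autoImplicit false

open MeasureTheory Filter Topology Set

namespace Pool.Agent.Y763.GC

open Pool.Agent.W120.WM (GG NT U_PT U_DBL Cons Ac RHp)
open Pool.Agent.W93.WM (cauchy_aux cons_fst cons_snd q_aux ee_aux)

/-- the distance to the neighbouring zeros -/
lemma gap_t (hDBL : U_DBL) (hRH : RHp) : ∃ C0 : ℝ, 0 < C0 ∧ ∀ a b t y : ℝ, Cons a b → a < t → t < b →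
    (y = a ∨ y = b) → |t| ≤ 2 * |y| + C0 := by
  obtain ⟨-, C0, hC0, h⟩ := hDBL hRH
  refine ⟨C0, hC0, fun a b t y hab ha hb hy => ?_⟩
  obtain ⟨h1, h2, h3⟩ := h a b hab
  rcases le_total 0 a with h0 | h0
  · have h4 := h1 h0
    rw [abs_of_pos (by linarith)]
    rcases hy with rfl | rfl
    · rw [abs_of_nonneg h0]; linarith
    · rw [abs_of_nonneg (by linarith)]; linarith
  · rcases le_total b 0 with h5 | h5
    · have h4 := h2 h5
      rw [abs_of_neg (by linarith)]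
      rcases hy with rfl | rfl
      · rw [abs_of_nonpos h0]; linarith
      · rw [abs_of_nonpos h5]; linarith
    · obtain ⟨h6, h7⟩ := h3 h0 h5
      have h8 : |t| ≤ C0 := by
        rw [abs_le] at h6 h7 ⊢
        constructor <;> linarith [h6.1, h6.2, h7.1, h7.2]
      have := abs_nonneg y
      linarith

/-- the multiplier -/
noncomputable def mlt (α β : ℝ) (s : ℂ) : ℂ := (β : ℂ) ^ s - (α : ℂ) ^ s

lemma mlt_bd {T u : ℝ} (hT : 1 ≤ T) (hu : u ∈ Icc (1:ℝ) 2) {σ : ℝ} (h1 : 1 / 2 < σ) (h2 : σ < 1) (t : ℝ) :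
    ‖mlt (u - 1 / (2 * T)) (u + 1 / (2 * T)) (⟨σ, t⟩ : ℂ)‖ ^ 2 ≤ 36 * min 1 ((1 + t ^ 2) / T ^ 2) := by
  obtain ⟨hT1, hT2⟩ := inv_T hT
  obtain ⟨hu1, hu2⟩ := hu
  have hT0 : 0 < T := by linarith
  obtain ⟨α, hα⟩ : ∃ α : ℝ, α = u - 1 / (2 * T) := ⟨_, rfl⟩
  obtain ⟨β, hβ⟩ : ∃ β : ℝ, β = u + 1 / (2 * T) := ⟨_, rfl⟩
  rw [← hα, ← hβ]
  have hα1 : 1 / 2 ≤ α := by rw [hα]; linarith
  have hα0 : 0 < α := by linarith
  have hαβ : α < β := by rw [hα, hβ]; linarith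
  have hβ3 : β ≤ 3 := by rw [hβ]; linarith
  have hβ0 : 0 < β := by linarith
  have hd : β - α = 1 / T := by rw [hα, hβ]; field_simp; ring
  have key : ∀ x : ℝ, 0 < x → x ≤ 3 → ‖(x : ℂ) ^ (⟨σ, t⟩ : ℂ)‖ ≤ 3 := by
    intro x hx hx3
    rw [Complex.norm_cpow_eq_rpow_re_of_pos hx]
    show x ^ σ ≤ 3
    calc x ^ σ ≤ 3 ^ σ := Real.rpow_le_rpow hx.le hx3 (by linarith)
      _ ≤ 3 ^ (1:ℝ) := Real.rpow_le_rpow_of_exponent_le (by norm_num) h2.le
      _ = 3 := Real.rpow_one 3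
  have b1 : ‖mlt α β (⟨σ, t⟩ : ℂ)‖ ≤ 6 := by
    unfold mlt
    refine (norm_sub_le _ _).trans ?_
    have := key α hα0 (by linarith)
    have := key β hβ0 hβ3
    linarith
  have hs0 : (⟨σ, t⟩ : ℂ) ≠ 0 := by
    intro h
    have := congrArg Complex.re h
    simp at this
    linarith
  have b2 : ‖mlt α β (⟨σ, t⟩ : ℂ)‖ ≤ 2 * ‖(⟨σ, t⟩ : ℂ)‖ * (1 / T) := by
    have hder : ∀ x ∈ Icc α β, HasDerivWithinAt (fun y : ℝ => (y : ℂ) ^ (⟨σ, t⟩ : ℂ))
        ((⟨σ, t⟩ : ℂ) * (x : ℂ) ^ ((⟨σ, t⟩ : ℂ) - 1)) (Icc α β) x := by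
      intro x hx
      have hx0 : x ≠ 0 := by linarith [hx.1]
      exact (hasDerivAt_ofReal_cpow_const hx0 hs0).hasDerivWithinAt
    have h3 := norm_image_sub_le_of_norm_deriv_le_segment' (a := α) (b := β)
      (f := fun y : ℝ => (y : ℂ) ^ (⟨σ, t⟩ : ℂ))
      (f' := fun x : ℝ => (⟨σ, t⟩ : ℂ) * (x : ℂ) ^ ((⟨σ, t⟩ : ℂ) - 1)) (C := 2 * ‖(⟨σ, t⟩ : ℂ)‖) hder
      (fun x hx => by
        have hx0 : 0 < x := by linarith [hx.1]
        rw [norm_mul, Complex.norm_cpow_eq_rpow_re_of_pos hx0, mul_comm]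
        refine mul_le_mul_of_nonneg_right ?_ (norm_nonneg _)
        have h4 : ((⟨σ, t⟩ : ℂ) - 1).re = σ - 1 := by simp
        rw [h4]
        have h5 : 1 / 2 ≤ x := hα1.trans hx.1
        calc x ^ (σ - 1) ≤ (1 / 2 : ℝ) ^ (σ - 1) := Real.rpow_le_rpow_of_nonpos (by norm_num) h5 (by linarith)
          _ ≤ (1 / 2 : ℝ) ^ (-1 : ℝ) := Real.rpow_le_rpow_of_exponent_ge (by norm_num) (by norm_num) (by linarith)
          _ = 2 := by rw [Real.rpow_neg_one]; norm_num) β ⟨hαβ.le, le_rfl⟩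
    rw [hd] at h3
    exact h3
  have hn : ‖(⟨σ, t⟩ : ℂ)‖ ^ 2 ≤ 1 + t ^ 2 := by
    rw [Complex.sq_norm, Complex.normSq_mk]
    nlinarith
  rw [mul_min_of_nonneg _ _ (by norm_num : (0:ℝ) ≤ 36), mul_one]
  refine le_min ?_ ?_
  · calc ‖mlt α β (⟨σ, t⟩ : ℂ)‖ ^ 2 ≤ 6 ^ 2 := pow_le_pow_left₀ (norm_nonneg _) b1 2
      _ = 36 := by norm_num
  · calc ‖mlt α β (⟨σ, t⟩ : ℂ)‖ ^ 2 ≤ (2 * ‖(⟨σ, t⟩ : ℂ)‖ * (1 / T)) ^ 2 := pow_le_pow_left₀ (norm_nonneg _) b2 2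
      _ = 4 * (‖(⟨σ, t⟩ : ℂ)‖ ^ 2 / T ^ 2) := by ring
      _ ≤ 4 * ((1 + t ^ 2) / T ^ 2) := by gcongr
      _ ≤ 36 * ((1 + t ^ 2) / T ^ 2) := by
          have : 0 ≤ (1 + t ^ 2) / T ^ 2 := by positivity
          linarith

/-- the weight -/
noncomputable def wei (T δ y : ℝ) : ℝ := (3 + |y|) ^ (2 * δ) * min 1 ((1 / 4 + y ^ 2) / T ^ 2)

lemma wei_pos {T : ℝ} (hT : 1 ≤ T) (δ y : ℝ) : 0 < wei T δ y := by
  have hT0 : 0 < T := by linarith
  unfold wei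
  have : 0 ≤ |y| := abs_nonneg y
  refine mul_pos (Real.rpow_pos_of_pos (by linarith) _) (lt_min one_pos (by positivity))

lemma wei_comp {T : ℝ} (hT : 1 ≤ T) {δ C0 : ℝ} (hδ : 0 < δ) (hδ1 : δ ≤ 1 / 4) (hC0 : 0 < C0) {t y : ℝ}
    (h : |t| ≤ 2 * |y| + C0) :
    (3 + |t|) ^ (2 * δ) * min 1 ((1 + t ^ 2) / T ^ 2) ≤ ((2 + C0) * (12 + 8 * C0 ^ 2)) * wei T δ y := by
  have hT0 : 0 < T := by linarith
  have hy := abs_nonneg y
  have ht := abs_nonneg t
  have a1 : (3 + |t|) ^ (2 * δ) ≤ (2 + C0) * (3 + |y|) ^ (2 * δ) := by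
    have h1 : 3 + |t| ≤ (2 + C0) * (3 + |y|) := by nlinarith
    calc (3 + |t|) ^ (2 * δ) ≤ ((2 + C0) * (3 + |y|)) ^ (2 * δ) := Real.rpow_le_rpow (by linarith) h1 (by linarith)
      _ = (2 + C0) ^ (2 * δ) * (3 + |y|) ^ (2 * δ) := Real.mul_rpow (by linarith) (by linarith)
      _ ≤ (2 + C0) ^ (1:ℝ) * (3 + |y|) ^ (2 * δ) := by
          refine mul_le_mul_of_nonneg_right ?_ (by positivity)
          exact Real.rpow_le_rpow_of_exponent_le (by linarith) (by linarith)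
      _ = (2 + C0) * (3 + |y|) ^ (2 * δ) := by rw [Real.rpow_one]
  have a2 : min 1 ((1 + t ^ 2) / T ^ 2) ≤ (12 + 8 * C0 ^ 2) * min 1 ((1 / 4 + y ^ 2) / T ^ 2) := by
    rw [mul_min_of_nonneg _ _ (by positivity), mul_one]
    refine min_le_min (by nlinarith [sq_nonneg C0]) ?_
    rw [← mul_div_assoc]
    refine div_le_div_of_nonneg_right ?_ (by positivity)
    have h2 : t ^ 2 ≤ (2 * |y| + C0) ^ 2 := by
      rw [← sq_abs t]
      exact pow_le_pow_left₀ ht h 2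
    have h3 := sq_abs y
    nlinarith [sq_nonneg (2 * |y| - C0), sq_nonneg y, sq_nonneg C0, mul_nonneg (sq_nonneg C0) (sq_nonneg y)]
  unfold wei
  calc (3 + |t|) ^ (2 * δ) * min 1 ((1 + t ^ 2) / T ^ 2) ≤
      ((2 + C0) * (3 + |y|) ^ (2 * δ)) * ((12 + 8 * C0 ^ 2) * min 1 ((1 / 4 + y ^ 2) / T ^ 2)) := by
        refine mul_le_mul a1 a2 (by positivity) (by positivity)
    _ = _ := by ring

theorem L2w (hPT : U_PT) (hDBL : U_DBL) (H : ∀ ρ ∈ NT, ρ.re = 1 / 2 ∧ deriv riemannZeta ρ ≠ 0) :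
    ∃ C : ℝ, 0 < C ∧ ∀ T u δ h S : ℝ, 1 ≤ T → u ∈ Icc (1:ℝ) 2 → 0 < δ → δ ≤ 1 / 4 → 0 < h → h ≤ 1 →
      (∀ Z : Finset ℂ, (∀ ρ ∈ Z, ρ ∈ NT) →
        ∑ ρ ∈ Z, 1 / ‖ρ * deriv riemannZeta ρ‖ ^ 2 * wei T δ ρ.im ≤ S) →
      ∫⁻ t : ℝ, ‖GG h 0 (⟨1 / 2 + δ, t⟩ : ℂ) *
        mlt (u - 1 / (2 * T)) (u + 1 / (2 * T)) (⟨1 / 2 + δ, t⟩ : ℂ)‖ₑ ^ 2 ≤ ENNReal.ofReal (C * S / δ) := by
  have hRH : RHp := fun ρ hρ => (H ρ hρ).1
  obtain ⟨C1, hC1, hpt⟩ := hPT hRH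
  obtain ⟨C0, hC0, hgap⟩ := gap_t hDBL hRH
  have hcov := (hDBL hRH).1
  have hNT : ∀ y : ℝ, riemannZeta (⟨1 / 2, y⟩ : ℂ) = 0 → (⟨1 / 2, y⟩ : ℂ) ∈ NT := by
    intro y hy
    refine ⟨hy, ?_, ?_⟩ <;> norm_num
  obtain ⟨K, hK⟩ : ∃ K : ℝ, K = (2 + C0) * (12 + 8 * C0 ^ 2) := ⟨_, rfl⟩
  have hK0 : 0 < K := by rw [hK]; positivity
  refine ⟨16 * Real.pi * Real.exp 1 * C1 ^ 2 * 36 * K, by positivity, ?_⟩
  intro T u δ h S hT hu hδ hδ1 hh hh1 hS
  have hδ2 : δ < 1 / 2 := by linarith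
  have hS0 : 0 ≤ S := by simpa using hS ∅ (by simp)
  classical
  -- the weights
  let A2 : ℝ → ℝ := fun y => Ac y ^ 2 * wei T δ y
  have hA2 : ∀ y, 0 ≤ A2 y := fun y => mul_nonneg (sq_nonneg _) (wei_pos hT δ y).le
  let F : ℝ → ENNReal := fun y => if riemannZeta (⟨1 / 2, y⟩ : ℂ) = 0 then ENNReal.ofReal (A2 y) else 0
  have hF : ∑' y, F y ≤ ENNReal.ofReal S := by
    rw [ENNReal.tsum_eq_iSup_sum]
    refine iSup_le ?_
    intro Z
    have h1 : ∑ y ∈ Z, F y = ∑ y ∈ Z.filter (fun y => riemannZeta (⟨1 / 2, y⟩ : ℂ) = 0),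
        ENNReal.ofReal (A2 y) := by
      rw [Finset.sum_filter]
    rw [h1, ← ENNReal.ofReal_sum_of_nonneg (fun y _ => hA2 y)]
    apply ENNReal.ofReal_le_ofReal
    have hinj : Function.Injective (fun y : ℝ => (⟨1 / 2, y⟩ : ℂ)) := by
      intro x y hxy
      exact (Complex.ext_iff.mp hxy).2
    have h2 := hS ((Z.filter (fun y => riemannZeta (⟨1 / 2, y⟩ : ℂ) = 0)).map ⟨_, hinj⟩) (by
      intro ρ hρ
      rw [Finset.mem_map] at hρ
      obtain ⟨y, hy, rfl⟩ := hρ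
      exact hNT y (Finset.mem_filter.mp hy).2)
    rw [Finset.sum_map] at h2
    refine le_trans (le_of_eq ?_) h2
    apply Finset.sum_congr rfl
    intro y _
    simp only [A2, Ac, Function.Embedding.coeFn_mk]
    rw [div_pow, one_pow]
  have hFpos : ∀ y : ℝ, riemannZeta (⟨1 / 2, y⟩ : ℂ) = 0 → F y ≠ 0 := by
    intro y hy
    have hd := (H _ (hNT y hy)).2
    have hne : (⟨1 / 2, y⟩ : ℂ) ≠ 0 := by
      intro h0
      have := (Complex.ext_iff.mp h0).1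
      norm_num at this
    simp only [F, if_pos hy]
    have : 0 < Ac y := by
      unfold Ac
      apply one_div_pos.mpr
      exact norm_pos_iff.mpr (mul_ne_zero hne hd)
    have h3 : 0 < A2 y := mul_pos (by positivity) (wei_pos hT δ y)
    exact (ENNReal.ofReal_pos.mpr h3).ne'
  have hYc : {y : ℝ | riemannZeta (⟨1 / 2, y⟩ : ℂ) = 0}.Countable := by
    have h1 : F.support.Countable :=
      Summable.countable_support_ennreal (ne_top_of_le_ne_top ENNReal.ofReal_ne_top hF)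
    exact h1.mono (fun y hy => hFpos y hy)
  -- the index type
  let TT := {p : ℝ × ℝ // Cons p.1 p.2}
  have hfst : Function.Injective (fun p : TT => p.1.1) := by
    rintro ⟨⟨a, b⟩, hp⟩ ⟨⟨a', b'⟩, hp'⟩ hh
    simp only at hh hp hp'
    subst hh
    have := cons_fst hp hp'
    subst this
    rfl
  have hsnd : Function.Injective (fun p : TT => p.1.2) := by
    rintro ⟨⟨a, b⟩, hp⟩ ⟨⟨a', b'⟩, hp'⟩ hh
    simp only at hh hp hp'
    subst hh
    have := cons_snd hp hp'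
    subst this
    rfl
  have hTc : Countable TT := by
    have : Countable {y : ℝ | riemannZeta (⟨1 / 2, y⟩ : ℂ) = 0} := hYc.to_subtype
    let g : TT → {y : ℝ | riemannZeta (⟨1 / 2, y⟩ : ℂ) = 0} := fun p => ⟨p.1.1, p.2.2.1⟩
    have hg : Function.Injective g := by
      intro p q hpq
      apply hfst
      exact congrArg Subtype.val hpq
    exact hg.countable
  have hae : (⋃ p : TT, Ioo p.1.1 p.1.2) =ᵐ[volume] (univ : Set ℝ) := by
    rw [ae_eq_univ]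
    apply measure_mono_null _ (hYc.measure_zero volume)
    intro t ht
    by_contra hne
    obtain ⟨a, b, hab, h1, h2⟩ := hcov t hne
    apply ht
    rw [mem_iUnion]
    exact ⟨⟨(a, b), hab⟩, h1, h2⟩
  set g : ℝ → ENNReal := fun t => ‖GG h 0 (⟨1 / 2 + δ, t⟩ : ℂ) *
    mlt (u - 1 / (2 * T)) (u + 1 / (2 * T)) (⟨1 / 2 + δ, t⟩ : ℂ)‖ₑ ^ 2 with hg
  have hpiece : ∀ p : TT, ∫⁻ t in Ioo p.1.1 p.1.2, g t ≤
      ENNReal.ofReal (8 * Real.pi * Real.exp 1 * C1 ^ 2 * 36 * K / δ) * (F p.1.1 + F p.1.2) := by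
    rintro ⟨⟨a, b⟩, hp⟩
    simp only at hp ⊢
    have hda := (H _ (hNT a hp.2.1)).2
    have hdb := (H _ (hNT b hp.2.2.1)).2
    have hFa : F a = ENNReal.ofReal (A2 a) := if_pos hp.2.1
    have hFb : F b = ENNReal.ofReal (A2 b) := if_pos hp.2.2.1
    set κ : ℝ := Real.exp 1 * C1 ^ 2 * 36 * K * (2 * (A2 a + A2 b)) with hκ
    have hAa := hA2 a
    have hAb := hA2 b
    have hκ0 : 0 ≤ κ := by positivity
    have hbd : ∀ t ∈ Ioo a b, g t ≤ ENNReal.ofReal (κ * 2) *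
        (ENNReal.ofReal (1 / (δ ^ 2 + (t - a) ^ 2)) + ENNReal.ofReal (1 / (δ ^ 2 + (t - b) ^ 2))) := by
      intro t ht
      have h1 := hpt a b t δ hp ht.1 ht.2 hδ hδ2 hda hdb
      have h2 : ‖GG h 0 (⟨1 / 2 + δ, t⟩ : ℂ) *
          mlt (u - 1 / (2 * T)) (u + 1 / (2 * T)) (⟨1 / 2 + δ, t⟩ : ℂ)‖ ^ 2 ≤ κ *
          (2 * (1 / (δ ^ 2 + (t - a) ^ 2)) + 2 * (1 / (δ ^ 2 + (t - b) ^ 2))) := by
        rw [GG, div_eq_mul_inv, norm_mul, norm_mul, mul_pow, mul_pow]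
        have e1 : ‖Pool.Agent.W120.WM.EE h 0 (⟨1 / 2 + δ, t⟩ : ℂ)‖ ^ 2 ≤ Real.exp 1 := by
          refine (ee_aux (t := t) hδ hδ2 hh hh1).trans ?_
          refine mul_le_of_le_one_right (Real.exp_pos 1).le (Real.exp_le_one_iff.2 ?_)
          have : 0 ≤ h ^ 2 * t ^ 2 := by positivity
          linarith
        have e2 : ‖((⟨1 / 2 + δ, t⟩ : ℂ) * riemannZeta (⟨1 / 2 + δ, t⟩ : ℂ))⁻¹‖ ^ 2 ≤
            (C1 * (3 + |t|) ^ δ * ((b - a) / (‖(⟨δ, t - a⟩ : ℂ)‖ * ‖(⟨δ, t - b⟩ : ℂ)‖)) *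
              (Ac a + Ac b)) ^ 2 := pow_le_pow_left₀ (norm_nonneg _) h1 2
        have e3 : (C1 * (3 + |t|) ^ δ * ((b - a) / (‖(⟨δ, t - a⟩ : ℂ)‖ * ‖(⟨δ, t - b⟩ : ℂ)‖)) *
              (Ac a + Ac b)) ^ 2 = C1 ^ 2 * (3 + |t|) ^ (2 * δ) *
              ((b - a) / (‖(⟨δ, t - a⟩ : ℂ)‖ * ‖(⟨δ, t - b⟩ : ℂ)‖)) ^ 2 * (Ac a + Ac b) ^ 2 := by
          have : (3 + |t|) ^ (2 * δ) = ((3 + |t|) ^ δ) ^ 2 := by
            rw [mul_comm, Real.rpow_mul (by positivity)]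
            norm_num
          rw [this]; ring
        have e4 := q_aux (t := t) hδ hp.1
        have e5 : (Ac a + Ac b) ^ 2 ≤ 2 * (Ac a ^ 2 + Ac b ^ 2) := by
          nlinarith [sq_nonneg (Ac a - Ac b)]
        have e7 := mlt_bd hT hu (σ := 1 / 2 + δ) (by linarith) (by linarith) t
        have e8 := wei_comp hT hδ hδ1 hC0 (hgap a b t a hp ht.1 ht.2 (Or.inl rfl))
        have e9 := wei_comp hT hδ hδ1 hC0 (hgap a b t b hp ht.1 ht.2 (Or.inr rfl))
        rw [← hK] at e8 e9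
        set Q := ((b - a) / (‖(⟨δ, t - a⟩ : ℂ)‖ * ‖(⟨δ, t - b⟩ : ℂ)‖)) ^ 2 with hQ
        set R := (2 * (1 / (δ ^ 2 + (t - a) ^ 2)) + 2 * (1 / (δ ^ 2 + (t - b) ^ 2))) with hR
        set P := (3 + |t|) ^ (2 * δ) with hP
        set W := min 1 ((1 + t ^ 2) / T ^ 2) with hW
        have hQ0 : 0 ≤ Q := sq_nonneg _
        have hP0 : 0 ≤ P := by positivity
        have hW0 : 0 ≤ W := by positivity
        have e10 : P * W * (2 * (Ac a ^ 2 + Ac b ^ 2)) ≤ K * (2 * (A2 a + A2 b)) := by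
          have f1 := mul_le_mul_of_nonneg_left e8 (sq_nonneg (Ac a))
          have f2 := mul_le_mul_of_nonneg_left e9 (sq_nonneg (Ac b))
          have f3 : A2 a = Ac a ^ 2 * wei T δ a := rfl
          have f4 : A2 b = Ac b ^ 2 * wei T δ b := rfl
          rw [f3, f4]
          linarith
        calc ‖Pool.Agent.W120.WM.EE h 0 (⟨1 / 2 + δ, t⟩ : ℂ)‖ ^ 2 *
              ‖((⟨1 / 2 + δ, t⟩ : ℂ) * riemannZeta (⟨1 / 2 + δ, t⟩ : ℂ))⁻¹‖ ^ 2 *
              ‖mlt (u - 1 / (2 * T)) (u + 1 / (2 * T)) (⟨1 / 2 + δ, t⟩ : ℂ)‖ ^ 2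
            ≤ Real.exp 1 * (C1 ^ 2 * P * Q * (Ac a + Ac b) ^ 2) * (36 * W) := by
              rw [e3] at e2
              exact mul_le_mul (mul_le_mul e1 e2 (by positivity) (by positivity)) e7 (by positivity) (by positivity)
          _ = Real.exp 1 * C1 ^ 2 * 36 * (Q * (P * W * (Ac a + Ac b) ^ 2)) := by ring
          _ ≤ Real.exp 1 * C1 ^ 2 * 36 * (R * (P * W * (2 * (Ac a ^ 2 + Ac b ^ 2)))) := by
              refine mul_le_mul_of_nonneg_left ?_ (by positivity)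
              refine mul_le_mul e4 ?_ (by positivity) (le_trans hQ0 e4)
              exact mul_le_mul_of_nonneg_left e5 (by positivity)
          _ ≤ Real.exp 1 * C1 ^ 2 * 36 * (R * (K * (2 * (A2 a + A2 b)))) := by
              refine mul_le_mul_of_nonneg_left ?_ (by positivity)
              exact mul_le_mul_of_nonneg_left e10 (le_trans hQ0 e4)
          _ = κ * R := by rw [hκ]; ring
      have h3 : g t = ENNReal.ofReal (‖GG h 0 (⟨1 / 2 + δ, t⟩ : ℂ) *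
          mlt (u - 1 / (2 * T)) (u + 1 / (2 * T)) (⟨1 / 2 + δ, t⟩ : ℂ)‖ ^ 2) := by
        rw [hg]
        simp only
        rw [← ofReal_norm, ENNReal.ofReal_pow (norm_nonneg _)]
      rw [h3, ← ENNReal.ofReal_add (by positivity) (by positivity), ← ENNReal.ofReal_mul (by positivity)]
      apply ENNReal.ofReal_le_ofReal
      refine h2.trans (le_of_eq ?_)
      ring
    calc ∫⁻ t in Ioo a b, g t ≤ ∫⁻ t in Ioo a b, ENNReal.ofReal (κ * 2) *
        (ENNReal.ofReal (1 / (δ ^ 2 + (t - a) ^ 2)) + ENNReal.ofReal (1 / (δ ^ 2 + (t - b) ^ 2))) :=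
          setLIntegral_mono' measurableSet_Ioo hbd
      _ ≤ ∫⁻ t, ENNReal.ofReal (κ * 2) *
        (ENNReal.ofReal (1 / (δ ^ 2 + (t - a) ^ 2)) + ENNReal.ofReal (1 / (δ ^ 2 + (t - b) ^ 2))) :=
          setLIntegral_le_lintegral _ _
      _ = ENNReal.ofReal (κ * 2) * (ENNReal.ofReal (Real.pi / δ) + ENNReal.ofReal (Real.pi / δ)) := by
          rw [lintegral_const_mul _ (by fun_prop), lintegral_add_left (by fun_prop),
            cauchy_aux δ a hδ, cauchy_aux δ b hδ]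
      _ = _ := by
          rw [hFa, hFb, ← ENNReal.ofReal_add (by positivity) (by positivity),
            ← ENNReal.ofReal_mul (by positivity), ← ENNReal.ofReal_add (by positivity) (by positivity),
            ← ENNReal.ofReal_mul (by positivity)]
          congr 1
          rw [hκ]
          ring
  calc ∫⁻ t : ℝ, g t = ∫⁻ t in (⋃ p : TT, Ioo p.1.1 p.1.2), g t := by
        rw [setLIntegral_congr hae, setLIntegral_univ]
    _ ≤ ∑' p : TT, ∫⁻ t in Ioo p.1.1 p.1.2, g t := lintegral_iUnion_le _ _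
    _ ≤ ∑' p : TT, ENNReal.ofReal (8 * Real.pi * Real.exp 1 * C1 ^ 2 * 36 * K / δ) *
        (F p.1.1 + F p.1.2) := ENNReal.tsum_le_tsum hpiece
    _ = ENNReal.ofReal (8 * Real.pi * Real.exp 1 * C1 ^ 2 * 36 * K / δ) *
        (∑' p : TT, F p.1.1 + ∑' p : TT, F p.1.2) := by
        rw [ENNReal.tsum_mul_left, ENNReal.tsum_add]
    _ ≤ ENNReal.ofReal (8 * Real.pi * Real.exp 1 * C1 ^ 2 * 36 * K / δ) *
        (ENNReal.ofReal S + ENNReal.ofReal S) := by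
        gcongr
        · exact (ENNReal.tsum_comp_le_tsum_of_injective hfst F).trans hF
        · exact (ENNReal.tsum_comp_le_tsum_of_injective hsnd F).trans hF
    _ = ENNReal.ofReal (16 * Real.pi * Real.exp 1 * C1 ^ 2 * 36 * K * S / δ) := by
        rw [← ENNReal.ofReal_add hS0 hS0, ← ENNReal.ofReal_mul (by positivity)]
        congr 1
        ring

/-! ## The sum over the zeros -/

variable {ι : Type*} {ω g : ι → ℝ}

/-- the tail with exponent `3/2` -/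
lemma tail32 (hω : ∀ i, 0 ≤ ω i) (hfin : ∀ T : ℝ, {i | g i ≤ T}.Finite) {C : ℝ} (hC : 0 < C)
    (hN : ∀ T : ℝ, 0 ≤ T → NN ω g T ≤ C * (1 + T)) {y : ℝ} (hy : 1 ≤ y) (s : Finset ι) :
    ∑ i ∈ s, (if y < g i then ω i / (g i * √(g i)) else 0) ≤ 16 * C / √y := by
  classical
  have hy0 : 0 < y := by linarith
  have hsy : 0 < √y := Real.sqrt_pos.2 hy0
  obtain ⟨K, hK⟩ : ∃ K : ℕ, ∀ i ∈ s, g i ≤ 2 ^ K * y := by
    obtain ⟨M, hM⟩ : ∃ M : ℝ, ∀ i ∈ s, g i ≤ M := ⟨∑ i ∈ s, |g i|, fun i hi =>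
      (le_abs_self _).trans (Finset.single_le_sum (f := fun i => |g i|) (fun _ _ => abs_nonneg _) hi)⟩
    obtain ⟨K, hK⟩ := pow_unbounded_of_one_lt M one_lt_two
    refine ⟨K, fun i hi => (hM i hi).trans (hK.le.trans ?_)⟩
    have : (0:ℝ) < 2 ^ K := by positivity
    nlinarith
  have hpt : ∀ i ∈ s, (if y < g i then ω i / (g i * √(g i)) else 0) ≤
      ∑ k ∈ Finset.range K, (1 / ((2 ^ k * y) * √(2 ^ k * y))) * (if g i ≤ 2 ^ (k + 1) * y then ω i else 0) := by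
    intro i hi
    have hterm : ∀ k ∈ Finset.range K, 0 ≤ (1 / ((2 ^ k * y) * √(2 ^ k * y))) *
        (if g i ≤ 2 ^ (k + 1) * y then ω i else 0) := by
      intro k _
      refine mul_nonneg (by positivity) ?_
      split_ifs
      · exact hω i
      · exact le_rfl
    by_cases h : y < g i
    · rw [if_pos h]
      have hex : ∃ k : ℕ, g i ≤ 2 ^ k * y := ⟨K, hK i hi⟩
      obtain ⟨m, hm⟩ : ∃ m, m = Nat.find hex := ⟨_, rfl⟩
      have h1 : g i ≤ 2 ^ m * y := by rw [hm]; exact Nat.find_spec hex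
      have h2 : m ≤ K := by rw [hm]; exact Nat.find_min' hex (hK i hi)
      have h3 : m ≠ 0 := by
        rintro h0
        rw [h0] at h1
        linarith
      obtain ⟨k, rfl⟩ := Nat.exists_eq_succ_of_ne_zero h3
      have h4 : 2 ^ k * y < g i := by
        have := Nat.find_min hex (m := k) (by rw [← hm]; exact Nat.lt_succ_self k)
        exact not_le.1 this
      refine le_trans ?_ (Finset.single_le_sum hterm (Finset.mem_range.2 (by omega : k < K)))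
      rw [if_pos h1, one_div_mul_eq_div]
      refine div_le_div_of_nonneg_left (hω i) (by positivity) ?_
      exact mul_le_mul h4.le (Real.sqrt_le_sqrt h4.le) (Real.sqrt_nonneg _) (by linarith)
    · rw [if_neg h]
      exact Finset.sum_nonneg hterm
  have hgeo : ∀ k : ℕ, (1 / √2 : ℝ) ^ k ≤ (3 / 4 : ℝ) ^ k := by
    intro k
    refine pow_le_pow_left₀ (by positivity) ?_ k
    have h2 : (4 / 3 : ℝ) ≤ √2 := by
      rw [show (4 / 3 : ℝ) = √((4 / 3) ^ 2) by rw [Real.sqrt_sq (by norm_num)]]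
      exact Real.sqrt_le_sqrt (by norm_num)
    rw [div_le_div_iff₀ (by positivity) (by norm_num)]
    linarith
  calc ∑ i ∈ s, (if y < g i then ω i / (g i * √(g i)) else 0)
      ≤ ∑ i ∈ s, ∑ k ∈ Finset.range K, (1 / ((2 ^ k * y) * √(2 ^ k * y))) *
          (if g i ≤ 2 ^ (k + 1) * y then ω i else 0) :=
        Finset.sum_le_sum hpt
    _ = ∑ k ∈ Finset.range K, (1 / ((2 ^ k * y) * √(2 ^ k * y))) *
          ∑ i ∈ s, (if g i ≤ 2 ^ (k + 1) * y then ω i else 0) := by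
        rw [Finset.sum_comm]
        exact Finset.sum_congr rfl fun k _ => by rw [Finset.mul_sum]
    _ ≤ ∑ k ∈ Finset.range K, (1 / ((2 ^ k * y) * √(2 ^ k * y))) * (C * (4 * 2 ^ k * y)) := by
        refine Finset.sum_le_sum fun k _ => ?_
        have h1 : ∑ i ∈ s, (if g i ≤ 2 ^ (k + 1) * y then ω i else 0) ≤ NN ω g (2 ^ (k + 1) * y) := by
          unfold NN
          refine (NN_summ hfin _).sum_le_tsum s fun i _ => ?_
          split_ifs
          · exact hω i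
          · exact le_rfl
        have h2 := hN (2 ^ (k + 1) * y) (by positivity)
        have h3 : C * (1 + 2 ^ (k + 1) * y) ≤ C * (4 * 2 ^ k * y) := by
          have h4 : (1:ℝ) ≤ 2 ^ k := one_le_pow₀ one_le_two
          have h5 : (1:ℝ) ≤ 2 ^ k * y := by nlinarith
          have h6 : (2:ℝ) ^ (k + 1) = 2 * 2 ^ k := by ring
          rw [h6]
          refine mul_le_mul_of_nonneg_left ?_ hC.le
          nlinarith
        have h7 : (0:ℝ) ≤ 1 / ((2 ^ k * y) * √(2 ^ k * y)) := by positivity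
        exact mul_le_mul_of_nonneg_left (h1.trans (h2.trans h3)) h7
    _ = (4 * C / √y) * ∑ k ∈ Finset.range K, (1 / √2 : ℝ) ^ k := by
        rw [Finset.mul_sum]
        refine Finset.sum_congr rfl fun k _ => ?_
        have h5 : √(2 ^ k * y) = √2 ^ k * √y := by
          rw [Real.sqrt_mul (by positivity)]
          congr 1
          rw [Real.sqrt_eq_iff_mul_self_eq (by positivity) (by positivity), ← mul_pow,
            Real.mul_self_sqrt (by norm_num)]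
        rw [h5, one_div_pow]
        have h6 : (0:ℝ) < √2 ^ k := by positivity
        field_simp
    _ ≤ (4 * C / √y) * 4 := by
        refine mul_le_mul_of_nonneg_left ?_ (by positivity)
        calc ∑ k ∈ Finset.range K, (1 / √2 : ℝ) ^ k ≤ ∑ k ∈ Finset.range K, (3 / 4 : ℝ) ^ k :=
              Finset.sum_le_sum fun k _ => hgeo k
          _ ≤ ∑' k : ℕ, (3 / 4 : ℝ) ^ k :=
              (summable_geometric_of_lt_one (by norm_num) (by norm_num)).sum_le_tsum _ fun _ _ => by positivity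
          _ = 4 := by rw [tsum_geometric_of_lt_one (by norm_num) (by norm_num)]; norm_num
    _ = 16 * C / √y := by ring

/-- the weighted sum over the zeros -/
theorem zsum (hR : RHS) {C : ℝ} (hC : 0 < C) (hN : ∀ T : ℝ, 0 ≤ T → NN zz gm T ≤ C * (1 + T))
    {T δ : ℝ} (hT : 1 ≤ T) (hδ : 0 < δ) (hδ1 : δ ≤ 1 / 4) (Z : Finset ℂ) (hZ : ∀ ρ ∈ Z, ρ ∈ NT) :
    ∑ ρ ∈ Z, 1 / ‖ρ * deriv riemannZeta ρ‖ ^ 2 * wei T δ ρ.im ≤ 40 * C * T ^ (2 * δ) / T := by
  classical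
  have hT0 : 0 < T := by linarith
  obtain ⟨P, hP⟩ : ∃ P : ℝ, P = T ^ (2 * δ) := ⟨_, rfl⟩
  have hP0 : 0 < P := by rw [hP]; positivity
  obtain ⟨s, hs⟩ : ∃ s : Finset NT, s = Z.attach.map ⟨fun ρ => ⟨ρ.1, hZ ρ.1 ρ.2⟩, fun a b hab => by
    apply Subtype.ext
    exact congrArg (fun x : NT => (x : ℂ)) hab⟩ := ⟨_, rfl⟩
  have h1 : ∑ ρ ∈ Z, 1 / ‖ρ * deriv riemannZeta ρ‖ ^ 2 * wei T δ ρ.im = ∑ ρ ∈ s, cc ρ * wei T δ (ρ : ℂ).im := by
    rw [hs, Finset.sum_map, ← Finset.sum_attach]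
    rfl
  rw [h1]
  have hpow : ∀ x : ℝ, 0 ≤ x → x ≤ 1 → (4:ℝ) ^ (2 * δ) ≤ 2 := by
    intro x _ _
    calc (4:ℝ) ^ (2 * δ) ≤ 4 ^ (1 / 2 : ℝ) := Real.rpow_le_rpow_of_exponent_le (by norm_num) (by linarith)
      _ = 2 := by
        rw [← Real.sqrt_eq_rpow, show (4:ℝ) = 2 ^ 2 by norm_num, Real.sqrt_sq (by norm_num)]
  have h4 : (4:ℝ) ^ (2 * δ) ≤ 2 := hpow 0 le_rfl zero_le_one
  have hpt : ∀ ρ ∈ s, cc ρ * wei T δ (ρ : ℂ).im ≤
      (2 * P / T ^ 2) * (if gm ρ ≤ T then zz ρ else 0) +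
      (2 * P / √T) * (if T < gm ρ then zz ρ / (gm ρ * √(gm ρ)) else 0) := by
    intro ρ _
    have hc := cc_nonneg ρ
    have hzo := zz_om hR ρ
    have hz : zz ρ = (1 / 4 + (ρ : ℂ).im ^ 2) * cc ρ := by rw [hzo]; unfold om; ring
    have hg0 := gm_nonneg ρ
    by_cases h : gm ρ ≤ T
    · rw [if_pos h, if_neg (not_lt.2 h), mul_zero, add_zero]
      unfold wei
      have a1 : (3 + |(ρ : ℂ).im|) ^ (2 * δ) ≤ 2 * P := by
        calc (3 + |(ρ : ℂ).im|) ^ (2 * δ) ≤ (4 * T) ^ (2 * δ) := by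
              refine Real.rpow_le_rpow (by positivity) ?_ (by linarith)
              have : |(ρ : ℂ).im| ≤ T := h
              linarith
          _ = 4 ^ (2 * δ) * T ^ (2 * δ) := Real.mul_rpow (by norm_num) hT0.le
          _ ≤ 2 * P := by rw [← hP]; gcongr
      calc cc ρ * ((3 + |(ρ : ℂ).im|) ^ (2 * δ) * min 1 ((1 / 4 + (ρ : ℂ).im ^ 2) / T ^ 2)) ≤
          cc ρ * ((2 * P) * ((1 / 4 + (ρ : ℂ).im ^ 2) / T ^ 2)) := by
            gcongr
            exact min_le_right _ _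
        _ = 2 * P / T ^ 2 * zz ρ := by rw [hz]; ring
    · have h5 : T < gm ρ := not_le.1 h
      rw [if_neg h, if_pos h5, mul_zero, zero_add]
      have hg1 : 0 < gm ρ := by linarith
      have hsg : 0 < √(gm ρ) := Real.sqrt_pos.2 hg1
      have hsT : 0 < √T := Real.sqrt_pos.2 hT0
      unfold wei
      have a1 : (3 + |(ρ : ℂ).im|) ^ (2 * δ) ≤ 2 * P * (√(gm ρ) / √T) := by
        have hge : 1 ≤ 4 * gm ρ / T := by rw [le_div_iff₀ hT0]; linarith
        calc (3 + |(ρ : ℂ).im|) ^ (2 * δ) ≤ (T * (4 * gm ρ / T)) ^ (2 * δ) := by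
              refine Real.rpow_le_rpow (by positivity) ?_ (by linarith)
              have e : T * (4 * gm ρ / T) = 4 * gm ρ := by field_simp
              rw [e]
              have : |(ρ : ℂ).im| = gm ρ := rfl
              rw [this]
              linarith
          _ = T ^ (2 * δ) * (4 * gm ρ / T) ^ (2 * δ) := Real.mul_rpow hT0.le (by positivity)
          _ ≤ T ^ (2 * δ) * (4 * gm ρ / T) ^ (1 / 2 : ℝ) := by
              refine mul_le_mul_of_nonneg_left ?_ (by positivity)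
              exact Real.rpow_le_rpow_of_exponent_le hge (by linarith)
          _ = 2 * P * (√(gm ρ) / √T) := by
              rw [← hP, ← Real.sqrt_eq_rpow, Real.sqrt_div (by positivity), Real.sqrt_mul (by norm_num)]
              have : √(4:ℝ) = 2 := by
                rw [show (4:ℝ) = 2 ^ 2 by norm_num]
                exact Real.sqrt_sq (by norm_num)
              rw [this]
              ring
      have a2 : cc ρ ≤ zz ρ / gm ρ ^ 2 := by
        rw [le_div_iff₀ (by positivity), hz]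
        have : gm ρ ^ 2 = (ρ : ℂ).im ^ 2 := by unfold gm; rw [sq_abs]
        rw [this]
        nlinarith
      have hz0 := zz_nonneg ρ
      calc cc ρ * ((3 + |(ρ : ℂ).im|) ^ (2 * δ) * min 1 ((1 / 4 + (ρ : ℂ).im ^ 2) / T ^ 2)) ≤
          (zz ρ / gm ρ ^ 2) * ((2 * P * (√(gm ρ) / √T)) * 1) := by
            gcongr
            exact min_le_left _ _
        _ = (2 * P / √T) * (zz ρ / (gm ρ * √(gm ρ))) := by
            have e : √(gm ρ) * √(gm ρ) = gm ρ := Real.mul_self_sqrt hg1.le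
            have e2 : √(gm ρ) ^ 2 = gm ρ := Real.sq_sqrt hg1.le
            field_simp
            rw [e2]
  refine (Finset.sum_le_sum hpt).trans ?_
  rw [Finset.sum_add_distrib, ← Finset.mul_sum, ← Finset.mul_sum]
  have b1 : ∑ ρ ∈ s, (if gm ρ ≤ T then zz ρ else 0) ≤ 2 * C * T := by
    have h2 : ∑ ρ ∈ s, (if gm ρ ≤ T then zz ρ else 0) ≤ NN zz gm T := by
      unfold NN
      refine (NN_summ gm_fin _).sum_le_tsum s fun i _ => ?_
      split_ifs
      · exact zz_nonneg i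
      · exact le_rfl
    have h3 := hN T hT0.le
    nlinarith
  have b2 := tail32 zz_nonneg gm_fin hC hN hT s
  have hsT : 0 < √T := Real.sqrt_pos.2 hT0
  have c1 : (2 * P / T ^ 2) * ∑ ρ ∈ s, (if gm ρ ≤ T then zz ρ else 0) ≤ 4 * C * P / T := by
    calc (2 * P / T ^ 2) * ∑ ρ ∈ s, (if gm ρ ≤ T then zz ρ else 0) ≤ (2 * P / T ^ 2) * (2 * C * T) := by gcongr
      _ = 4 * C * P / T := by field_simp; ring
  have c2 : (2 * P / √T) * ∑ ρ ∈ s, (if T < gm ρ then zz ρ / (gm ρ * √(gm ρ)) else 0) ≤ 32 * C * P / T := by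
    calc (2 * P / √T) * ∑ ρ ∈ s, (if T < gm ρ then zz ρ / (gm ρ * √(gm ρ)) else 0) ≤
        (2 * P / √T) * (16 * C / √T) := by gcongr
      _ = 32 * C * P / (√T * √T) := by field_simp; ring
      _ = 32 * C * P / T := by rw [Real.mul_self_sqrt hT0.le]
  rw [← hP]
  have c3 : 4 * C * P / T + 32 * C * P / T ≤ 40 * C * P / T := by
    rw [← add_div]
    refine div_le_div_of_nonneg_right ?_ hT0.le
    nlinarith [mul_pos hC hP0]
  linarith

end Pool.Agent.Y763.GC
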