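import Pool.Agent.Y763.GC.G1

/-! The uniform bound. -/

set_option autoImplicit false

open MeasureTheory Filter Topology Set FourierTransform

namespace Pool.Agent.Y763.GC

open Pool.Agent.W120.WM (GG NT Sm gk RHp ZC)
open Pool.Agent.W898.WM (GG_shift scale)
open Pool.Agent.H295R2 (Mx Mx_meas)
open Pool.Agent.TH223.AP (mn)

/-- Plancherel -/
theorem plg {g : ℝ → ℂ} {F : ℝ → ℝ} {σ : ℝ} (h1 : Integrable g)
    (hinv : ∀ v : ℝ, ((F v : ℝ) : ℂ) = ((2 * Real.pi : ℝ) : ℂ)⁻¹ *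
      ∫ t : ℝ, g t * Complex.exp ((v : ℂ) * (⟨σ, t⟩ : ℂ)))
    (hfin : ∫⁻ t : ℝ, ‖g t‖ₑ ^ 2 ≠ ⊤) :
    ∫⁻ v : ℝ, ENNReal.ofReal (F v ^ 2 * Real.exp (-(2 * σ * v))) ≤ ∫⁻ t : ℝ, ‖g t‖ₑ ^ 2 := by
  have h2 : MemLp g 2 := by
    refine ⟨h1.1, ?_⟩
    rw [eLpNorm_lt_top_iff_lintegral_rpow_enorm_lt_top (by norm_num) (by norm_num)]
    have : (∫⁻ a : ℝ, ‖g a‖ₑ ^ (2 : ENNReal).toReal) = ∫⁻ a : ℝ, ‖g a‖ₑ ^ 2 := by
      congr 1
      funext a
      rw [ENNReal.toReal_ofNat]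
      exact_mod_cast ENNReal.rpow_natCast _ 2
    rw [this]
    exact lt_top_iff_ne_top.2 hfin
  have hpl := Pool.Agent.Helper76.NormalHP.plancherel_lintegral g h1 h2
  have hkey : ∀ v : ℝ, ((F v : ℝ) : ℂ) = ((2 * Real.pi : ℝ) : ℂ)⁻¹ *
      ((Real.exp (σ * v) : ℝ) : ℂ) * 𝓕 g (-(2 * Real.pi)⁻¹ * v) := by
    intro v
    rw [hinv v, mul_assoc]
    congr 1
    rw [Real.fourier_eq', ← integral_const_mul]
    congr 1
    funext t
    rw [smul_eq_mul]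
    have e : Complex.exp ((v : ℂ) * (⟨σ, t⟩ : ℂ)) =
        ((Real.exp (σ * v) : ℝ) : ℂ) * Complex.exp (((-2 * Real.pi * inner ℝ t (-(2 * Real.pi)⁻¹ * v) : ℝ) : ℂ) * Complex.I) := by
      rw [Complex.ofReal_exp, ← Complex.exp_add]
      congr 1
      have hpi : Real.pi ≠ 0 := Real.pi_ne_zero
      apply Complex.ext
      · simp
        ring
      · simp
        field_simp
    rw [e]
    ring
  have hpt : ∀ v : ℝ, ENNReal.ofReal (F v ^ 2 * Real.exp (-(2 * σ * v))) =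
      ENNReal.ofReal (((2 * Real.pi) ^ 2)⁻¹) * ‖𝓕 g (-(2 * Real.pi)⁻¹ * v)‖ₑ ^ 2 := by
    intro v
    rw [← ofReal_norm, ← ENNReal.ofReal_pow (norm_nonneg _), ← ENNReal.ofReal_mul (by positivity)]
    congr 1
    have hn : |F v| = (2 * Real.pi)⁻¹ * Real.exp (σ * v) * ‖𝓕 g (-(2 * Real.pi)⁻¹ * v)‖ := by
      have := congrArg norm (hkey v)
      rw [norm_mul, norm_mul, norm_inv, Complex.norm_real, Complex.norm_real, Complex.norm_real,
        Real.norm_eq_abs, Real.norm_eq_abs, Real.norm_eq_abs, abs_of_pos (by positivity : 0 < 2 * Real.pi),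
        abs_of_pos (Real.exp_pos _)] at this
      exact this
    rw [← sq_abs (F v), hn]
    have he : Real.exp (σ * v) ^ 2 * Real.exp (-(2 * σ * v)) = 1 := by
      rw [← Real.exp_nat_mul, ← Real.exp_add]
      rw [show (((2 : ℕ) : ℝ) * (σ * v) + -(2 * σ * v)) = 0 by push_cast; ring, Real.exp_zero]
    calc ((2 * Real.pi)⁻¹ * Real.exp (σ * v) * ‖𝓕 g (-(2 * Real.pi)⁻¹ * v)‖) ^ 2 *
          Real.exp (-(2 * σ * v)) = ((2 * Real.pi) ^ 2)⁻¹ * ‖𝓕 g (-(2 * Real.pi)⁻¹ * v)‖ ^ 2 *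
          (Real.exp (σ * v) ^ 2 * Real.exp (-(2 * σ * v))) := by ring
      _ = ((2 * Real.pi) ^ 2)⁻¹ * ‖𝓕 g (-(2 * Real.pi)⁻¹ * v)‖ ^ 2 := by rw [he, mul_one]
  have hpi2 : -(2 * Real.pi)⁻¹ ≠ 0 := by
    have := Real.pi_pos
    rw [neg_ne_zero]
    positivity
  calc ∫⁻ v : ℝ, ENNReal.ofReal (F v ^ 2 * Real.exp (-(2 * σ * v)))
      = ∫⁻ v : ℝ, ENNReal.ofReal (((2 * Real.pi) ^ 2)⁻¹) * ‖𝓕 g (-(2 * Real.pi)⁻¹ * v)‖ₑ ^ 2 := by
        congr 1
        funext v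
        exact hpt v
    _ = ENNReal.ofReal (((2 * Real.pi) ^ 2)⁻¹) * ∫⁻ v : ℝ, ‖𝓕 g (-(2 * Real.pi)⁻¹ * v)‖ₑ ^ 2 :=
        lintegral_const_mul' _ _ ENNReal.ofReal_ne_top
    _ = ENNReal.ofReal (((2 * Real.pi) ^ 2)⁻¹) * (ENNReal.ofReal |(-(2 * Real.pi)⁻¹)⁻¹| *
        ∫⁻ x : ℝ, ‖𝓕 g x‖ₑ ^ 2) := by
        rw [scale (fun x => ‖𝓕 g x‖ₑ ^ 2) _ hpi2]
    _ = ENNReal.ofReal (((2 * Real.pi) ^ 2)⁻¹ * |(-(2 * Real.pi)⁻¹)⁻¹|) * ∫⁻ t : ℝ, ‖g t‖ₑ ^ 2 := by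
        rw [← mul_assoc, ← ENNReal.ofReal_mul (by positivity), hpl]
    _ ≤ 1 * ∫⁻ t : ℝ, ‖g t‖ₑ ^ 2 := by
        gcongr
        rw [← ENNReal.ofReal_one]
        apply ENNReal.ofReal_le_ofReal
        have hp := Real.pi_gt_three
        have hpos : 0 < 2 * Real.pi := by linarith
        rw [inv_neg, inv_inv, abs_neg, abs_of_pos hpos]
        rw [show ((2 * Real.pi) ^ 2)⁻¹ * (2 * Real.pi) = (2 * Real.pi)⁻¹ by field_simp]
        apply inv_le_one_of_one_le₀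
        linarith
    _ = ∫⁻ t : ℝ, ‖g t‖ₑ ^ 2 := one_mul _

lemma exp_log_cpow {β : ℝ} (hβ : 0 < β) (v : ℝ) (s : ℂ) :
    Complex.exp (((v + Real.log β : ℝ) : ℂ) * s) = (β : ℂ) ^ s * Complex.exp ((v : ℂ) * s) := by
  have hβ' : (β : ℂ) ≠ 0 := by exact_mod_cast hβ.ne'
  rw [Complex.cpow_def_of_ne_zero hβ', ← Complex.ofReal_log hβ.le, ← Complex.exp_add]
  congr 1
  push_cast
  ring

lemma Dh_inv (hINV : Pool.Agent.W120.WM.U_INV) (hRH : RHp) {α β : ℝ} (hα : 0 < α) (hβ : 0 < β) {δ h : ℝ}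
    (hδ : 0 < δ) (hδ1 : δ < 1 / 2) (hh : 0 < h) (hh1 : h ≤ 1) :
    Integrable (fun t : ℝ => GG h 0 (⟨1 / 2 + δ, t⟩ : ℂ) * mlt α β (⟨1 / 2 + δ, t⟩ : ℂ)) ∧
    ∀ v : ℝ, ((Sm h (v + Real.log β) - Sm h (v + Real.log α) : ℝ) : ℂ) = ((2 * Real.pi : ℝ) : ℂ)⁻¹ *
      ∫ t : ℝ, (GG h 0 (⟨1 / 2 + δ, t⟩ : ℂ) * mlt α β (⟨1 / 2 + δ, t⟩ : ℂ)) *
        Complex.exp ((v : ℂ) * (⟨1 / 2 + δ, t⟩ : ℂ)) := by
  have key : ∀ v t : ℝ, (GG h 0 (⟨1 / 2 + δ, t⟩ : ℂ) * mlt α β (⟨1 / 2 + δ, t⟩ : ℂ)) *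
      Complex.exp ((v : ℂ) * (⟨1 / 2 + δ, t⟩ : ℂ)) = GG h (v + Real.log β) (⟨1 / 2 + δ, t⟩ : ℂ) -
        GG h (v + Real.log α) (⟨1 / 2 + δ, t⟩ : ℂ) := by
    intro v t
    rw [GG_shift h (v + Real.log β), GG_shift h (v + Real.log α), exp_log_cpow hβ, exp_log_cpow hα]
    unfold mlt
    ring
  constructor
  · have h1 := (hINV hRH δ h (0 + Real.log β) hδ hδ1 hh hh1).1.sub (hINV hRH δ h (0 + Real.log α) hδ hδ1 hh hh1).1
    refine h1.congr (Eventually.of_forall fun t => ?_)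
    simp only [Pi.sub_apply]
    rw [← key 0 t]
    simp
  · intro v
    have h1 := hINV hRH δ h (v + Real.log β) hδ hδ1 hh hh1
    have h2 := hINV hRH δ h (v + Real.log α) hδ hδ1 hh hh1
    rw [Complex.ofReal_sub, h1.2, h2.2, ← mul_sub, ← integral_sub h1.1 h2.1]
    congr 1
    refine integral_congr_ae (Eventually.of_forall fun t => ?_)
    exact (key v t).symm

/-! ## Convergence of the smoothed function -/

lemma Sm_meas (h : ℝ) : Measurable (Sm h) := by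
  unfold Sm
  have h1 : Measurable fun p : ℝ × ℝ => Pool.Agent.W120.WM.Mx (Real.exp (p.1 - p.2)) * gk h p.2 := by
    refine Measurable.mul ?_ ?_
    · exact (show Measurable Pool.Agent.W120.WM.Mx from Mx_meas).comp (by fun_prop)
    · unfold gk
      fun_prop
  exact (h1.stronglyMeasurable.integral_prod_right).measurable

lemma Sm_eq {h : ℝ} (hh : 0 < h) (v : ℝ) :
    Sm h v = ∫ x : ℝ, Mx (Real.exp (v - h * x)) * gk 1 x := by
  unfold Sm
  have h1 := Measure.integral_comp_mul_left (fun w => Pool.Agent.W120.WM.Mx (Real.exp (v - w)) * gk h w) h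
  rw [abs_of_pos (inv_pos.2 hh), smul_eq_mul] at h1
  have h2 : ∫ w : ℝ, Pool.Agent.W120.WM.Mx (Real.exp (v - w)) * gk h w =
      h * ∫ x : ℝ, Pool.Agent.W120.WM.Mx (Real.exp (v - h * x)) * gk h (h * x) := by
    rw [h1]
    field_simp
  rw [h2, ← integral_const_mul]
  refine integral_congr_ae (Eventually.of_forall fun x => ?_)
  simp only
  have h3 : h * gk h (h * x) = gk 1 x := by
    unfold gk
    have e : (h * x) ^ 2 / (2 * h ^ 2) = x ^ 2 / (2 * 1 ^ 2) := by field_simp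
    rw [e]
    field_simp
  have h4 : Pool.Agent.W120.WM.Mx (Real.exp (v - h * x)) = Mx (Real.exp (v - h * x)) := rfl
  rw [← h3, h4]
  ring

lemma gk_int_one : ∫ x : ℝ, gk 1 x = 1 := by
  unfold gk
  rw [integral_const_mul]
  have h1 : ∫ x : ℝ, Real.exp (-(x ^ 2 / (2 * 1 ^ 2))) = √(2 * Real.pi) := by
    have h2 := integral_gaussian (1 / 2)
    have h3 : (fun x : ℝ => Real.exp (-(x ^ 2 / (2 * 1 ^ 2)))) = fun x : ℝ => Real.exp (-(1 / 2) * x ^ 2) := by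
      funext x
      congr 1
      ring
    rw [h3, h2]
    congr 1
    ring
  rw [h1, one_mul]
  exact inv_mul_cancel₀ (by positivity)

lemma gk_dom (x : ℝ) : Real.exp |x| * gk 1 x ≤ Real.exp 1 * Real.exp (-(1 / 4) * x ^ 2) := by
  unfold gk
  have h1 : (1 * √(2 * Real.pi))⁻¹ ≤ 1 := by
    refine inv_le_one_of_one_le₀ ?_
    rw [one_mul]
    refine Real.one_le_sqrt.2 ?_
    have := Real.pi_gt_three
    linarith
  have h2 : Real.exp |x| * ((1 * √(2 * Real.pi))⁻¹ * Real.exp (-(x ^ 2 / (2 * 1 ^ 2)))) ≤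
      Real.exp |x| * (1 * Real.exp (-(x ^ 2 / (2 * 1 ^ 2)))) := by gcongr
  refine h2.trans ?_
  rw [one_mul, ← Real.exp_add, ← Real.exp_add, Real.exp_le_exp]
  have h3 := sq_abs x
  nlinarith [sq_nonneg (|x| / 2 - 1)]

lemma gk_pos (x : ℝ) : 0 < gk 1 x := by
  unfold gk
  have := Real.pi_pos
  positivity

lemma Mx_abs {y : ℝ} (hy : 0 ≤ y) : |Mx y| ≤ y := Pool.Agent.H295R2.abs_Mx_le hy

lemma Sm_lim {v : ℝ} (hv : ∀ n : ℕ, Real.exp v ≠ n) :
    Tendsto (fun n : ℕ => Sm (1 / ((n:ℝ) + 1)) v) atTop (𝓝 (Mx (Real.exp v))) := by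
  have h0 : ∀ n : ℕ, Sm (1 / ((n:ℝ) + 1)) v = ∫ x : ℝ, Mx (Real.exp (v - 1 / ((n:ℝ) + 1) * x)) * gk 1 x :=
    fun n => Sm_eq (by positivity) v
  have h1 : Mx (Real.exp v) = ∫ x : ℝ, Mx (Real.exp v) * gk 1 x := by
    rw [integral_const_mul, gk_int_one, mul_one]
  rw [h1]
  simp only [h0]
  have hfl : (⌊Real.exp v⌋₊ : ℝ) < Real.exp v := lt_of_le_of_ne (Nat.floor_le (Real.exp_pos v).le)
    (fun h => hv _ h.symm)
  have hloc : ∀ᶠ w in 𝓝 v, Mx (Real.exp w) = Mx (Real.exp v) := by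
    have e1 : ∀ᶠ w in 𝓝 v, (⌊Real.exp v⌋₊ : ℝ) < Real.exp w :=
      Real.continuous_exp.continuousAt.eventually (lt_mem_nhds hfl)
    have e2 : ∀ᶠ w in 𝓝 v, Real.exp w < (⌊Real.exp v⌋₊ : ℝ) + 1 :=
      Real.continuous_exp.continuousAt.eventually (gt_mem_nhds (Nat.lt_floor_add_one _))
    filter_upwards [e1, e2] with w h2 h3
    have h4 : ⌊Real.exp w⌋₊ = ⌊Real.exp v⌋₊ := by
      rw [Nat.floor_eq_iff (Real.exp_pos w).le]
      exact ⟨h2.le, h3⟩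
    rw [Mx_eq, Mx_eq, h4]
  refine tendsto_integral_of_dominated_convergence
    (fun x => Real.exp v * (Real.exp 1 * Real.exp (-(1 / 4) * x ^ 2))) ?_ ?_ ?_ ?_
  · intro n
    have m1 : Measurable fun x : ℝ => Mx (Real.exp (v - 1 / ((n:ℝ) + 1) * x)) := Mx_meas.comp (by fun_prop)
    have m2 : Measurable (gk 1) := by
      unfold gk
      fun_prop
    exact (m1.mul m2).aestronglyMeasurable
  · exact ((integrable_exp_neg_mul_sq (by norm_num : (0:ℝ) < 1 / 4)).const_mul _).const_mul _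
  · intro n
    refine Eventually.of_forall fun x => ?_
    rw [Real.norm_eq_abs, abs_mul, abs_of_pos (gk_pos x)]
    have h2 := Mx_abs (Real.exp_pos (v - 1 / ((n:ℝ) + 1) * x)).le
    have h3 : Real.exp (v - 1 / ((n:ℝ) + 1) * x) ≤ Real.exp v * Real.exp |x| := by
      rw [← Real.exp_add, Real.exp_le_exp]
      have h4 : |1 / ((n:ℝ) + 1) * x| ≤ |x| := by
        rw [abs_mul, abs_of_pos (by positivity)]
        refine mul_le_of_le_one_left (abs_nonneg _) ?_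
        rw [div_le_one (by positivity)]
        have : (0:ℝ) ≤ n := Nat.cast_nonneg n
        linarith
      have := neg_abs_le (1 / ((n:ℝ) + 1) * x)
      linarith
    have h5 := gk_dom x
    have h6 := (gk_pos x).le
    calc |Mx (Real.exp (v - 1 / ((n:ℝ) + 1) * x))| * gk 1 x ≤ (Real.exp v * Real.exp |x|) * gk 1 x :=
          mul_le_mul_of_nonneg_right (h2.trans h3) h6
      _ = Real.exp v * (Real.exp |x| * gk 1 x) := by ring
      _ ≤ Real.exp v * (Real.exp 1 * Real.exp (-(1 / 4) * x ^ 2)) := by gcongr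
  · refine Eventually.of_forall fun x => ?_
    refine Tendsto.mul_const _ ?_
    have h2 : Tendsto (fun n : ℕ => v - 1 / ((n:ℝ) + 1) * x) atTop (𝓝 v) := by
      have h3 := (tendsto_one_div_add_atTop_nhds_zero_nat (𝕜 := ℝ)).mul_const x
      have h4 := h3.const_sub v
      rw [zero_mul, sub_zero] at h4
      exact h4
    refine tendsto_const_nhds.congr' ?_
    filter_upwards [h2.eventually hloc] with n hn
    exact hn.symm

/-! ## The bound for the difference -/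

/-- the pointwise square -/
noncomputable def DQ (α β δ v : ℝ) : ℝ :=
  (Mx (Real.exp (v + Real.log β)) - Mx (Real.exp (v + Real.log α))) ^ 2 * Real.exp (-(2 * (1 / 2 + δ) * v))

lemma ae_shift_ne (a : ℝ) : ∀ᵐ v : ℝ, ∀ n : ℕ, Real.exp (v + a) ≠ n := by
  rw [ae_all_iff]
  intro n
  have h : ∀ᵐ v : ℝ, v ∉ ({Real.log n - a} : Set ℝ) := (Set.countable_singleton _).ae_notMem _
  refine h.mono fun v hv h2 => hv ?_
  have h3 : v + a = Real.log n := by rw [← h2, Real.log_exp]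
  rw [mem_singleton_iff]
  linarith

theorem fatou {α β δ B : ℝ} (hB : ∀ h : ℝ, 0 < h → h ≤ 1 →
    ∫⁻ v : ℝ, ENNReal.ofReal ((Sm h (v + Real.log β) - Sm h (v + Real.log α)) ^ 2 *
      Real.exp (-(2 * (1 / 2 + δ) * v))) ≤ ENNReal.ofReal B) :
    ∫⁻ v : ℝ, ENNReal.ofReal (DQ α β δ v) ≤ ENNReal.ofReal B := by
  have h1 : ∫⁻ v : ℝ, ENNReal.ofReal (DQ α β δ v) ≤ ∫⁻ v : ℝ, liminf (fun n : ℕ =>
      ENNReal.ofReal ((Sm (1 / ((n:ℝ) + 1)) (v + Real.log β) - Sm (1 / ((n:ℝ) + 1)) (v + Real.log α)) ^ 2 *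
      Real.exp (-(2 * (1 / 2 + δ) * v)))) atTop := by
    refine lintegral_mono_ae ?_
    filter_upwards [ae_shift_ne (Real.log β), ae_shift_ne (Real.log α)] with v h2 h3
    have h4 := (((Sm_lim h2).sub (Sm_lim h3)).pow 2).mul_const (Real.exp (-(2 * (1 / 2 + δ) * v)))
    have h5 := (ENNReal.continuous_ofReal.tendsto _).comp h4
    exact le_of_eq h5.liminf_eq.symm
  refine h1.trans ?_
  refine (lintegral_liminf_le' fun n => ?_).trans ?_
  · have m1 : Measurable fun v : ℝ => Sm (1 / ((n:ℝ) + 1)) (v + Real.log β) := (Sm_meas _).comp (by fun_prop)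
    have m2 : Measurable fun v : ℝ => Sm (1 / ((n:ℝ) + 1)) (v + Real.log α) := (Sm_meas _).comp (by fun_prop)
    exact (((m1.sub m2).pow_const 2).mul (by fun_prop)).ennreal_ofReal.aemeasurable
  · refine (liminf_le_liminf (v := fun _ : ℕ => ENNReal.ofReal B) (Eventually.of_forall fun n => ?_)).trans ?_
    · refine hB _ (by positivity) ?_
      rw [div_le_one (by positivity)]
      have : (0:ℝ) ≤ n := Nat.cast_nonneg n
      linarith
    · simp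

theorem mean_bd (hR : RHS) {C : ℝ} (hC : 0 < C) (hN : ∀ T : ℝ, 0 ≤ T → NN zz gm T ≤ C * (1 + T)) :
    ∃ K : ℝ, 0 < K ∧ ∀ T u L : ℝ, 1 ≤ T → u ∈ Icc (1:ℝ) 2 → 1 / 2 ≤ L → T ≤ Real.exp L →
      mn (fun v => DD (u - 1 / (2 * T)) (u + 1 / (2 * T)) v ^ 2) L ≤ K / T := by
  have H : ∀ ρ ∈ NT, ρ.re = 1 / 2 ∧ deriv riemannZeta ρ ≠ 0 := fun ρ hρ => hR ρ hρ.1 hρ.2.1 hρ.2.2
  have hRH : RHp := fun ρ hρ => (H ρ hρ).1
  obtain ⟨C1, hC1, hL2⟩ := L2w Pool.Agent.W120.WM.uPT Pool.Agent.W752.WM.u_DBL H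
  have hINV : Pool.Agent.W120.WM.U_INV :=
    Pool.Agent.W897.WM.inv2 Pool.Agent.W150.WM.inv Pool.Agent.W565.WM.t_res
  refine ⟨1280 * C1 * C, by positivity, fun T u L hT hu hL hTL => ?_⟩
  obtain ⟨w1, w2, -⟩ := window hT hu
  have hT0 : 0 < T := by linarith
  have hL0 : 0 < L := by linarith
  obtain ⟨α, hα⟩ : ∃ α : ℝ, α = u - 1 / (2 * T) := ⟨_, rfl⟩
  obtain ⟨β, hβ⟩ : ∃ β : ℝ, β = u + 1 / (2 * T) := ⟨_, rfl⟩
  obtain ⟨δ, hδ⟩ : ∃ δ : ℝ, δ = 1 / (8 * L) := ⟨_, rfl⟩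
  have hδ0 : 0 < δ := by rw [hδ]; positivity
  have hδ1 : δ ≤ 1 / 4 := by
    rw [hδ, div_le_div_iff₀ (by positivity) (by norm_num)]
    linarith
  obtain ⟨S, hS⟩ : ∃ S : ℝ, S = 40 * C * T ^ (2 * δ) / T := ⟨_, rfl⟩
  have hS0 : 0 ≤ S := by rw [hS]; positivity
  have b1 : ∫⁻ v : ℝ, ENNReal.ofReal (DQ α β δ v) ≤ ENNReal.ofReal (C1 * S / δ) := by
    refine fatou fun h hh hh1 => ?_
    have c1 := hL2 T u δ h S hT hu hδ0 hδ1 hh hh1 (fun Z hZ => by
      rw [hS]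
      exact zsum hR hC hN hT hδ0 hδ1 Z hZ)
    rw [← hα, ← hβ] at c1
    obtain ⟨d1, d2⟩ := Dh_inv hINV hRH (α := α) (β := β) (hα ▸ w1) (hβ ▸ w2) hδ0 (by linarith) hh hh1
    exact (plg d1 d2 (ne_top_of_le_ne_top ENNReal.ofReal_ne_top c1)).trans c1
  have hpt : ∀ v ∈ Ioc 0 L, DD α β v ^ 2 ≤ 2 * DQ α β δ v := by
    intro v hv
    rw [DD_eq (hα ▸ w1) (hβ ▸ w2), mul_pow]
    unfold DQ
    have e1 : Real.exp (v + Real.log β) = β * Real.exp v := by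
      rw [Real.exp_add, Real.exp_log (hβ ▸ w2), mul_comm]
    have e2 : Real.exp (v + Real.log α) = α * Real.exp v := by
      rw [Real.exp_add, Real.exp_log (hα ▸ w1), mul_comm]
    rw [e1, e2]
    have e3 : Real.exp (-(v / 2)) ^ 2 ≤ 2 * Real.exp (-(2 * (1 / 2 + δ) * v)) := by
      have e4 : Real.exp (-(v / 2)) ^ 2 = Real.exp (2 * δ * v) * Real.exp (-(2 * (1 / 2 + δ) * v)) := by
        rw [← Real.exp_nat_mul, ← Real.exp_add]
        congr 1
        push_cast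
        ring
      rw [e4]
      refine mul_le_mul_of_nonneg_right ?_ (Real.exp_pos _).le
      have h3 : 2 * δ * v ≤ 1 / 2 := by
        have h4 : δ * v ≤ 1 / 8 := by
          rw [hδ, one_div_mul_eq_div, div_le_div_iff₀ (by positivity) (by norm_num)]
          linarith [hv.2]
        linarith
      have h4 : Real.exp (2 * δ * v) ≤ Real.exp (1 / 2) := Real.exp_le_exp.2 h3
      have h5 : Real.exp (1 / 2 : ℝ) ^ 2 ≤ 4 := by
        rw [← Real.exp_nat_mul]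
        have h6 := Real.exp_one_lt_d9
        norm_num
        linarith
      have h7 : Real.exp (1 / 2 : ℝ) ≤ 2 := by
        have := Real.exp_pos (1 / 2 : ℝ)
        nlinarith
      linarith
    have h8 := sq_nonneg (Mx (β * Real.exp v) - Mx (α * Real.exp v))
    calc (Mx (β * Real.exp v) - Mx (α * Real.exp v)) ^ 2 * Real.exp (-(v / 2)) ^ 2 ≤
        (Mx (β * Real.exp v) - Mx (α * Real.exp v)) ^ 2 * (2 * Real.exp (-(2 * (1 / 2 + δ) * v))) :=
          mul_le_mul_of_nonneg_left e3 h8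
      _ = _ := by ring
  have b2 : ∫ v in (0:ℝ)..L, DD α β v ^ 2 ≤ 2 * (C1 * S / δ) := by
    rw [intervalIntegral.integral_of_le hL0.le]
    have hi : IntegrableOn (fun v => DD α β v ^ 2) (Ioc 0 L) :=
      (intervalIntegrable_iff_integrableOn_Ioc_of_le hL0.le).1 ((DD_LL α β).sq.ii 0 L)
    have h1 : ENNReal.ofReal (∫ v in Ioc 0 L, DD α β v ^ 2) ≤ ENNReal.ofReal (2 * (C1 * S / δ)) := by
      rw [ofReal_integral_eq_lintegral_ofReal hi (Eventually.of_forall fun v => sq_nonneg _)]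
      calc ∫⁻ v in Ioc 0 L, ENNReal.ofReal (DD α β v ^ 2) ≤ ∫⁻ v in Ioc 0 L, ENNReal.ofReal 2 * ENNReal.ofReal (DQ α β δ v) := by
            refine setLIntegral_mono' measurableSet_Ioc fun v hv => ?_
            rw [← ENNReal.ofReal_mul (by norm_num)]
            exact ENNReal.ofReal_le_ofReal (hpt v hv)
        _ ≤ ∫⁻ v, ENNReal.ofReal 2 * ENNReal.ofReal (DQ α β δ v) := setLIntegral_le_lintegral _ _
        _ = ENNReal.ofReal 2 * ∫⁻ v, ENNReal.ofReal (DQ α β δ v) := lintegral_const_mul' _ _ ENNReal.ofReal_ne_top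
        _ ≤ ENNReal.ofReal 2 * ENNReal.ofReal (C1 * S / δ) := by gcongr
        _ = _ := by rw [← ENNReal.ofReal_mul (by norm_num)]
    exact (ENNReal.ofReal_le_ofReal_iff (by positivity)).1 h1
  rw [← hα, ← hβ]
  unfold mn
  rw [div_le_iff₀ hL0]
  refine b2.trans ?_
  have hTp : T ^ (2 * δ) ≤ 2 := by
    calc T ^ (2 * δ) ≤ (Real.exp L) ^ (2 * δ) := Real.rpow_le_rpow hT0.le hTL (by positivity)
      _ = Real.exp (1 / 4) := by
          rw [← Real.exp_mul]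
          congr 1
          rw [hδ]
          field_simp
          norm_num
      _ ≤ 2 := by
          have h5 : Real.exp (1 / 4 : ℝ) ^ 4 ≤ 3 := by
            rw [← Real.exp_nat_mul]
            have h6 := Real.exp_one_lt_d9
            norm_num
            linarith
          by_contra hcon
          push Not at hcon
          have h7 : (2:ℝ) ^ 4 < Real.exp (1 / 4 : ℝ) ^ 4 := pow_lt_pow_left₀ hcon (by norm_num) (by norm_num)
          norm_num at h7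
          linarith
  calc 2 * (C1 * S / δ) = 640 * C1 * C * T ^ (2 * δ) * L / T := by
        rw [hS, hδ]
        field_simp
        ring
    _ ≤ 640 * C1 * C * 2 * L / T := by gcongr
    _ = 1280 * C1 * C / T * L := by ring

/-- bound for the average over `u` -/
theorem EE_bd (hR : RHS) {C : ℝ} (hC : 0 < C) (hN : ∀ T : ℝ, 0 ≤ T → NN zz gm T ≤ C * (1 + T)) :
    ∃ K : ℝ, 0 < K ∧ ∀ T L : ℝ, 1 ≤ T → 1 / 2 ≤ L → T ≤ Real.exp L → EE T L ≤ K := by
  obtain ⟨K, hK, h⟩ := mean_bd hR hC hN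
  refine ⟨K, hK, fun T L hT hL hTL => ?_⟩
  have hT0 : 0 < T := by linarith
  have hL0 : 0 < L := by linarith
  unfold EE
  have h1 := intervalIntegral.norm_integral_le_of_norm_le_const (a := 1) (b := 2) (C := K / T)
    (f := fun u : ℝ => mn (fun v => DD (u - 1 / (2 * T)) (u + 1 / (2 * T)) v ^ 2) L) (fun u hu => by
      rw [uIoc_of_le one_le_two] at hu
      rw [Real.norm_eq_abs, abs_of_nonneg (mn_nonneg (fun v => sq_nonneg _) hL0)]
      exact h T u L hT ⟨hu.1.le, hu.2⟩ hL hTL)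
  have h2 := (le_abs_self _).trans h1
  have h3 : K / T * |(2:ℝ) - 1| = K / T := by norm_num
  rw [h3] at h2
  calc T * ∫ u in (1:ℝ)..2, mn (fun v => DD (u - 1 / (2 * T)) (u + 1 / (2 * T)) v ^ 2) L ≤ T * (K / T) := by gcongr
    _ = K := by field_simp

end Pool.Agent.Y763.GC
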