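import Pool.Agent.Y763.GC.G2

/-! The uniform bound: conclusion. -/

set_option autoImplicit false

open MeasureTheory Filter Topology Set

namespace Pool.Agent.Y763.GC

open Pool.Agent.W120.WM (NT ZC)
open Pool.Agent.H295R2 (Mx Mx_meas)
open Pool.Agent.TH223.AP (mn SS)

/-! ## Windows of length at most one -/

lemma short_sq {a b : ℝ} (ha : 0 ≤ a) (hab : a ≤ b) (hb : b ≤ a + 1) :
    (Mx b - Mx a) ^ 2 ≤ (⌊b⌋₊ : ℝ) - ⌊a⌋₊ := by
  have h1 : ⌊a⌋₊ ≤ ⌊b⌋₊ := Nat.floor_mono hab
  have h2 : ⌊b⌋₊ ≤ ⌊a⌋₊ + 1 := by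
    rw [← Nat.floor_add_one ha]
    exact Nat.floor_mono hb
  have h3 : |Mx b - Mx a| ≤ (⌊b⌋₊ : ℝ) - ⌊a⌋₊ := Pool.Agent.W143.WM.Sn_diff ⌊a⌋₊ ⌊b⌋₊ h1
  have h4 : (⌊b⌋₊ : ℝ) - ⌊a⌋₊ ≤ 1 := by
    have : (⌊b⌋₊ : ℝ) ≤ ⌊a⌋₊ + 1 := by exact_mod_cast h2
    linarith
  have h5 := abs_nonneg (Mx b - Mx a)
  rw [← sq_abs]
  nlinarith

lemma VV_short {T X : ℝ} (hX : 1 ≤ X) (hXT : X ≤ T) : VV X (X / T) ≤ 3 * (X / T) := by
  have hT : 1 ≤ T := hX.trans hXT
  have hT0 : 0 < T := by linarith
  have hX0 : 0 < X := by linarith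
  obtain ⟨hT1, hT2⟩ := inv_T hT
  rw [VV_eq hT hX0]
  obtain ⟨h, hh⟩ : ∃ h : ℝ, h = 1 / (2 * T) := ⟨_, rfl⟩
  rw [← hh] at hT1 hT2 ⊢
  have h2 : 2 * h * X = X / T := by rw [hh]; field_simp
  have h2' : 2 * h * X ≤ 1 := by rw [h2]; exact (div_le_one hT0).2 hXT
  obtain ⟨φ, hφ⟩ : ∃ φ : ℝ → ℝ, φ = fun u => ((⌊u * X⌋₊ : ℕ) : ℝ) := ⟨_, rfl⟩
  have hm : Monotone φ := by
    intro a b hab
    rw [hφ]
    simp only
    exact_mod_cast Nat.floor_mono (mul_le_mul_of_nonneg_right hab hX0.le)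
  have hi : ∀ a b : ℝ, IntervalIntegrable φ volume a b := fun a b => hm.intervalIntegrable
  have hi1 : IntervalIntegrable (fun u => φ (u + h)) volume 1 2 :=
    (hm.comp (monotone_id.add_const h)).intervalIntegrable
  have hi2 : IntervalIntegrable (fun u => φ (u - h)) volume 1 2 := by
    have := (hm.comp (monotone_id.add_const (-h))).intervalIntegrable (μ := volume) (a := 1) (b := 2)
    exact this
  have hpt : ∀ u ∈ Icc (1:ℝ) 2, (Mx ((u + h) * X) - Mx ((u - h) * X)) ^ 2 ≤ φ (u + h) - φ (u - h) := by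
    intro u hu
    have hu1 := hu.1
    have := short_sq (a := (u - h) * X) (b := (u + h) * X) (by nlinarith) (by nlinarith) (by nlinarith)
    rw [hφ]
    exact this
  have hmeas : IntervalIntegrable (fun u => (Mx ((u + h) * X) - Mx ((u - h) * X)) ^ 2) volume 1 2 := by
    rw [intervalIntegrable_iff_integrableOn_Icc_of_le one_le_two]
    refine Integrable.mono' (g := fun u => φ (u + h) - φ (u - h)) ?_ ?_ ?_
    · exact (intervalIntegrable_iff_integrableOn_Icc_of_le one_le_two).1 (hi1.sub hi2)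
    · have m1 : Measurable fun u : ℝ => Mx ((u + h) * X) := Mx_meas.comp (by fun_prop)
      have m2 : Measurable fun u : ℝ => Mx ((u - h) * X) := Mx_meas.comp (by fun_prop)
      exact ((m1.sub m2).pow_const 2).aestronglyMeasurable
    · refine (ae_restrict_mem measurableSet_Icc).mono fun u hu => ?_
      rw [Real.norm_eq_abs, abs_of_nonneg (sq_nonneg _)]
      exact hpt u hu
  have h3 : ∫ u in (1:ℝ)..2, (Mx ((u + h) * X) - Mx ((u - h) * X)) ^ 2 ≤
      (∫ u in (1:ℝ)..2, φ (u + h)) - ∫ u in (1:ℝ)..2, φ (u - h) := by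
    rw [← intervalIntegral.integral_sub hi1 hi2]
    exact intervalIntegral.integral_mono_on one_le_two hmeas (hi1.sub hi2) hpt
  rw [intervalIntegral.integral_comp_add_right φ h, intervalIntegral.integral_comp_sub_right φ h] at h3
  have e1 : ∫ u in (1 + h)..(2 + h), φ u = (∫ u in (1 + h)..(2 - h), φ u) + ∫ u in (2 - h)..(2 + h), φ u :=
    (intervalIntegral.integral_add_adjacent_intervals (hi _ _) (hi _ _)).symm
  have e2 : ∫ u in (1 - h)..(2 - h), φ u = (∫ u in (1 - h)..(1 + h), φ u) + ∫ u in (1 + h)..(2 - h), φ u :=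
    (intervalIntegral.integral_add_adjacent_intervals (hi _ _) (hi _ _)).symm
  have e3 : ∫ u in (2 - h)..(2 + h), φ u ≤ 2 * h * ((2 + h) * X) := by
    have h4 : ∫ u in (2 - h)..(2 + h), φ u ≤ ∫ u in (2 - h)..(2 + h), (2 + h) * X := by
      refine intervalIntegral.integral_mono_on (by linarith) (hi _ _) intervalIntegrable_const (fun u hu => ?_)
      rw [hφ]
      simp only
      have h5 : 0 ≤ u := by linarith [hu.1]
      refine (Nat.floor_le (by positivity)).trans ?_
      exact mul_le_mul_of_nonneg_right hu.2 hX0.le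
    refine h4.trans (le_of_eq ?_)
    rw [intervalIntegral.integral_const, smul_eq_mul]
    ring
  have e4 : 2 * h * ((1 - h) * X - 1) ≤ ∫ u in (1 - h)..(1 + h), φ u := by
    have h4 : ∫ u in (1 - h)..(1 + h), ((1 - h) * X - 1) ≤ ∫ u in (1 - h)..(1 + h), φ u := by
      refine intervalIntegral.integral_mono_on (by linarith) intervalIntegrable_const (hi _ _) (fun u hu => ?_)
      rw [hφ]
      simp only
      have h5 := Nat.lt_floor_add_one (u * X)
      have h6 : (1 - h) * X ≤ u * X := mul_le_mul_of_nonneg_right hu.1 hX0.le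
      linarith
    refine le_trans (le_of_eq ?_) h4
    rw [intervalIntegral.integral_const, smul_eq_mul]
    ring
  rw [e1, e2] at h3
  have e5 : 2 * h * ((2 + h) * X) - 2 * h * ((1 - h) * X - 1) ≤ 3 * (2 * h * X) := by
    nlinarith [mul_pos hT1 hX0]
  rw [← h2]
  linarith

lemma VL_short {T Y : ℝ} (hY : 1 < Y) (hYT : Y ≤ T) : VL T Y ≤ 3 := by
  have hL : 0 < Real.log Y := Real.log_pos hY
  have hT0 : 0 < T := by linarith
  unfold VL
  have h1 : ∫ X in (1:ℝ)..Y, VV X (X / T) / (X / T) * (1 / X) ≤ 3 * Real.log Y := by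
    by_cases hi : IntervalIntegrable (fun X => VV X (X / T) / (X / T) * (1 / X)) volume 1 Y
    · have h2 : IntervalIntegrable (fun X : ℝ => 3 * (1 / X)) volume 1 Y := by
        refine ContinuousOn.intervalIntegrable ?_
        rw [uIcc_of_le hY.le]
        refine continuousOn_const.mul (ContinuousOn.div continuousOn_const continuousOn_id fun x hx => ?_)
        have : (0:ℝ) < x := lt_of_lt_of_le one_pos hx.1
        exact this.ne'
      have h3 := intervalIntegral.integral_mono_on hY.le hi h2 (fun X hX => by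
        have hX0 : 0 < X := lt_of_lt_of_le one_pos hX.1
        have h4 := VV_short hX.1 (hX.2.trans hYT)
        have h5 : VV X (X / T) / (X / T) ≤ 3 := by
          rw [div_le_iff₀ (by positivity)]
          exact h4
        gcongr)
      refine h3.trans (le_of_eq ?_)
      rw [intervalIntegral.integral_const_mul, integral_one_div_of_pos one_pos (by linarith), div_one]
    · rw [intervalIntegral.integral_undef hi]
      positivity
  rw [one_div, inv_mul_le_iff₀ hL]
  linarith

/-! ## The equivalence -/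

/-- **uniform boundedness** -/
theorem main2 : List.TFAE [
    ∃ C : ℝ, ∀ T Y : ℝ, 1 ≤ T → 2 ≤ Y → VL T Y ≤ C,
    ∃ C : ℝ, ∀ᶠ T : ℝ in atTop, ∃ᶠ Y : ℝ in atTop, VL T Y ≤ C,
    RHS ∧ ∃ C : ℝ, ∀ T : ℝ, 1 ≤ T → JJm T ≤ C * T] := by
  tfae_have 1 → 2 := by
    rintro ⟨C, hC⟩
    refine ⟨C, ?_⟩
    filter_upwards [eventually_ge_atTop (1:ℝ)] with T hT
    refine Eventually.frequently ?_
    filter_upwards [eventually_ge_atTop (2:ℝ)] with Y hY
    exact hC T Y hT hY
  tfae_have 2 → 3 := by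
    rintro ⟨C, h⟩
    have hZ : ZC := by
      obtain ⟨T, hT, hT1⟩ := (h.and (eventually_ge_atTop (1:ℝ))).exists
      exact ZC_of_VL hT1 hT
    have hS : 0 ≤ SS := tsum_nonneg fun ρ => by positivity
    have haa : ∀ᶠ T : ℝ in atTop, aa T ≤ C := by
      filter_upwards [h, eventually_ge_atTop (1:ℝ)] with T hT hT1
      by_contra hcon
      push Not at hcon
      have h1 := (VL_lim hZ hT1).eventually (lt_mem_nhds hcon)
      obtain ⟨Y, hY1, hY2⟩ := (hT.and_eventually h1).exists
      linarith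
    obtain ⟨D, hD0, hD⟩ := NN_lin_of_aa hZ haa
    have hR := RHS_of_ZC hZ
    refine ⟨hR, 2 * D + SS, fun T hT => ?_⟩
    have h1 := hD T (by linarith)
    have h2 := (NN_zz_om hZ T).2
    rw [NN_zz hR] at h2
    nlinarith
  tfae_have 3 → 1 := by
    rintro ⟨hR, C, hC⟩
    have hN : ∀ T : ℝ, 0 ≤ T → NN zz gm T ≤ (2 * |C| + 1) * (1 + T) := by
      intro T hT
      have hc := le_abs_self C
      have hc0 := abs_nonneg C
      rcases le_total T 1 with h | h
      · have h1 := NN_mono zz_nonneg gm_fin h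
        have h2 := hC 1 le_rfl
        rw [NN_zz hR 1] at h1
        nlinarith [mul_nonneg hc0 hT]
      · have h2 := hC T h
        rw [NN_zz hR]
        nlinarith [mul_nonneg hc0 hT]
    obtain ⟨K, hK, hE⟩ := EE_bd hR (by positivity) hN
    refine ⟨max K 3, fun T Y hT hY => ?_⟩
    have hY0 : 0 < Y := by linarith
    rcases le_total T Y with h | h
    · rw [VL_eq hT (by linarith)]
      refine (hE T (Real.log Y) hT ?_ ?_).trans (le_max_left _ _)
      · have h1 : Real.log 2 ≤ Real.log Y := Real.log_le_log (by norm_num) hY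
        have := Real.log_two_gt_d9
        linarith
      · rw [Real.exp_log hY0]
        exact h
    · exact (VL_short (by linarith) h).trans (le_max_right _ _)
  tfae_finish

end Pool.Agent.Y763.GC
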