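import Mathlib

/-! Karamata's Tauberian theorem for Gaussian means. -/

set_option autoImplicit false

open MeasureTheory Filter Topology Set

namespace Pool.Agent.Y763.GC

/-- the Gaussian integral -/
noncomputable def G0 : ℝ := ∫ t in Ioi (0:ℝ), Real.exp (-t ^ 2)

lemma G0_eq : G0 = √Real.pi / 2 := by
  unfold G0
  have h := integral_gaussian_Ioi 1
  simpa using h

lemma G0_pos : 0 < G0 := by
  rw [G0_eq]
  positivity

lemma gauss_int {b : ℝ} (hb : 0 < b) : IntegrableOn (fun t : ℝ => Real.exp (-b * t ^ 2)) (Ioi 0) :=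
  (integrable_exp_neg_mul_sq hb).integrableOn

lemma gauss_scale {b : ℝ} (hb : 0 < b) :
    ∫ t in Ioi (0:ℝ), Real.exp (-b * t ^ 2) = G0 / √b := by
  rw [integral_gaussian_Ioi b, G0_eq, Real.sqrt_div' _ hb.le]
  ring

variable {ι : Type*} {ω g : ι → ℝ}

/-- the functional -/
noncomputable def LT (ω g : ι → ℝ) (F : ℝ → ℝ) (T : ℝ) : ℝ :=
  (∑' i, ω i * (F (Real.exp (-(g i / T) ^ 2)) * Real.exp (-(g i / T) ^ 2))) / T

/-- the limit functional -/
noncomputable def II (F : ℝ → ℝ) : ℝ := ∫ t in Ioi (0:ℝ), F (Real.exp (-t ^ 2)) * Real.exp (-t ^ 2)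

lemma x_mem (y : ℝ) : Real.exp (-y ^ 2) ∈ Icc (0:ℝ) 1 :=
  ⟨(Real.exp_pos _).le, Real.exp_le_one_iff.2 (by nlinarith [sq_nonneg y])⟩

lemma LT_summ (hω : ∀ i, 0 ≤ ω i) {T : ℝ} (hs : Summable fun i => ω i * Real.exp (-(g i / T) ^ 2))
    {F : ℝ → ℝ} {B : ℝ} (hB : ∀ x ∈ Icc (0:ℝ) 1, |F x| ≤ B) :
    Summable fun i => ω i * (F (Real.exp (-(g i / T) ^ 2)) * Real.exp (-(g i / T) ^ 2)) := by
  refine Summable.of_norm_bounded (hs.mul_left B) (fun i => ?_)
  rw [Real.norm_eq_abs, abs_mul, abs_mul, abs_of_nonneg (hω i), abs_of_pos (Real.exp_pos _)]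
  have h1 := hB _ (x_mem (g i / T))
  have h2 := hω i
  have h3 := (Real.exp_pos (-(g i / T) ^ 2)).le
  calc ω i * (|F (Real.exp (-(g i / T) ^ 2))| * Real.exp (-(g i / T) ^ 2))
      ≤ ω i * (B * Real.exp (-(g i / T) ^ 2)) := by gcongr
    _ = B * (ω i * Real.exp (-(g i / T) ^ 2)) := by ring

lemma II_int {F : ℝ → ℝ} (hF : Measurable F) {B : ℝ} (hB : ∀ x ∈ Icc (0:ℝ) 1, |F x| ≤ B) :
    IntegrableOn (fun t : ℝ => F (Real.exp (-t ^ 2)) * Real.exp (-t ^ 2)) (Ioi 0) := by
  have h0 : IntegrableOn (fun t : ℝ => B * Real.exp (-t ^ 2)) (Ioi 0) := by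
    have := (gauss_int one_pos).const_mul B
    simp only [neg_mul, one_mul] at this
    exact this
  refine Integrable.mono' h0 ?_ (Eventually.of_forall fun t => ?_)
  · exact ((hF.comp (by fun_prop)).mul (by fun_prop)).aestronglyMeasurable
  · rw [Real.norm_eq_abs, abs_mul, abs_of_pos (Real.exp_pos _)]
    exact mul_le_mul_of_nonneg_right (hB _ (x_mem t)) (Real.exp_pos _).le

lemma poly_bd (p : Polynomial ℝ) : ∃ B : ℝ, ∀ x ∈ Icc (0 : ℝ) 1, |p.eval x| ≤ B :=
  isCompact_Icc.exists_bound_of_continuousOn p.continuous.continuousOn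

lemma LT_poly (hω : ∀ i, 0 ≤ ω i)
    (hs : ∀ T : ℝ, 0 < T → Summable fun i => ω i * Real.exp (-(g i / T) ^ 2)) {A : ℝ}
    (h : Tendsto (fun T : ℝ => (∑' i, ω i * Real.exp (-(g i / T) ^ 2)) / T) atTop (𝓝 (A * G0)))
    (p : Polynomial ℝ) :
    Tendsto (LT ω g fun x => p.eval x) atTop (𝓝 (A * II fun x => p.eval x)) := by
  induction p using Polynomial.induction_on' with
  | add p q hp hq =>
    obtain ⟨B1, hB1⟩ := poly_bd p
    obtain ⟨B2, hB2⟩ := poly_bd q
    have e1 : (II fun x => (p + q).eval x) = (II fun x => p.eval x) + II fun x => q.eval x := by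
      unfold II
      rw [← integral_add (II_int p.continuous.measurable hB1) (II_int q.continuous.measurable hB2)]
      refine integral_congr_ae (Eventually.of_forall fun t => ?_)
      simp only [Polynomial.eval_add]
      ring
    rw [e1, mul_add]
    refine (hp.add hq).congr' ?_
    filter_upwards [eventually_gt_atTop (0:ℝ)] with T hT
    unfold LT
    rw [← add_div, ← (LT_summ hω (hs T hT) hB1).tsum_add (LT_summ hω (hs T hT) hB2)]
    congr 1
    refine tsum_congr fun i => ?_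
    simp only [Polynomial.eval_add]
    ring
  | monomial n a =>
    have hn : (0:ℝ) < (n:ℝ) + 1 := by positivity
    have hn' : 0 < √((n:ℝ) + 1) := Real.sqrt_pos.2 hn
    have e1 : (II fun x => (Polynomial.monomial n a).eval x) = a * (G0 / √((n:ℝ) + 1)) := by
      unfold II
      rw [← gauss_scale hn, ← integral_const_mul]
      refine integral_congr_ae (Eventually.of_forall fun t => ?_)
      simp only [Polynomial.eval_monomial]
      rw [mul_assoc, ← pow_succ, ← Real.exp_nat_mul]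
      congr 2
      push_cast
      ring
    have h2 := (h.comp (tendsto_id.atTop_mul_const (inv_pos.2 hn'))).const_mul (a / √((n:ℝ) + 1))
    rw [e1]
    have e2 : A * (a * (G0 / √((n:ℝ) + 1))) = a / √((n:ℝ) + 1) * (A * G0) := by ring
    rw [e2]
    refine h2.congr' ?_
    filter_upwards [eventually_gt_atTop (0:ℝ)] with T hT
    simp only [Function.comp, id]
    unfold LT
    have e3 : ∀ i, ω i * ((Polynomial.monomial n a).eval (Real.exp (-(g i / T) ^ 2)) *
        Real.exp (-(g i / T) ^ 2)) = a * (ω i * Real.exp (-(g i / (T * (√((n:ℝ) + 1))⁻¹)) ^ 2)) := by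
      intro i
      simp only [Polynomial.eval_monomial]
      rw [mul_assoc, ← pow_succ, ← Real.exp_nat_mul]
      have e4 : (((n + 1 : ℕ) : ℝ) * -(g i / T) ^ 2) = -(g i / (T * (√((n:ℝ) + 1))⁻¹)) ^ 2 := by
        push_cast
        have e5 : g i / (T * (√((n:ℝ) + 1))⁻¹) = g i / T * √((n:ℝ) + 1) := by
          field_simp
        rw [e5, mul_pow, Real.sq_sqrt hn.le]
        ring
      rw [e4]
      ring
    rw [tsum_congr e3, tsum_mul_left]
    field_simp

/-- ramp functions -/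
noncomputable def hp (a b x : ℝ) : ℝ := min 1 (max 0 ((x - a) / (b - a))) / max x a

lemma hp_cont {a b : ℝ} (ha : 0 < a) : Continuous (hp a b) := by
  unfold hp
  refine Continuous.div (by fun_prop) (by fun_prop) (fun x => ?_)
  have : a ≤ max x a := le_max_right _ _
  linarith

lemma hp_nonneg {a b : ℝ} (ha : 0 < a) (x : ℝ) : 0 ≤ hp a b x := by
  unfold hp
  have : a ≤ max x a := le_max_right _ _
  exact div_nonneg (le_min zero_le_one (le_max_left _ _)) (by linarith)

lemma hp_low {a b : ℝ} (hab : a < b) {x : ℝ} (hx : x ≤ a) : hp a b x = 0 := by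
  unfold hp
  have h1 : (x - a) / (b - a) ≤ 0 := div_nonpos_of_nonpos_of_nonneg (by linarith) (by linarith)
  rw [max_eq_left h1, min_eq_right zero_le_one, zero_div]

lemma hp_high {a b : ℝ} (hab : a < b) {x : ℝ} (hx : b ≤ x) : hp a b x = 1 / x := by
  unfold hp
  have h1 : 1 ≤ (x - a) / (b - a) := by
    rw [le_div_iff₀ (by linarith)]
    linarith
  rw [max_eq_right (by linarith), min_eq_left h1, max_eq_left (by linarith)]

lemma hp_le {a b : ℝ} (ha : 0 < a) {x : ℝ} (hx : a ≤ x) : hp a b x ≤ 1 / x := by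
  unfold hp
  rw [max_eq_left hx]
  exact div_le_div_of_nonneg_right (min_le_left _ _) (by linarith)

/-- the step function -/
noncomputable def st (x : ℝ) : ℝ := if Real.exp (-1) ≤ x then 1 / x else 0

lemma st_eval (y : ℝ) (hy : 0 ≤ y) : st (Real.exp (-y ^ 2)) * Real.exp (-y ^ 2) = if y ≤ 1 then 1 else 0 := by
  unfold st
  by_cases h : y ≤ 1
  · rw [if_pos h, if_pos (Real.exp_le_exp.2 (by nlinarith))]
    exact one_div_mul_cancel (Real.exp_pos _).ne'
  · rw [if_neg h, if_neg, zero_mul]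
    rw [Real.exp_le_exp]
    push Not at h ⊢
    nlinarith

lemma poly_up {δ : ℝ} (hδ : 0 < δ) : ∃ p : Polynomial ℝ, (∀ x ∈ Icc (0:ℝ) 1, st x ≤ p.eval x) ∧
    (II fun x => p.eval x) ≤ 1 + δ := by
  obtain ⟨b, hb1, hb2, hb3⟩ : ∃ b : ℝ, 1 < b ∧ b ≤ 2 ∧ Real.exp 3 * (b - 1) ≤ δ / 2 := by
    refine ⟨1 + min 1 (δ / 2 / Real.exp 3), ?_, ?_, ?_⟩
    · have : 0 < min 1 (δ / 2 / Real.exp 3) := lt_min one_pos (by positivity)
      linarith
    · have := min_le_left 1 (δ / 2 / Real.exp 3)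
      linarith
    · have := min_le_right 1 (δ / 2 / Real.exp 3)
      calc Real.exp 3 * (1 + min 1 (δ / 2 / Real.exp 3) - 1) = Real.exp 3 * min 1 (δ / 2 / Real.exp 3) := by ring
        _ ≤ Real.exp 3 * (δ / 2 / Real.exp 3) := by gcongr
        _ = δ / 2 := by field_simp
  obtain ⟨a, ha⟩ : ∃ a : ℝ, a = Real.exp (-b ^ 2) := ⟨_, rfl⟩
  have ha0 : 0 < a := ha ▸ Real.exp_pos _
  have hab : a < Real.exp (-1) := by
    rw [ha, Real.exp_lt_exp]
    nlinarith
  obtain ⟨η, hη⟩ : ∃ η : ℝ, η = δ / (4 * G0) := ⟨_, rfl⟩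
  have hG := G0_pos
  have hη0 : 0 < η := by rw [hη]; positivity
  obtain ⟨p, hpp⟩ := exists_polynomial_near_of_continuousOn 0 1 (fun x => hp a (Real.exp (-1)) x + η)
    ((hp_cont ha0).add continuous_const).continuousOn η hη0
  refine ⟨p, fun x hx => ?_, ?_⟩
  · have h1 := (abs_lt.1 (hpp x hx)).1
    have h2 : st x ≤ hp a (Real.exp (-1)) x := by
      unfold st
      by_cases h : Real.exp (-1) ≤ x
      · rw [if_pos h, hp_high hab h]
      · rw [if_neg h]
        exact hp_nonneg ha0 x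
    linarith
  · have hdom : ∀ t ∈ Ioi (0:ℝ), p.eval (Real.exp (-t ^ 2)) * Real.exp (-t ^ 2) ≤
        (Ioc (0:ℝ) 1).indicator (fun _ => (1:ℝ)) t + (Ioc (1:ℝ) b).indicator (fun _ => Real.exp 3) t +
          2 * η * Real.exp (-1 * t ^ 2) := by
      intro t ht
      have ht0 : (0:ℝ) < t := ht
      have h1 := (abs_lt.1 (hpp _ (x_mem t))).2
      have hE := Real.exp_pos (-t ^ 2)
      have h2 : p.eval (Real.exp (-t ^ 2)) * Real.exp (-t ^ 2) ≤
          hp a (Real.exp (-1)) (Real.exp (-t ^ 2)) * Real.exp (-t ^ 2) + 2 * η * Real.exp (-t ^ 2) := by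
        nlinarith
      have h3 : hp a (Real.exp (-1)) (Real.exp (-t ^ 2)) * Real.exp (-t ^ 2) ≤
          (Ioc (0:ℝ) 1).indicator (fun _ => (1:ℝ)) t + (Ioc (1:ℝ) b).indicator (fun _ => Real.exp 3) t := by
        rcases le_total b t with h4 | h4
        · rw [hp_low hab (by rw [ha, Real.exp_le_exp]; nlinarith), zero_mul]
          refine add_nonneg ?_ ?_
          · exact Set.indicator_nonneg (fun _ _ => zero_le_one) _
          · exact Set.indicator_nonneg (fun _ _ => (Real.exp_pos _).le) _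
        · have h5 : a ≤ Real.exp (-t ^ 2) := by
            rw [ha, Real.exp_le_exp]
            nlinarith
          have h6 : hp a (Real.exp (-1)) (Real.exp (-t ^ 2)) * Real.exp (-t ^ 2) ≤ 1 := by
            calc hp a (Real.exp (-1)) (Real.exp (-t ^ 2)) * Real.exp (-t ^ 2)
                ≤ 1 / Real.exp (-t ^ 2) * Real.exp (-t ^ 2) := by
                  gcongr
                  exact hp_le ha0 h5
              _ = 1 := one_div_mul_cancel hE.ne'
          rcases le_or_gt t 1 with h7 | h7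
          · rw [indicator_of_mem (show t ∈ Ioc (0:ℝ) 1 from ⟨ht0, h7⟩),
              indicator_of_notMem (fun h => absurd h.1 (not_lt.2 h7)), add_zero]
            exact h6
          · rw [indicator_of_notMem (fun h => absurd h.2 (not_le.2 h7)),
              indicator_of_mem (show t ∈ Ioc (1:ℝ) b from ⟨h7, h4⟩), zero_add]
            refine h6.trans (Real.one_le_exp (by norm_num))
      have e : Real.exp (-1 * t ^ 2) = Real.exp (-t ^ 2) := by
        congr 1
        ring
      rw [e]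
      linarith
    obtain ⟨B, hB⟩ := poly_bd p
    have i1 : IntegrableOn ((Ioc (0:ℝ) 1).indicator fun _ => (1:ℝ)) (Ioi 0) :=
      ((integrable_indicator_iff measurableSet_Ioc).2 (integrableOn_const (by simp))).integrableOn
    have i2 : IntegrableOn ((Ioc (1:ℝ) b).indicator fun _ => Real.exp 3) (Ioi 0) :=
      ((integrable_indicator_iff measurableSet_Ioc).2 (integrableOn_const (by simp))).integrableOn
    have i3 : IntegrableOn (fun t : ℝ => 2 * η * Real.exp (-1 * t ^ 2)) (Ioi 0) :=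
      (gauss_int one_pos).const_mul _
    have h1 : (II fun x => p.eval x) ≤ ∫ t in Ioi (0:ℝ), ((Ioc (0:ℝ) 1).indicator (fun _ => (1:ℝ)) t +
        (Ioc (1:ℝ) b).indicator (fun _ => Real.exp 3) t + 2 * η * Real.exp (-1 * t ^ 2)) := by
      unfold II
      exact setIntegral_mono_on (II_int p.continuous.measurable hB) ((i1.add i2).add i3) measurableSet_Ioi hdom
    refine h1.trans ?_
    have e1 := integral_add (μ := volume.restrict (Ioi (0:ℝ))) (i1.add i2) i3
    have e2 := integral_add (μ := volume.restrict (Ioi (0:ℝ))) i1 i2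
    simp only [Pi.add_apply] at e1
    rw [e1, e2, integral_const_mul, gauss_scale one_pos]
    have e3 : ∫ t in Ioi (0:ℝ), (Ioc (0:ℝ) 1).indicator (fun _ => (1:ℝ)) t = 1 := by
      rw [setIntegral_indicator measurableSet_Ioc, inter_eq_right.2 (fun x hx => hx.1)]
      simp
    have e4 : ∫ t in Ioi (0:ℝ), (Ioc (1:ℝ) b).indicator (fun _ => Real.exp 3) t = Real.exp 3 * (b - 1) := by
      have hsub : Ioi (0:ℝ) ∩ Ioc 1 b = Ioc 1 b :=
        inter_eq_right.2 (fun x hx => show (0:ℝ) < x from lt_trans one_pos hx.1)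
      rw [setIntegral_indicator measurableSet_Ioc, hsub]
      simp [hb1.le, mul_comm]
    rw [e3, e4, Real.sqrt_one, div_one, hη]
    have e5 : 2 * (δ / (4 * G0)) * G0 = δ / 2 := by field_simp; ring
    rw [e5]
    linarith

lemma poly_lo {δ : ℝ} (hδ : 0 < δ) : ∃ p : Polynomial ℝ, (∀ x ∈ Icc (0:ℝ) 1, p.eval x ≤ st x) ∧
    1 - δ ≤ (II fun x => p.eval x) := by
  obtain ⟨b, hb0, hb1, hb2⟩ : ∃ b : ℝ, 0 < b ∧ b < 1 ∧ 1 - δ / 2 ≤ b := by
    refine ⟨max (1 / 2) (1 - δ / 2), ?_, ?_, le_max_right _ _⟩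
    · exact lt_of_lt_of_le (by norm_num) (le_max_left _ _)
    · exact max_lt (by norm_num) (by linarith)
  obtain ⟨a, ha⟩ : ∃ a : ℝ, a = Real.exp (-1) := ⟨_, rfl⟩
  have ha0 : 0 < a := ha ▸ Real.exp_pos _
  have hab : a < Real.exp (-b ^ 2) := by
    rw [ha, Real.exp_lt_exp]
    nlinarith
  obtain ⟨η, hη⟩ : ∃ η : ℝ, η = δ / (4 * G0) := ⟨_, rfl⟩
  have hG := G0_pos
  have hη0 : 0 < η := by rw [hη]; positivity
  obtain ⟨p, hpp⟩ := exists_polynomial_near_of_continuousOn 0 1 (fun x => hp a (Real.exp (-b ^ 2)) x - η)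
    ((hp_cont ha0).sub continuous_const).continuousOn η hη0
  refine ⟨p, fun x hx => ?_, ?_⟩
  · have h1 := (abs_lt.1 (hpp x hx)).2
    have h2 : hp a (Real.exp (-b ^ 2)) x ≤ st x := by
      unfold st
      by_cases h : Real.exp (-1) ≤ x
      · rw [if_pos h]
        exact hp_le ha0 (by rw [ha]; exact h)
      · rw [if_neg h, hp_low hab (by rw [ha]; exact (not_le.1 h).le)]
    linarith
  · have hdom : ∀ t ∈ Ioi (0:ℝ), (Ioc (0:ℝ) b).indicator (fun _ => (1:ℝ)) t -
          2 * η * Real.exp (-1 * t ^ 2) ≤ p.eval (Real.exp (-t ^ 2)) * Real.exp (-t ^ 2) := by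
      intro t ht
      have ht0 : (0:ℝ) < t := ht
      have h1 := (abs_lt.1 (hpp _ (x_mem t))).1
      have hE := Real.exp_pos (-t ^ 2)
      have h2 : hp a (Real.exp (-b ^ 2)) (Real.exp (-t ^ 2)) * Real.exp (-t ^ 2) - 2 * η * Real.exp (-t ^ 2) ≤
          p.eval (Real.exp (-t ^ 2)) * Real.exp (-t ^ 2) := by
        nlinarith
      have h3 : (Ioc (0:ℝ) b).indicator (fun _ => (1:ℝ)) t ≤
          hp a (Real.exp (-b ^ 2)) (Real.exp (-t ^ 2)) * Real.exp (-t ^ 2) := by
        rcases le_or_gt t b with h4 | h4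
        · rw [indicator_of_mem (show t ∈ Ioc (0:ℝ) b from ⟨ht0, h4⟩), hp_high hab (by
            rw [Real.exp_le_exp]; nlinarith), one_div_mul_cancel hE.ne']
        · rw [indicator_of_notMem (fun h => absurd h.2 (not_le.2 h4))]
          exact mul_nonneg (hp_nonneg ha0 _) hE.le
      have e : Real.exp (-1 * t ^ 2) = Real.exp (-t ^ 2) := by
        congr 1
        ring
      rw [e]
      linarith
    obtain ⟨B, hB⟩ := poly_bd p
    have i1 : IntegrableOn ((Ioc (0:ℝ) b).indicator fun _ => (1:ℝ)) (Ioi 0) :=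
      ((integrable_indicator_iff measurableSet_Ioc).2 (integrableOn_const (by simp))).integrableOn
    have i3 : IntegrableOn (fun t : ℝ => 2 * η * Real.exp (-1 * t ^ 2)) (Ioi 0) :=
      (gauss_int one_pos).const_mul _
    have h1 : ∫ t in Ioi (0:ℝ), ((Ioc (0:ℝ) b).indicator (fun _ => (1:ℝ)) t -
        2 * η * Real.exp (-1 * t ^ 2)) ≤ (II fun x => p.eval x) := by
      unfold II
      exact setIntegral_mono_on (i1.sub i3) (II_int p.continuous.measurable hB) measurableSet_Ioi hdom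
    refine le_trans ?_ h1
    rw [integral_sub i1 i3, integral_const_mul, gauss_scale one_pos]
    have e3 : ∫ t in Ioi (0:ℝ), (Ioc (0:ℝ) b).indicator (fun _ => (1:ℝ)) t = b := by
      rw [setIntegral_indicator measurableSet_Ioc, inter_eq_right.2 (fun x hx => hx.1)]
      simp [hb0.le]
    rw [e3, Real.sqrt_one, div_one, hη]
    have e5 : 2 * (δ / (4 * G0)) * G0 = δ / 2 := by field_simp; ring
    rw [e5]
    linarith

/-- the counting function -/
noncomputable def NN (ω g : ι → ℝ) (T : ℝ) : ℝ := ∑' i, if g i ≤ T then ω i else 0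

/-- **Karamata's theorem** -/
theorem karamata (hω : ∀ i, 0 ≤ ω i) (hg : ∀ i, 0 ≤ g i)
    (hs : ∀ T : ℝ, 0 < T → Summable fun i => ω i * Real.exp (-(g i / T) ^ 2)) {A : ℝ}
    (h : Tendsto (fun T : ℝ => (∑' i, ω i * Real.exp (-(g i / T) ^ 2)) / T) atTop (𝓝 (A * G0))) :
    Tendsto (fun T : ℝ => NN ω g T / T) atTop (𝓝 A) := by
  have hA : 0 ≤ A := by
    have h1 : 0 ≤ A * G0 := by
      refine ge_of_tendsto h ?_
      filter_upwards [eventually_gt_atTop (0:ℝ)] with T hT
      exact div_nonneg (tsum_nonneg fun i => mul_nonneg (hω i) (Real.exp_pos _).le) hT.le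
    exact nonneg_of_mul_nonneg_left h1 G0_pos
  have key : ∀ T : ℝ, 0 < T → ∀ i, ω i * (st (Real.exp (-(g i / T) ^ 2)) * Real.exp (-(g i / T) ^ 2)) =
      if g i ≤ T then ω i else 0 := by
    intro T hT i
    rw [st_eval _ (div_nonneg (hg i) hT.le), mul_ite, mul_one, mul_zero]
    simp only [div_le_one hT]
  have hst : ∀ x ∈ Icc (0:ℝ) 1, |st x| ≤ Real.exp 1 := by
    intro x hx
    unfold st
    by_cases h : Real.exp (-1) ≤ x
    · have hx0 : 0 < x := lt_of_lt_of_le (Real.exp_pos _) h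
      rw [if_pos h, abs_of_pos (by positivity), div_le_iff₀ hx0]
      calc (1:ℝ) = Real.exp 1 * Real.exp (-1) := by rw [← Real.exp_add]; simp
        _ ≤ Real.exp 1 * x := by gcongr
    · rw [if_neg h, abs_zero]
      positivity
  have hsN : ∀ T : ℝ, 0 < T → Summable fun i => if g i ≤ T then ω i else 0 := by
    intro T hT
    exact (LT_summ hω (hs T hT) hst).congr (key T hT)
  have hcmp : ∀ (F G : ℝ → ℝ) (B : ℝ), (∀ x ∈ Icc (0:ℝ) 1, |F x| ≤ B) → (∀ x ∈ Icc (0:ℝ) 1, |G x| ≤ B) →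
      (∀ x ∈ Icc (0:ℝ) 1, F x ≤ G x) → ∀ T : ℝ, 0 < T → LT ω g F T ≤ LT ω g G T := by
    intro F G B hF hG hFG T hT
    unfold LT
    refine div_le_div_of_nonneg_right ?_ hT.le
    refine (LT_summ hω (hs T hT) hF).tsum_le_tsum (fun i => ?_) (LT_summ hω (hs T hT) hG)
    have := hFG _ (x_mem (g i / T))
    have h2 := hω i
    gcongr
  have hN : ∀ T : ℝ, 0 < T → NN ω g T / T = LT ω g st T := by
    intro T hT
    unfold NN LT
    rw [tsum_congr (key T hT)]
  rw [Metric.tendsto_nhds]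
  intro ε hε
  obtain ⟨δ, hδ⟩ : ∃ δ : ℝ, δ = ε / (2 * (A + 1)) := ⟨_, rfl⟩
  have hδ0 : 0 < δ := by rw [hδ]; positivity
  have hAδ : A * δ ≤ ε / 2 := by
    rw [hδ]
    have : A * (ε / (2 * (A + 1))) = ε / 2 * (A / (A + 1)) := by field_simp
    rw [this]
    have h2 : A / (A + 1) ≤ 1 := by
      rw [div_le_one (by linarith)]
      linarith
    nlinarith
  obtain ⟨p, hp1, hp2⟩ := poly_up hδ0
  obtain ⟨q, hq1, hq2⟩ := poly_lo hδ0
  obtain ⟨B1, hB1⟩ := poly_bd p
  obtain ⟨B2, hB2⟩ := poly_bd q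
  have t1 := Metric.tendsto_nhds.1 (LT_poly hω hs h p) (ε / 2) (by positivity)
  have t2 := Metric.tendsto_nhds.1 (LT_poly hω hs h q) (ε / 2) (by positivity)
  filter_upwards [t1, t2, eventually_gt_atTop (0:ℝ)] with T h1 h2 hT
  rw [Real.dist_eq] at h1 h2 ⊢
  rw [hN T hT]
  have c1 := hcmp st (fun x => p.eval x) (max (Real.exp 1) B1)
    (fun x hx => (hst x hx).trans (le_max_left _ _)) (fun x hx => (hB1 x hx).trans (le_max_right _ _)) hp1 T hT
  have c2 := hcmp (fun x => q.eval x) st (max (Real.exp 1) B2)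
    (fun x hx => (hB2 x hx).trans (le_max_right _ _)) (fun x hx => (hst x hx).trans (le_max_left _ _)) hq1 T hT
  have d1 := mul_le_mul_of_nonneg_left hp2 hA
  have d2 := mul_le_mul_of_nonneg_left hq2 hA
  rw [abs_lt] at h1 h2 ⊢
  constructor <;> linarith [h1.1, h1.2, h2.1, h2.2]

end Pool.Agent.Y763.GC
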