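import Pool.Agent.Y763.GC.K1

/-! The Abelian theorem. -/

set_option autoImplicit false

open MeasureTheory Filter Topology Set

namespace Pool.Agent.Y763.GC

variable {ι : Type*} {ω g : ι → ℝ}

lemma NN_summ (hfin : ∀ T : ℝ, {i | g i ≤ T}.Finite) (T : ℝ) :
    Summable fun i => if g i ≤ T then ω i else 0 := by
  refine summable_of_hasFiniteSupport ((hfin T).subset fun i hi => ?_)
  by_contra h
  exact hi (if_neg h)

lemma NN_mono (hω : ∀ i, 0 ≤ ω i) (hfin : ∀ T : ℝ, {i | g i ≤ T}.Finite) : Monotone (NN ω g) := by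
  intro a b hab
  unfold NN
  refine (NN_summ hfin a).tsum_le_tsum (fun i => ?_) (NN_summ hfin b)
  by_cases h : g i ≤ a
  · rw [if_pos h, if_pos (h.trans hab)]
  · rw [if_neg h]
    split_ifs
    · exact hω i
    · exact le_rfl

lemma NN_nonneg (hω : ∀ i, 0 ≤ ω i) (T : ℝ) : 0 ≤ NN ω g T := by
  unfold NN
  refine tsum_nonneg fun i => ?_
  split_ifs
  · exact hω i
  · exact le_rfl

lemma NN_eq (hfin : ∀ T : ℝ, {i | g i ≤ T}.Finite) (T : ℝ) :
    NN ω g T = ∑ i ∈ (hfin T).toFinset, ω i := by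
  classical
  unfold NN
  rw [tsum_eq_sum (s := (hfin T).toFinset)]
  · refine Finset.sum_congr rfl fun i hi => ?_
    have h : g i ≤ T := (hfin T).mem_toFinset.1 hi
    rw [if_pos h]
  · intro i hi
    exact if_neg fun h => hi ((hfin T).mem_toFinset.2 h)

/-- linear growth -/
lemma NN_lin (hω : ∀ i, 0 ≤ ω i) (hfin : ∀ T : ℝ, {i | g i ≤ T}.Finite) {A : ℝ}
    (hN : Tendsto (fun T : ℝ => NN ω g T / T) atTop (𝓝 A)) :
    ∃ C : ℝ, 0 < C ∧ ∀ T : ℝ, 0 ≤ T → NN ω g T ≤ C * (1 + T) := by
  have h1 := hN.eventually (gt_mem_nhds (lt_add_one A))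
  obtain ⟨T0, hT0⟩ := eventually_atTop.1 (h1.and (eventually_gt_atTop (0:ℝ)))
  obtain ⟨h2, h3⟩ := hT0 T0 le_rfl
  refine ⟨max (A + 1) (NN ω g T0) + 1, ?_, fun T hT => ?_⟩
  · have := le_max_right (A + 1) (NN ω g T0)
    have := NN_nonneg (ω := ω) (g := g) hω T0
    linarith
  · have h4 := le_max_left (A + 1) (NN ω g T0)
    have h5 := le_max_right (A + 1) (NN ω g T0)
    have h6 := NN_nonneg (ω := ω) (g := g) hω T0
    obtain ⟨M, hM⟩ : ∃ M : ℝ, M = max (A + 1) (NN ω g T0) := ⟨_, rfl⟩
    rw [← hM] at h4 h5 ⊢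
    rcases le_total T T0 with h | h
    · have := NN_mono hω hfin h
      nlinarith
    · obtain ⟨h7, h8⟩ := hT0 T h
      rw [div_lt_iff₀ h8] at h7
      nlinarith

/-- the tail -/
lemma tail (hω : ∀ i, 0 ≤ ω i) (hfin : ∀ T : ℝ, {i | g i ≤ T}.Finite) {C : ℝ} (hC : 0 < C)
    (hN : ∀ T : ℝ, 0 ≤ T → NN ω g T ≤ C * (1 + T)) {y : ℝ} (hy : 1 ≤ y) :
    (Summable fun i => if y < g i then ω i / g i ^ 2 else 0) ∧
      (∑' i, if y < g i then ω i / g i ^ 2 else 0) ≤ 8 * C / y := by
  classical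
  have hy0 : 0 < y := by linarith
  have key : ∀ s : Finset ι, ∑ i ∈ s, (if y < g i then ω i / g i ^ 2 else 0) ≤ 8 * C / y := by
    intro s
    obtain ⟨K, hK⟩ : ∃ K : ℕ, ∀ i ∈ s, g i ≤ 2 ^ K * y := by
      obtain ⟨M, hM⟩ : ∃ M : ℝ, ∀ i ∈ s, g i ≤ M := ⟨∑ i ∈ s, |g i|, fun i hi =>
        (le_abs_self _).trans (Finset.single_le_sum (f := fun i => |g i|) (fun _ _ => abs_nonneg _) hi)⟩
      obtain ⟨K, hK⟩ := pow_unbounded_of_one_lt M one_lt_two
      refine ⟨K, fun i hi => (hM i hi).trans (hK.le.trans ?_)⟩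
      have : (0:ℝ) < 2 ^ K := by positivity
      nlinarith
    have hpt : ∀ i ∈ s, (if y < g i then ω i / g i ^ 2 else 0) ≤
        ∑ k ∈ Finset.range K, (1 / (4 ^ k * y ^ 2)) * (if g i ≤ 2 ^ (k + 1) * y then ω i else 0) := by
      intro i hi
      have hterm : ∀ k ∈ Finset.range K, 0 ≤ (1 / (4 ^ k * y ^ 2)) * (if g i ≤ 2 ^ (k + 1) * y then ω i else 0) := by
        intro k _
        refine mul_nonneg (by positivity) ?_
        split_ifs
        · exact hω i
        · exact le_rfl
      by_cases h : y < g i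
      · rw [if_pos h]
        have hex : ∃ k : ℕ, g i ≤ 2 ^ k * y := ⟨K, hK i hi⟩
        obtain ⟨m, hm⟩ : ∃ m, m = Nat.find hex := ⟨_, rfl⟩
        have h1 : g i ≤ 2 ^ m * y := by rw [hm]; exact Nat.find_spec hex
        have h2 : m ≤ K := by rw [hm]; exact Nat.find_min' hex (hK i hi)
        have h3 : m ≠ 0 := by
          rintro h0
          rw [h0] at h1
          linarith
        obtain ⟨k, rfl⟩ := Nat.exists_eq_succ_of_ne_zero h3
        have h4 : 2 ^ k * y < g i := by
          have := Nat.find_min hex (m := k) (by rw [← hm]; exact Nat.lt_succ_self k)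
          exact not_le.1 this
        refine le_trans ?_ (Finset.single_le_sum hterm (Finset.mem_range.2 (by omega : k < K)))
        rw [if_pos h1, one_div_mul_eq_div]
        refine div_le_div_of_nonneg_left (hω i) (by positivity) ?_
        have h5 : (4:ℝ) ^ k = (2 ^ k) ^ 2 := by
          rw [← pow_mul, mul_comm, pow_mul]
          norm_num
        rw [h5, ← mul_pow]
        exact pow_le_pow_left₀ (by positivity) h4.le 2
      · rw [if_neg h]
        exact Finset.sum_nonneg hterm
    calc ∑ i ∈ s, (if y < g i then ω i / g i ^ 2 else 0)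
        ≤ ∑ i ∈ s, ∑ k ∈ Finset.range K, (1 / (4 ^ k * y ^ 2)) * (if g i ≤ 2 ^ (k + 1) * y then ω i else 0) :=
          Finset.sum_le_sum hpt
      _ = ∑ k ∈ Finset.range K, (1 / (4 ^ k * y ^ 2)) * ∑ i ∈ s, (if g i ≤ 2 ^ (k + 1) * y then ω i else 0) := by
          rw [Finset.sum_comm]
          exact Finset.sum_congr rfl fun k _ => by rw [Finset.mul_sum]
      _ ≤ ∑ k ∈ Finset.range K, (1 / (4 ^ k * y ^ 2)) * (C * (4 * 2 ^ k * y)) := by
          refine Finset.sum_le_sum fun k _ => ?_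
          have h1 : ∑ i ∈ s, (if g i ≤ 2 ^ (k + 1) * y then ω i else 0) ≤ NN ω g (2 ^ (k + 1) * y) := by
            unfold NN
            refine (NN_summ hfin _).sum_le_tsum s fun i _ => ?_
            split_ifs
            · exact hω i
            · exact le_rfl
          have h2 := hN (2 ^ (k + 1) * y) (by positivity)
          have h3 : C * (1 + 2 ^ (k + 1) * y) ≤ C * (4 * 2 ^ k * y) := by
            have h4 : (1:ℝ) ≤ 2 ^ k := one_le_pow₀ one_le_two
            have h5 : (1:ℝ) ≤ 2 ^ k * y := by nlinarith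
            have h6 : (2:ℝ) ^ (k + 1) = 2 * 2 ^ k := by ring
            rw [h6]
            refine mul_le_mul_of_nonneg_left ?_ hC.le
            nlinarith
          have h7 : (0:ℝ) ≤ 1 / (4 ^ k * y ^ 2) := by positivity
          exact mul_le_mul_of_nonneg_left (h1.trans (h2.trans h3)) h7
      _ = (4 * C / y) * ∑ k ∈ Finset.range K, (1 / 2 : ℝ) ^ k := by
          rw [Finset.mul_sum]
          refine Finset.sum_congr rfl fun k _ => ?_
          have h5 : (4:ℝ) ^ k = 2 ^ k * 2 ^ k := by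
            rw [← mul_pow]
            norm_num
          rw [h5, one_div_pow]
          field_simp
      _ ≤ (4 * C / y) * 2 := by
          refine mul_le_mul_of_nonneg_left ?_ (by positivity)
          calc ∑ k ∈ Finset.range K, (1 / 2 : ℝ) ^ k ≤ ∑' k : ℕ, (1 / 2 : ℝ) ^ k :=
                summable_geometric_two.sum_le_tsum _ fun _ _ => by positivity
            _ = 2 := tsum_geometric_two
      _ = 8 * C / y := by ring
  have hnn : ∀ i, 0 ≤ (if y < g i then ω i / g i ^ 2 else 0) := by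
    intro i
    split_ifs
    · exact div_nonneg (hω i) (sq_nonneg _)
    · exact le_rfl
  have hs := summable_of_sum_le hnn key
  exact ⟨hs, hs.tsum_le_of_sum_le key⟩

/-- layer cake -/
lemma mid (hfin : ∀ T : ℝ, {i | g i ≤ T}.Finite) {φ φ' : ℝ → ℝ}
    (hd : ∀ x : ℝ, 0 < x → HasDerivAt φ (φ' x) x) (hc : ContinuousOn φ' (Ioi 0))
    {ε R T : ℝ} (hε : 0 < ε) (hR : ε < R) (hT : 0 < T) :
    ∑ i ∈ (hfin (R * T)).toFinset, ω i * φ (max (g i / T) ε) =
      φ R * NN ω g (R * T) - ∫ v in ε..R, NN ω g (v * T) * φ' v := by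
  classical
  have hsub : uIcc ε R ⊆ Ioi 0 := by
    rw [uIcc_of_le hR.le]
    intro x hx
    exact lt_of_lt_of_le hε hx.1
  have hcI : IntervalIntegrable φ' volume ε R := (hc.mono hsub).intervalIntegrable
  have hterm : ∀ i ∈ (hfin (R * T)).toFinset, ω i * φ (max (g i / T) ε) =
      ω i * φ R - ∫ v in ε..R, (if g i ≤ v * T then ω i * φ' v else 0) := by
    intro i hi
    have hi' : g i ≤ R * T := (hfin (R * T)).mem_toFinset.1 hi
    obtain ⟨m, hm⟩ : ∃ m : ℝ, m = max (g i / T) ε := ⟨_, rfl⟩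
    have hm1 : ε ≤ m := hm ▸ le_max_right _ _
    have hm2 : m ≤ R := by
      rw [hm]
      exact max_le ((div_le_iff₀ hT).2 hi') hR.le
    have h1 : ∫ v in ε..R, (if g i ≤ v * T then ω i * φ' v else 0) = ∫ v in m..R, ω i * φ' v := by
      rw [intervalIntegral.integral_of_le hR.le, intervalIntegral.integral_of_le hm2]
      have h2 : ∀ v : ℝ, v ∈ Ioc ε R → (if g i ≤ v * T then ω i * φ' v else 0) =
          (Ici (g i / T)).indicator (fun v => ω i * φ' v) v := by
        intro v _
        by_cases h : g i ≤ v * T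
        · rw [if_pos h, indicator_of_mem (show v ∈ Ici (g i / T) from (div_le_iff₀ hT).2 h)]
        · rw [if_neg h, indicator_of_notMem (show v ∉ Ici (g i / T) from fun h' => h ((div_le_iff₀ hT).1 h'))]
      rw [setIntegral_congr_fun measurableSet_Ioc h2, setIntegral_indicator measurableSet_Ici]
      refine setIntegral_congr_set ?_
      have h3 : (Ioc ε R ∩ Ici (g i / T) : Set ℝ) =ᵐ[volume] Ioc m R := by
        have h4 : (Ioc m R) ⊆ Ioc ε R ∩ Ici (g i / T) := by
          intro v hv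
          refine ⟨⟨lt_of_le_of_lt hm1 hv.1, hv.2⟩, ?_⟩
          have : g i / T ≤ m := hm ▸ le_max_left _ _
          exact this.trans hv.1.le
        have h5 : Ioc ε R ∩ Ici (g i / T) ⊆ Icc m R := by
          intro v hv
          refine ⟨?_, hv.1.2⟩
          rw [hm]
          exact max_le hv.2 hv.1.1.le
        have h6 : (Icc m R : Set ℝ) =ᵐ[volume] Ioc m R := Ioc_ae_eq_Icc.symm
        exact (h5.eventuallyLE.trans h6.le).antisymm h4.eventuallyLE
      exact h3
    rw [h1, intervalIntegral.integral_const_mul]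
    have h7 : ∫ v in m..R, φ' v = φ R - φ m := by
      refine intervalIntegral.integral_eq_sub_of_hasDerivAt (fun x hx => ?_) ?_
      · rw [uIcc_of_le hm2] at hx
        exact hd x (lt_of_lt_of_le hε (hm1.trans hx.1))
      · refine (hc.mono ?_).intervalIntegrable
        rw [uIcc_of_le hm2]
        intro x hx
        exact lt_of_lt_of_le hε (hm1.trans hx.1)
    rw [h7, ← hm]
    ring
  rw [Finset.sum_congr rfl hterm, Finset.sum_sub_distrib, ← Finset.sum_mul, ← NN_eq hfin, mul_comm]
  congr 1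
  rw [← intervalIntegral.integral_finsetSum]
  · refine intervalIntegral.integral_congr fun v hv => ?_
    rw [uIcc_of_le hR.le] at hv
    unfold NN
    rw [← tsum_mul_right, tsum_eq_sum (s := (hfin (R * T)).toFinset)]
    · refine Finset.sum_congr rfl fun i _ => ?_
      split_ifs
      · rfl
      · rw [zero_mul]
    · intro i hi
      rw [if_neg, zero_mul]
      intro h
      refine hi ((hfin (R * T)).mem_toFinset.2 (h.trans ?_))
      exact mul_le_mul_of_nonneg_right hv.2 hT.le
  · intro i _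
    have h1 : (fun v => if g i ≤ v * T then ω i * φ' v else 0) =
        (Ici (g i / T)).indicator (fun v => ω i * φ' v) := by
      funext v
      by_cases h : g i ≤ v * T
      · rw [if_pos h, indicator_of_mem (show v ∈ Ici (g i / T) from (div_le_iff₀ hT).2 h)]
      · rw [if_neg h, indicator_of_notMem (show v ∉ Ici (g i / T) from fun h' => h ((div_le_iff₀ hT).1 h'))]
    rw [h1]
    have h2 := hcI.const_mul (ω i)
    exact ⟨h2.1.indicator measurableSet_Ici, h2.2.indicator measurableSet_Ici⟩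

end Pool.Agent.Y763.GC
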